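import Mathlib

set_option autoImplicit false

/-!
Inverse automata and subgroups of free groups.
-/

namespace Pool.Agent.X269.Automaton

open FreeGroup

variable {A V : Type*}

/-- reading a word -/
def run (δ : V → A × Bool → Option V) : V → List (A × Bool) → Option V
  | v, [] => some v
  | v, a :: L => (δ v a).bind fun w => run δ w L

/-- the transitions are inverse to each other -/
def Inv (δ : V → A × Bool → Option V) : Prop :=
  ∀ v a w, δ v a = some w → δ w (a.1, !a.2) = some v

theorem run_append (δ : V → A × Bool → Option V) (L M : List (A × Bool)) : ∀ v,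
    run δ v (L ++ M) = (run δ v L).bind fun w => run δ w M := by
  induction L with
  | nil => intro v; rfl
  | cons a L ih =>
    intro v
    simp only [List.cons_append, run]
    cases h : δ v a with
    | none => rfl
    | some w => simp only [Option.bind_some]; exact ih w

theorem run_step (δ : V → A × Bool → Option V) (hδ : Inv δ) (L M : List (A × Bool))
    (h : Red.Step L M) (v w : V) (hr : run δ v L = some w) : run δ v M = some w := by
  cases h with
  | @not L₁ L₂ x b =>
    rw [run_append] at hr ⊢
    cases h1 : run δ v L₁ with
    | none => rw [h1] at hr; simp at hr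
    | some u =>
      rw [h1] at hr
      simp only [Option.bind_some] at hr ⊢
      simp only [run] at hr
      cases h2 : δ u (x, b) with
      | none => rw [h2] at hr; simp at hr
      | some t =>
        rw [h2] at hr
        have h3 := hδ u (x, b) t h2
        simp only at h3
        simp only [Option.bind_some, h3] at hr
        exact hr

theorem run_red (δ : V → A × Bool → Option V) (hδ : Inv δ) (L M : List (A × Bool))
    (h : Red L M) (v w : V) (hr : run δ v L = some w) : run δ v M = some w := by
  induction h with
  | refl => exact hr
  | tail _ h2 ih => exact run_step δ hδ _ _ h2 v w ih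

theorem run_invRev (δ : V → A × Bool → Option V) (hδ : Inv δ) (L : List (A × Bool)) : ∀ v w,
    run δ v L = some w → run δ w (invRev L) = some v := by
  induction L with
  | nil =>
    intro v w h
    simp only [run, Option.some.injEq] at h
    rw [h]
    rfl
  | cons a L ih =>
    intro v w h
    simp only [run] at h
    cases h1 : δ v a with
    | none => rw [h1] at h; simp at h
    | some u =>
      rw [h1] at h
      simp only [Option.bind_some] at h
      have h2 := ih u w h
      have h3 := hδ v a u h1
      have h4 : invRev (a :: L) = invRev L ++ [(a.1, !a.2)] := by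
        simp [invRev]
      rw [h4, run_append, h2]
      simp only [Option.bind_some, run, h3]

variable [DecidableEq A]

/-- the subgroup of the elements whose reduced words are accepted at `v₀` -/
def acc (δ : V → A × Bool → Option V) (hδ : Inv δ) (v₀ : V) : Subgroup (FreeGroup A) where
  carrier := {g | run δ v₀ g.toWord = some v₀}
  mul_mem' := by
    intro g h hg hh
    show run δ v₀ (g * h).toWord = some v₀
    rw [toWord_mul]
    refine run_red δ hδ _ _ reduce.red v₀ v₀ ?_
    rw [run_append]
    have h1 : run δ v₀ g.toWord = some v₀ := hg
    rw [h1]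
    exact hh
  one_mem' := by
    show run δ v₀ (1 : FreeGroup A).toWord = some v₀
    rw [toWord_one]
    rfl
  inv_mem' := by
    intro g hg
    show run δ v₀ (g⁻¹).toWord = some v₀
    rw [toWord_inv]
    exact run_invRev δ hδ _ _ _ hg

theorem mk_mem_acc (δ : V → A × Bool → Option V) (hδ : Inv δ) (v₀ : V) (L : List (A × Bool))
    (h : run δ v₀ L = some v₀) : FreeGroup.mk L ∈ acc δ hδ v₀ := by
  show run δ v₀ (FreeGroup.mk L).toWord = some v₀
  rw [toWord_mk]
  exact run_red δ hδ _ _ reduce.red v₀ v₀ h

omit [DecidableEq A] in
/-- if two automata are read simultaneously and a potential with values in a group exists on the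
pairs of states, then the common elements are in the kernel of the homomorphism -/
theorem potential {W Q : Type*} [Group Q] (δ : V → A × Bool → Option V)
    (ε : W → A × Bool → Option W) (φ : FreeGroup A →* Q) (θ : V → W → Option Q)
    (h : ∀ v w a q v' w', θ v w = some q → δ v a = some v' → ε w a = some w' →
      θ v' w' = some (q * φ (FreeGroup.mk [a]))) (L : List (A × Bool)) :
    ∀ v w q v' w', θ v w = some q → run δ v L = some v' → run ε w L = some w' →
      θ v' w' = some (q * φ (FreeGroup.mk L)) := by
  induction L with
  | nil =>
    intro v w q v' w' h1 h2 h3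
    simp only [run, Option.some.injEq] at h2 h3
    subst h2
    subst h3
    have : (FreeGroup.mk [] : FreeGroup A) = 1 := rfl
    rw [this, _root_.map_one, mul_one, h1]
  | cons a L ih =>
    intro v w q v' w' h1 h2 h3
    simp only [run] at h2 h3
    cases h4 : δ v a with
    | none => rw [h4] at h2; simp at h2
    | some u =>
      cases h5 : ε w a with
      | none => rw [h5] at h3; simp at h3
      | some t =>
        rw [h4] at h2
        rw [h5] at h3
        simp only [Option.bind_some] at h2 h3
        have h6 := h v w a q u t h1 h4 h5
        have h7 := ih u t _ v' w' h6 h2 h3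
        have h8 : (FreeGroup.mk (a :: L) : FreeGroup A) = FreeGroup.mk [a] * FreeGroup.mk L := rfl
        rw [h7, h8, _root_.map_mul, mul_assoc]

/-! ### the rank of a subgroup -/

/-- the rank of a free group is the least number of generators -/
noncomputable def rk {G : Type*} [Group G] (H : Subgroup G) : ℕ∞ :=
  ⨅ (S : Set G) (_ : Subgroup.closure S = H), S.encard

theorem rk_closure_le {G : Type*} [Group G] (S : Set G) : rk (Subgroup.closure S) ≤ S.encard :=
  iInf₂_le (f := fun (T : Set G) (_ : Subgroup.closure T = Subgroup.closure S) => T.encard) S rfl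

theorem rk_bot {G : Type*} [Group G] : rk (⊥ : Subgroup G) = 0 := by
  have h := rk_closure_le (∅ : Set G)
  rw [Subgroup.closure_empty, Set.encard_empty] at h
  exact le_antisymm h bot_le

theorem one_le_rk {G : Type*} [Group G] (H : Subgroup G) (h : H ≠ ⊥) : 1 ≤ rk H := by
  refine le_iInf₂ fun S hS => ?_
  rw [Set.one_le_encard_iff_nonempty]
  by_contra hcon
  rw [Set.not_nonempty_iff_eq_empty] at hcon
  apply h
  rw [← hS, hcon, Subgroup.closure_empty]

theorem comm_of_rk_le_one {G : Type*} [Group G] (H : Subgroup G) (h : rk H ≤ 1) :
    ∀ g ∈ H, ∀ k ∈ H, g * k = k * g := by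
  have h2 : rk H < 2 := lt_of_le_of_lt h (by norm_num)
  unfold rk at h2
  rw [iInf_lt_iff] at h2
  obtain ⟨S, hS⟩ := h2
  rw [iInf_lt_iff] at hS
  obtain ⟨hS, hc⟩ := hS
  have h3 : S.encard ≤ 1 := by
    have h4 : S.encard < 1 + 1 := by
      rw [one_add_one_eq_two]; exact hc
    exact Order.le_of_lt_add_one h4
  rw [Set.encard_le_one_iff] at h3
  rw [← hS]
  intro g hg k hk
  have hcomm : IsMulCommutative (Subgroup.closure S) := by
    apply Subgroup.isMulCommutative_closure
    intro x hx y hy
    rw [h3 x y hx hy]
  have := congrArg Subtype.val (hcomm.is_comm.comm ⟨g, hg⟩ ⟨k, hk⟩)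
  exact this

end Pool.Agent.X269.Automaton
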