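import Mathlib
import Pool.Agent.X269.Automaton

set_option autoImplicit false

/-!
The subgroups `⟨x, y²x²y²⟩` and `⟨y, x²y²x²⟩` of the free group on `x`, `y`, and the Klein bottle
group `⟨x, y | x²y² = 1⟩`.
-/

namespace Pool.Agent.X269.Echelon

open Pool.Agent.X269.Automaton

/-! ### the Klein bottle group -/

/-- a sign -/
def sg (n : ℤ) : ℤ := if n % 2 = 0 then 1 else -1

theorem sg_add (m n : ℤ) : sg (m + n) = sg m * sg n := by
  unfold sg
  split_ifs <;> omega

theorem sg_neg (n : ℤ) : sg (-n) = sg n := by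
  unfold sg
  split_ifs <;> omega

theorem sg_sq (n : ℤ) : sg n * sg n = 1 := by
  unfold sg
  split_ifs <;> omega

/-- the Klein bottle group: pairs `(m, n)` with product `(m + (-1)^n m', n + n')` -/
@[ext] structure KB where
  m : ℤ
  n : ℤ
deriving DecidableEq

instance : Mul KB := ⟨fun p q => ⟨p.m + sg p.n * q.m, p.n + q.n⟩⟩
instance : One KB := ⟨⟨0, 0⟩⟩
instance : Inv KB := ⟨fun p => ⟨-(sg p.n * p.m), -p.n⟩⟩

theorem mul_m (p q : KB) : (p * q).m = p.m + sg p.n * q.m := rfl
theorem mul_n (p q : KB) : (p * q).n = p.n + q.n := rfl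
theorem one_m : (1 : KB).m = 0 := rfl
theorem one_n : (1 : KB).n = 0 := rfl
theorem inv_m (p : KB) : (p⁻¹).m = -(sg p.n * p.m) := rfl
theorem inv_n (p : KB) : (p⁻¹).n = -p.n := rfl

instance : Group KB where
  mul_assoc p q r := by
    ext
    · simp only [mul_m, mul_n, sg_add]; ring
    · simp only [mul_n]; ring
  one_mul p := by
    ext
    · simp only [mul_m, one_m, one_n]
      have : sg 0 = 1 := rfl
      rw [this]; ring
    · simp only [mul_n, one_n]; ring
  mul_one p := by
    ext
    · simp only [mul_m, one_m]; ring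
    · simp only [mul_n, one_n]; ring
  inv_mul_cancel p := by
    ext
    · simp only [mul_m, inv_m, inv_n, one_m, sg_neg]; ring
    · simp only [mul_n, inv_n, one_n]; ring

theorem KB_pow_n (p : KB) (k : ℕ) : (p ^ k).n = k * p.n := by
  induction k with
  | zero => simp [one_n]
  | succ k ih => rw [pow_succ, mul_n, ih]; push_cast; ring

theorem KB_pow_m (p : KB) (h : p.n = 0) (k : ℕ) : (p ^ k).m = k * p.m := by
  induction k with
  | zero => simp [one_m]
  | succ k ih =>
    rw [pow_succ, mul_m, ih, KB_pow_n, h]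
    have : sg (k * 0) = 1 := by rw [mul_zero]; rfl
    rw [this]; push_cast; ring

/-- the Klein bottle group is torsion-free -/
theorem KB_torsionfree (p : KB) (k : ℕ) (hk : k ≠ 0) (h : p ^ k = 1) : p = 1 := by
  have h1 := congrArg KB.n h
  rw [KB_pow_n, one_n] at h1
  have hk' : (k : ℤ) ≠ 0 := by exact_mod_cast hk
  have h2 : p.n = 0 := by
    rcases mul_eq_zero.1 h1 with h | h
    · exact absurd h hk'
    · exact h
  have h3 := congrArg KB.m h
  rw [KB_pow_m p h2, one_m] at h3
  have h4 : p.m = 0 := by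
    rcases mul_eq_zero.1 h3 with h | h
    · exact absurd h hk'
    · exact h
  exact KB.ext h4 h2

/-- reduction modulo two -/
def red2 : KB →* Multiplicative (ZMod 2 × ZMod 2) where
  toFun p := Multiplicative.ofAdd ((p.m : ZMod 2), (p.n : ZMod 2))
  map_one' := by
    show Multiplicative.ofAdd (((0 : ℤ) : ZMod 2), ((0 : ℤ) : ZMod 2)) = 1
    simp
  map_mul' p q := by
    show Multiplicative.ofAdd (((p.m + sg p.n * q.m : ℤ) : ZMod 2), ((p.n + q.n : ℤ) : ZMod 2)) =
      Multiplicative.ofAdd (((p.m : ZMod 2), (p.n : ZMod 2)) + ((q.m : ZMod 2), (q.n : ZMod 2)))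
    congr 1
    ext1
    · simp only [Prod.fst_add]
      unfold sg
      split_ifs
      · push_cast; ring
      · push_cast
        have : ∀ a b : ZMod 2, a + -1 * b = a + b := by decide
        exact this _ _
    · simp

/-! ### the two subgroups -/

/-- the free group of rank two -/
abbrev F : Type := FreeGroup (Fin 2)

/-- the map to the Klein bottle group -/
def φ : F →* KB := FreeGroup.lift fun i => if i = 0 then ⟨0, 1⟩ else ⟨1, -1⟩

/-- the word `y²x²y²` -/
def uw : List (Fin 2 × Bool) := [(1, true), (1, true), (0, true), (0, true), (1, true), (1, true)]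

/-- the word `x²y²x²` -/
def vw : List (Fin 2 × Bool) := [(0, true), (0, true), (1, true), (1, true), (0, true), (0, true)]

/-- the subgroup `⟨x, y²x²y²⟩` -/
def H : Subgroup F := Subgroup.closure {FreeGroup.of 0, FreeGroup.mk uw}

/-- the subgroup `⟨y, x²y²x²⟩` -/
def G : Subgroup F := Subgroup.closure {FreeGroup.of 1, FreeGroup.mk vw}

/-- the automaton of `H` -/
def δH : Fin 6 → Fin 2 × Bool → Option (Fin 6)
  | 0, (0, true) => some 0
  | 0, (1, true) => some 1
  | 1, (1, true) => some 2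
  | 2, (0, true) => some 3
  | 3, (0, true) => some 4
  | 4, (1, true) => some 5
  | 5, (1, true) => some 0
  | 0, (0, false) => some 0
  | 1, (1, false) => some 0
  | 2, (1, false) => some 1
  | 3, (0, false) => some 2
  | 4, (0, false) => some 3
  | 5, (1, false) => some 4
  | 0, (1, false) => some 5
  | _, _ => none

/-- the automaton of `G` -/
def δG : Fin 6 → Fin 2 × Bool → Option (Fin 6)
  | 0, (1, true) => some 0
  | 0, (0, true) => some 1
  | 1, (0, true) => some 2
  | 2, (1, true) => some 3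
  | 3, (1, true) => some 4
  | 4, (0, true) => some 5
  | 5, (0, true) => some 0
  | 0, (1, false) => some 0
  | 1, (0, false) => some 0
  | 2, (0, false) => some 1
  | 3, (1, false) => some 2
  | 4, (1, false) => some 3
  | 5, (0, false) => some 4
  | 0, (0, false) => some 5
  | _, _ => none

theorem δH_inv : Automaton.Inv δH := by
  unfold Automaton.Inv; decide

theorem δG_inv : Automaton.Inv δG := by
  unfold Automaton.Inv; decide

theorem H_le : H ≤ acc δH δH_inv 0 := by
  unfold H
  rw [Subgroup.closure_le]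
  rintro g hg
  simp only [Set.mem_insert_iff, Set.mem_singleton_iff] at hg
  rcases hg with rfl | rfl
  · exact mk_mem_acc δH δH_inv 0 [(0, true)] rfl
  · exact mk_mem_acc δH δH_inv 0 uw rfl

theorem G_le : G ≤ acc δG δG_inv 0 := by
  unfold G
  rw [Subgroup.closure_le]
  rintro g hg
  simp only [Set.mem_insert_iff, Set.mem_singleton_iff] at hg
  rcases hg with rfl | rfl
  · exact mk_mem_acc δG δG_inv 0 [(1, true)] rfl
  · exact mk_mem_acc δG δG_inv 0 vw rfl

/-- the potential -/
def θ : Fin 6 → Fin 6 → Option KB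
  | 0, 0 => some ⟨0, 0⟩
  | 0, 1 => some ⟨0, 1⟩
  | 0, 2 => some ⟨0, 2⟩
  | 0, 4 => some ⟨0, -2⟩
  | 0, 5 => some ⟨0, -1⟩
  | 1, 0 => some ⟨1, -1⟩
  | 1, 3 => some ⟨1, 1⟩
  | 2, 0 => some ⟨0, -2⟩
  | 2, 4 => some ⟨0, 0⟩
  | 3, 1 => some ⟨0, -1⟩
  | 3, 5 => some ⟨0, 1⟩
  | 4, 0 => some ⟨0, 2⟩
  | 4, 2 => some ⟨0, 0⟩
  | 5, 0 => some ⟨1, 1⟩
  | 5, 3 => some ⟨1, -1⟩
  | _, _ => none

/-- the value of `φ` on letters -/
def φl (a : Fin 2 × Bool) : KB :=
  match a with
  | (0, true) => ⟨0, 1⟩
  | (0, false) => ⟨0, -1⟩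
  | (1, true) => ⟨1, -1⟩
  | (1, false) => ⟨1, 1⟩

theorem φl_eq (a : Fin 2 × Bool) : φ (FreeGroup.mk [a]) = φl a := by
  obtain ⟨i, b⟩ := a
  fin_cases i <;> cases b <;> decide

theorem chk : ∀ v w : Fin 6, ∀ a : Fin 2 × Bool, ∀ q ∈ θ v w, ∀ v' ∈ δH v a, ∀ w' ∈ δG w a,
    θ v' w' = some (q * φl a) := by decide

theorem ker (g : F) (h1 : g ∈ H) (h2 : g ∈ G) : φ g = 1 := by
  have h3 : run δH 0 g.toWord = some 0 := H_le h1
  have h4 : run δG 0 g.toWord = some 0 := G_le h2
  have h5 := potential δH δG φ θ (by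
    intro v w a q v' w' hq hv hw
    rw [φl_eq]
    exact chk v w a q hq v' hv w' hw) g.toWord 0 0 1 0 0 rfl h3 h4
  rw [FreeGroup.mk_toWord, one_mul] at h5
  have h6 : θ 0 0 = some 1 := rfl
  rw [h6] at h5
  exact (Option.some.inj h5).symm

/-- no nontrivial power of a member of a two-element generating set of `F` lies in both subgroups -/
theorem no_power (p q : F) (hpq : Subgroup.closure {p, q} = ⊤) (k : ℕ) (hk : k ≠ 0)
    (h1 : p ^ k ∈ H) (h2 : p ^ k ∈ G) : False := by
  have h3 := ker _ h1 h2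
  rw [map_pow] at h3
  have h4 : φ p = 1 := KB_torsionfree _ k hk h3
  obtain ⟨f, hf⟩ : ∃ f : F →* Multiplicative (ZMod 2 × ZMod 2), f = red2.comp φ := ⟨_, rfl⟩
  have h5 : f p = 1 := by rw [hf, MonoidHom.comp_apply, h4, map_one]
  have h6 : ∀ g : F, f g ∈ Subgroup.zpowers (f q) := by
    intro g
    have hg : g ∈ Subgroup.closure {p, q} := by rw [hpq]; trivial
    have h7 : Subgroup.closure {p, q} ≤ (Subgroup.zpowers (f q)).comap f := by
      rw [Subgroup.closure_le]
      rintro z hz
      simp only [Set.mem_insert_iff, Set.mem_singleton_iff] at hz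
      rcases hz with rfl | rfl
      · show f z ∈ Subgroup.zpowers (f q)
        rw [h5]
        exact Subgroup.one_mem _
      · exact Subgroup.mem_zpowers _
    exact h7 hg
  have sq : ∀ z : Multiplicative (ZMod 2 × ZMod 2), z * z = 1 := by decide
  have h8 : ∀ z : Multiplicative (ZMod 2 × ZMod 2), z ∈ Subgroup.zpowers (f q) →
      z = 1 ∨ z = f q := by
    rintro z ⟨n, rfl⟩
    have h9 : (f q) ^ (2 : ℤ) = 1 := by
      rw [zpow_two]; exact sq _
    rcases Int.even_or_odd' n with ⟨m, rfl | rfl⟩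
    · left
      show (f q) ^ (2 * m) = 1
      rw [zpow_mul, h9, one_zpow]
    · right
      show (f q) ^ (2 * m + 1) = f q
      rw [zpow_add, zpow_mul, h9, one_zpow, one_mul, zpow_one]
  have hx : f (FreeGroup.of 0) = Multiplicative.ofAdd (0, 1) := by
    rw [hf]
    decide
  have hy : f (FreeGroup.of 1) = Multiplicative.ofAdd (1, 1) := by
    rw [hf]
    decide
  have ex := h8 _ (h6 (FreeGroup.of 0))
  have ey := h8 _ (h6 (FreeGroup.of 1))
  rw [hx] at ex
  rw [hy] at ey
  rcases ex with ex | ex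
  · revert ex; decide
  · rcases ey with ey | ey
    · revert ey; decide
    · rw [← ex] at ey
      revert ey; decide

theorem c_mem : FreeGroup.mk (vw ++ [(1, true), (1, true)]) ∈ H ⊓ G := by
  have a1 : FreeGroup.of 0 ∈ H := Subgroup.subset_closure (by simp)
  have a2 : FreeGroup.mk uw ∈ H := Subgroup.subset_closure (by simp)
  have b1 : FreeGroup.of 1 ∈ G := Subgroup.subset_closure (by simp)
  have b2 : FreeGroup.mk vw ∈ G := Subgroup.subset_closure (by simp)
  constructor
  · exact H.mul_mem (H.mul_mem a1 a1) a2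
  · exact G.mul_mem b2 (G.mul_mem b1 b1)

theorem d_mem : FreeGroup.mk (uw ++ [(0, true), (0, true)]) ∈ H ⊓ G := by
  have a1 : FreeGroup.of 0 ∈ H := Subgroup.subset_closure (by simp)
  have a2 : FreeGroup.mk uw ∈ H := Subgroup.subset_closure (by simp)
  have b1 : FreeGroup.of 1 ∈ G := Subgroup.subset_closure (by simp)
  have b2 : FreeGroup.mk vw ∈ G := Subgroup.subset_closure (by simp)
  constructor
  · exact H.mul_mem a2 (H.mul_mem a1 a1)
  · exact G.mul_mem (G.mul_mem b1 b1) b2

theorem not_comm : (FreeGroup.mk (vw ++ [(1, true), (1, true)]) : F) *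
    FreeGroup.mk (uw ++ [(0, true), (0, true)]) ≠
    FreeGroup.mk (uw ++ [(0, true), (0, true)]) * FreeGroup.mk (vw ++ [(1, true), (1, true)]) := by
  decide

end Pool.Agent.X269.Echelon
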