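import Mathlib

set_option autoImplicit false

/-!
A free pair of unit quaternions, `(1 + 2i)/√5` and `(1 + 2j)/√5`.
-/

namespace Pool.Agent.X269.Quat

open Quaternion

/-- the free group of rank two -/
abbrev F : Type := FreeGroup (Fin 2)

/-! ### integral part -/

/-- left multiplication by `1 ± 2i`, `1 ± 2j` on integral quaternions -/
def lm (s : Fin 2 × Bool) (y : ℤ × ℤ × ℤ × ℤ) : ℤ × ℤ × ℤ × ℤ :=
  match s with
  | (0, true) => (y.1 - 2 * y.2.1, y.2.1 + 2 * y.1, y.2.2.1 - 2 * y.2.2.2, y.2.2.2 + 2 * y.2.2.1)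
  | (0, false) => (y.1 + 2 * y.2.1, y.2.1 - 2 * y.1, y.2.2.1 + 2 * y.2.2.2, y.2.2.2 - 2 * y.2.2.1)
  | (1, true) => (y.1 - 2 * y.2.2.1, y.2.1 + 2 * y.2.2.2, y.2.2.1 + 2 * y.1, y.2.2.2 - 2 * y.2.1)
  | (1, false) => (y.1 + 2 * y.2.2.1, y.2.1 - 2 * y.2.2.2, y.2.2.1 - 2 * y.1, y.2.2.2 + 2 * y.2.1)

/-- divisibility by 5 -/
def Dv (y : ℤ × ℤ × ℤ × ℤ) : Prop := 5 ∣ y.1 ∧ 5 ∣ y.2.1 ∧ 5 ∣ y.2.2.1 ∧ 5 ∣ y.2.2.2

theorem dv_of_two (s t : Fin 2 × Bool) (hst : s ≠ t) (y : ℤ × ℤ × ℤ × ℤ)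
    (h1 : Dv (lm s y)) (h2 : Dv (lm t y)) : Dv y := by
  obtain ⟨a, b, c, d⟩ := y
  obtain ⟨i, u⟩ := s
  obtain ⟨k, v⟩ := t
  unfold Dv at *
  fin_cases i <;> fin_cases k <;> cases u <;> cases v <;>
    simp only [lm, Fin.zero_eta, Fin.mk_one, ne_eq, not_true_eq_false] at * <;>
    refine ⟨?_, ?_, ?_, ?_⟩ <;> omega

theorem lm_inv (i : Fin 2) (u : Bool) (y : ℤ × ℤ × ℤ × ℤ) : Dv (lm (i, !u) (lm (i, u) y)) := by
  obtain ⟨a, b, c, d⟩ := y
  unfold Dv
  fin_cases i <;> cases u <;>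
    simp only [lm, Fin.zero_eta, Fin.mk_one, Bool.not_true, Bool.not_false] <;>
    refine ⟨?_, ?_, ?_, ?_⟩ <;> omega

/-- the integral quaternion of a word -/
def wq (L : List (Fin 2 × Bool)) : ℤ × ℤ × ℤ × ℤ := L.foldr lm (1, 0, 0, 0)

theorem wq_cons (s : Fin 2 × Bool) (L : List (Fin 2 × Bool)) : wq (s :: L) = lm s (wq L) := rfl

theorem wq_reduced (L : List (Fin 2 × Bool)) : ∀ (s : Fin 2 × Bool),
    FreeGroup.IsReduced (s :: L) → ¬ Dv (wq (s :: L)) ∧ Dv (lm (s.1, !s.2) (wq (s :: L))) := by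
  induction L with
  | nil =>
    intro s _
    refine ⟨?_, lm_inv _ _ _⟩
    obtain ⟨i, u⟩ := s
    unfold Dv
    fin_cases i <;> cases u <;> simp [wq, lm]
  | cons t L ih =>
    intro s hs
    rw [FreeGroup.isReduced_cons_cons] at hs
    obtain ⟨h1, h2⟩ := ih t hs.2
    refine ⟨fun h3 => ?_, lm_inv _ _ _⟩
    rw [wq_cons] at h3
    have hne : s ≠ (t.1, !t.2) := by
      rintro rfl
      have := hs.1 rfl
      simp at this
    exact h1 (dv_of_two _ _ hne _ h3 h2)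

/-! ### real part -/

/-- embedding of the integral quaternions -/
noncomputable def cst (y : ℤ × ℤ × ℤ × ℤ) : ℍ[ℝ] := ⟨y.1, y.2.1, y.2.2.1, y.2.2.2⟩

/-- the quaternions `(1 ± 2i)/√5`, `(1 ± 2j)/√5` -/
noncomputable def al (s : Fin 2 × Bool) : ℍ[ℝ] :=
  match s with
  | (0, true) => ⟨1 / √5, 2 / √5, 0, 0⟩
  | (0, false) => ⟨1 / √5, -(2 / √5), 0, 0⟩
  | (1, true) => ⟨1 / √5, 0, 2 / √5, 0⟩
  | (1, false) => ⟨1 / √5, 0, -(2 / √5), 0⟩

theorem cst_lm (s : Fin 2 × Bool) (y : ℤ × ℤ × ℤ × ℤ) :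
    cst (lm s y) = √5 • (al s * cst y) := by
  obtain ⟨a, b, c, d⟩ := y
  obtain ⟨i, u⟩ := s
  have h5 : √5 ≠ 0 := by positivity
  ext <;>
  simp only [Quaternion.re_smul, Quaternion.imI_smul, Quaternion.imJ_smul, Quaternion.imK_smul,
      Quaternion.re_mul, Quaternion.imI_mul, Quaternion.imJ_mul, Quaternion.imK_mul,
      smul_eq_mul] <;>
  fin_cases i <;> cases u <;>
    simp only [cst, lm, al, Fin.zero_eta, Fin.mk_one] <;> push_cast <;> field_simp <;> ring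

theorem al_star (i : Fin 2) (u : Bool) : star (al (i, u)) = al (i, !u) := by
  ext <;>
  simp only [Quaternion.re_star, Quaternion.imI_star, Quaternion.imJ_star, Quaternion.imK_star] <;>
  fin_cases i <;> cases u <;>
    simp only [al, Fin.zero_eta, Fin.mk_one, Bool.not_true, Bool.not_false] <;> ring

theorem al_mul (i : Fin 2) (u : Bool) : al (i, u) * al (i, !u) = 1 := by
  have h5 : √5 ≠ 0 := by positivity
  have h5' : √5 * √5 = 5 := Real.mul_self_sqrt (by norm_num)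
  have h1 : (1 / √5 * (1 / √5) : ℝ) = 1 / 5 := by
    rw [div_mul_div_comm, h5']; norm_num
  have h2 : (2 / √5 * (2 / √5) : ℝ) = 4 / 5 := by
    rw [div_mul_div_comm, h5']; norm_num
  ext <;>
  simp only [Quaternion.re_mul, Quaternion.imI_mul, Quaternion.imJ_mul, Quaternion.imK_mul,
    Quaternion.re_one, Quaternion.imI_one, Quaternion.imJ_one, Quaternion.imK_one] <;>
  fin_cases i <;> cases u <;>
    simp only [al, Fin.zero_eta, Fin.mk_one, Bool.not_true, Bool.not_false] <;>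
    linarith [h1, h2]

theorem al_mem (i : Fin 2) : al (i, true) ∈ unitary ℍ[ℝ] := by
  rw [Unitary.mem_iff, al_star]
  exact ⟨al_mul i false, al_mul i true⟩

/-- the homomorphism to the unit quaternions -/
noncomputable def P : F →* unitary ℍ[ℝ] :=
  FreeGroup.lift fun i => ⟨al (i, true), al_mem i⟩

theorem P_letter (s : Fin 2 × Bool) : ((P (FreeGroup.mk [s]) : unitary ℍ[ℝ]) : ℍ[ℝ]) = al s := by
  obtain ⟨i, u⟩ := s
  cases u
  · have h1 : (FreeGroup.mk [(i, false)] : F) = (FreeGroup.of i)⁻¹ := rfl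
    rw [h1, map_inv]
    unfold P
    rw [FreeGroup.lift_apply_of]
    show star (al (i, true)) = _
    exact al_star i true
  · have h1 : (FreeGroup.mk [(i, true)] : F) = FreeGroup.of i := rfl
    rw [h1]
    unfold P
    rw [FreeGroup.lift_apply_of]

theorem P_mk (L : List (Fin 2 × Bool)) :
    cst (wq L) = (√5 ^ L.length) • ((P (FreeGroup.mk L) : unitary ℍ[ℝ]) : ℍ[ℝ]) := by
  induction L with
  | nil =>
    have h1 : (FreeGroup.mk [] : F) = 1 := rfl
    rw [h1, map_one]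
    ext <;> simp [cst, wq]
  | cons s L ih =>
    have h1 : (FreeGroup.mk (s :: L) : F) = FreeGroup.mk [s] * FreeGroup.mk L := rfl
    rw [wq_cons, cst_lm, ih, h1, map_mul]
    simp only [Submonoid.coe_mul, P_letter, List.length_cons, mul_smul_comm, smul_smul]
    congr 1
    ring

theorem normSq_unit (q : ℍ[ℝ]) (h : q ∈ unitary ℍ[ℝ]) :
    q.re ^ 2 + q.imI ^ 2 + q.imJ ^ 2 + q.imK ^ 2 = 1 := by
  have h1 := congrArg (fun q : ℍ[ℝ] => q.re) (Unitary.mem_iff.1 h).1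
  simp only [Quaternion.re_mul, Quaternion.re_star, Quaternion.imI_star, Quaternion.imJ_star,
    Quaternion.imK_star, Quaternion.re_one] at h1
  linarith

theorem P_real (w : F) (h1' : ((P w : unitary ℍ[ℝ]) : ℍ[ℝ]).imI = 0)
    (h2' : ((P w : unitary ℍ[ℝ]) : ℍ[ℝ]).imJ = 0)
    (h3' : ((P w : unitary ℍ[ℝ]) : ℍ[ℝ]).imK = 0) : w = 1 := by
  by_contra hne
  have hn := normSq_unit _ (P w).2
  rw [h1', h2', h3'] at hn
  have h1 := P_mk w.toWord
  rw [FreeGroup.mk_toWord] at h1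
  obtain ⟨s, L, hL⟩ : ∃ s L, w.toWord = s :: L := by
    cases h : w.toWord with
    | nil => exact absurd (FreeGroup.toWord_eq_nil_iff.1 h) hne
    | cons s L => exact ⟨s, L, rfl⟩
  have hred : FreeGroup.IsReduced (s :: L) := by
    rw [← hL]; exact FreeGroup.isReduced_toWord
  have h2 := (wq_reduced L s hred).1
  rw [hL] at h1
  obtain ⟨⟨a, b, c, d⟩, hy⟩ : ∃ y, y = wq (s :: L) := ⟨_, rfl⟩
  rw [← hy] at h1 h2
  have e0 := congrArg (fun q : ℍ[ℝ] => q.re) h1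
  have e1 := congrArg (fun q : ℍ[ℝ] => q.imI) h1
  have e2 := congrArg (fun q : ℍ[ℝ] => q.imJ) h1
  have e3 := congrArg (fun q : ℍ[ℝ] => q.imK) h1
  simp only [Quaternion.re_smul, Quaternion.imI_smul, Quaternion.imJ_smul, Quaternion.imK_smul,
    h1', h2', h3', smul_eq_mul, mul_zero, cst] at e0 e1 e2 e3
  have e1' : b = 0 := by exact_mod_cast e1
  have e2' : c = 0 := by exact_mod_cast e2
  have e3' : d = 0 := by exact_mod_cast e3
  apply h2
  have h5' : √5 ^ 2 = 5 := Real.sq_sqrt (by norm_num)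
  have e4 : (a : ℝ) ^ 2 = 5 ^ (L.length + 1) := by
    rw [e0, mul_pow, ← pow_mul, mul_comm (List.length _) 2, pow_mul, h5', List.length_cons]
    have : ((P w : unitary ℍ[ℝ]) : ℍ[ℝ]).re ^ 2 = 1 := by linarith
    rw [this, mul_one]
  have e5 : a ^ 2 = 5 ^ (L.length + 1) := by exact_mod_cast e4
  have e6 : (5 : ℤ) ∣ a := by
    have : (5 : ℤ) ∣ a ^ 2 := by rw [e5]; exact dvd_pow_self 5 (by omega)
    exact Int.Prime.dvd_pow' (by norm_num) this
  refine ⟨e6, ?_, ?_, ?_⟩ <;> simp only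
  · rw [e1']; exact dvd_zero _
  · rw [e2']; exact dvd_zero _
  · rw [e3']; exact dvd_zero _

theorem P_injective : Function.Injective P := by
  rw [injective_iff_map_eq_one]
  intro w hw
  apply P_real <;> rw [hw] <;> rfl

end Pool.Agent.X269.Quat
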