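import Mathlib
import Pool.Agent.X269.Quat

set_option autoImplicit false

/-!
Locally commutative free groups of rotations with an element having the eigenvalue `-1`.
-/

namespace Pool.Agent.X269.Rot

open Quaternion Matrix Pool.Agent.X269.Quat

/-! ### general representations -/

/-- an orthogonal, faithful, locally commutative representation of the free group -/
structure Good (ι : Type) [Fintype ι] [DecidableEq ι] (ρ : F →* Matrix ι ι ℝ) : Prop where
  orth : ∀ w, (ρ w)ᵀ * ρ w = 1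
  lc : ∀ v : ι → ℝ, v ≠ 0 → ∀ w w', ρ w *ᵥ v = v → ρ w' *ᵥ v = v → w * w' = w' * w
  inj : ∀ w, ρ w = 1 → w = 1

/-- the first generator is mapped to a matrix with the eigenvalue `-1` -/
def Neg (ι : Type) [Fintype ι] [DecidableEq ι] (ρ : F →* Matrix ι ι ℝ) : Prop :=
  ∃ v : ι → ℝ, v ≠ 0 ∧ ρ (FreeGroup.of 0) *ᵥ v = -v

section Sum

variable {ι κ : Type} [Fintype ι] [DecidableEq ι] [Fintype κ] [DecidableEq κ]

/-- direct sum of representations -/
def ds (ρ : F →* Matrix ι ι ℝ) (σ : F →* Matrix κ κ ℝ) : F →* Matrix (ι ⊕ κ) (ι ⊕ κ) ℝ where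
  toFun w := fromBlocks (ρ w) 0 0 (σ w)
  map_one' := by simp
  map_mul' w w' := by simp [fromBlocks_multiply]

theorem ds_fix (ρ : F →* Matrix ι ι ℝ) (σ : F →* Matrix κ κ ℝ) (w : F) (v : ι ⊕ κ → ℝ) (c : ℝ)
    (h : ds ρ σ w *ᵥ v = c • v) : ρ w *ᵥ (v ∘ Sum.inl) = c • (v ∘ Sum.inl) ∧
    σ w *ᵥ (v ∘ Sum.inr) = c • (v ∘ Sum.inr) := by
  have h1 : ds ρ σ w *ᵥ v = Sum.elim (ρ w *ᵥ (v ∘ Sum.inl)) (σ w *ᵥ (v ∘ Sum.inr)) := by
    show fromBlocks (ρ w) 0 0 (σ w) *ᵥ v = _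
    rw [fromBlocks_mulVec]
    simp
  rw [h1] at h
  constructor
  · funext i
    exact congrFun h (Sum.inl i)
  · funext i
    exact congrFun h (Sum.inr i)

theorem ds_good (ρ : F →* Matrix ι ι ℝ) (σ : F →* Matrix κ κ ℝ) (hρ : Good ι ρ) (hσ : Good κ σ) :
    Good (ι ⊕ κ) (ds ρ σ) := by
  refine ⟨fun w => ?_, fun v hv w w' h h' => ?_, fun w h => ?_⟩
  · show (fromBlocks (ρ w) 0 0 (σ w))ᵀ * fromBlocks (ρ w) 0 0 (σ w) = 1
    rw [fromBlocks_transpose, fromBlocks_multiply]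
    simp [hρ.orth, hσ.orth]
  · have h1 := ds_fix ρ σ w v 1 (by simpa using h)
    have h2 := ds_fix ρ σ w' v 1 (by simpa using h')
    simp only [one_smul] at h1 h2
    by_cases h0 : v ∘ Sum.inl = 0
    · refine hσ.lc (v ∘ Sum.inr) (fun h3 => hv ?_) w w' h1.2 h2.2
      funext i
      rcases i with i | i
      · exact congrFun h0 i
      · exact congrFun h3 i
    · exact hρ.lc _ h0 w w' h1.1 h2.1
  · apply hρ.inj
    have h1 : fromBlocks (ρ w) 0 0 (σ w) = fromBlocks 1 0 0 1 := by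
      rw [fromBlocks_one]; exact h
    exact (fromBlocks_inj.1 h1).1

theorem ds_neg (ρ : F →* Matrix ι ι ℝ) (σ : F →* Matrix κ κ ℝ) (hρ : Neg ι ρ) :
    Neg (ι ⊕ κ) (ds ρ σ) := by
  obtain ⟨v, hv, h⟩ := hρ
  refine ⟨Sum.elim v 0, fun h0 => hv ?_, ?_⟩
  · funext i
    exact congrFun h0 (Sum.inl i)
  · show fromBlocks _ 0 0 _ *ᵥ _ = _
    rw [fromBlocks_mulVec]
    funext i
    rcases i with i | i
    · simp [h]
    · simp

theorem ds_det (ρ : F →* Matrix ι ι ℝ) (σ : F →* Matrix κ κ ℝ) (w : F) :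
    (ds ρ σ w).det = (ρ w).det * (σ w).det := det_fromBlocks_zero₁₂ _ _ _

end Sum

/-! ### the three-dimensional representation -/

/-- the matrix of `x ↦ q x q̄` on pure quaternions -/
def M3 (q : ℍ[ℝ]) : Matrix (Fin 3) (Fin 3) ℝ :=
  !![q.re ^ 2 + q.imI ^ 2 - q.imJ ^ 2 - q.imK ^ 2, 2 * (q.imI * q.imJ - q.re * q.imK),
      2 * (q.imI * q.imK + q.re * q.imJ);
    2 * (q.imI * q.imJ + q.re * q.imK), q.re ^ 2 - q.imI ^ 2 + q.imJ ^ 2 - q.imK ^ 2,
      2 * (q.imJ * q.imK - q.re * q.imI);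
    2 * (q.imI * q.imK - q.re * q.imJ), 2 * (q.imJ * q.imK + q.re * q.imI),
      q.re ^ 2 - q.imI ^ 2 - q.imJ ^ 2 + q.imK ^ 2]

theorem M3_mul (q r : ℍ[ℝ]) : M3 (q * r) = M3 q * M3 r := by
  ext i j
  simp only [M3, Quaternion.re_mul, Quaternion.imI_mul, Quaternion.imJ_mul, Quaternion.imK_mul,
    Matrix.mul_apply, Fin.sum_univ_three]
  fin_cases i <;> fin_cases j <;> simp <;> ring

theorem M3_one : M3 1 = 1 := by
  ext i j
  simp only [M3, Quaternion.re_one, Quaternion.imI_one, Quaternion.imJ_one, Quaternion.imK_one]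
  fin_cases i <;> fin_cases j <;> simp

theorem M3_orth (q : ℍ[ℝ]) (hq : q.re ^ 2 + q.imI ^ 2 + q.imJ ^ 2 + q.imK ^ 2 = 1) :
    (M3 q)ᵀ * M3 q = 1 := by
  have h : (M3 q)ᵀ * M3 q = (q.re ^ 2 + q.imI ^ 2 + q.imJ ^ 2 + q.imK ^ 2) ^ 2 •
      (1 : Matrix (Fin 3) (Fin 3) ℝ) := by
    ext i j
    simp only [M3, Matrix.mul_apply, Fin.sum_univ_three, Matrix.transpose_apply]
    fin_cases i <;> fin_cases j <;> simp <;> ring
  rw [h, hq]
  simp

theorem M3_det (q : ℍ[ℝ]) (hq : q.re ^ 2 + q.imI ^ 2 + q.imJ ^ 2 + q.imK ^ 2 = 1) :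
    (M3 q).det = 1 := by
  have h : (M3 q).det = (q.re ^ 2 + q.imI ^ 2 + q.imJ ^ 2 + q.imK ^ 2) ^ 3 := by
    rw [det_fin_three]
    simp only [M3]
    simp
    ring
  rw [h, hq]
  simp

/-- pure quaternions -/
def φ (v : Fin 3 → ℝ) : ℍ[ℝ] := ⟨0, v 0, v 1, v 2⟩

theorem φ_M3 (q : ℍ[ℝ]) (v : Fin 3 → ℝ) : φ (M3 q *ᵥ v) = q * φ v * star q := by
  ext <;>
  simp only [Quaternion.re_mul, Quaternion.imI_mul, Quaternion.imJ_mul, Quaternion.imK_mul,
    Quaternion.re_star, Quaternion.imI_star, Quaternion.imJ_star, Quaternion.imK_star] <;>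
  simp [φ, M3, Matrix.mulVec, dotProduct, Fin.sum_univ_three] <;> ring

theorem φ_smul (c : ℝ) (v : Fin 3 → ℝ) : φ (c • v) = c • φ v := by
  ext <;>
  simp only [Quaternion.re_smul, Quaternion.imI_smul, Quaternion.imJ_smul, Quaternion.imK_smul] <;>
  simp [φ]

theorem star_mul_unit (q : ℍ[ℝ]) (hq : q ∈ unitary ℍ[ℝ]) : star q * q = 1 :=
  (Unitary.mem_iff.1 hq).1

theorem M3_fix (q : ℍ[ℝ]) (hq : q ∈ unitary ℍ[ℝ]) (v : Fin 3 → ℝ) (c : ℝ)
    (h : M3 q *ᵥ v = c • v) : q * φ v = c • (φ v * q) := by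
  have h1 := φ_M3 q v
  rw [h, φ_smul] at h1
  have h2 := congrArg (fun x => x * q) h1
  simp only [mul_assoc] at h2
  rw [star_mul_unit q hq, mul_one, smul_mul_assoc] at h2
  exact h2.symm

theorem comm_comm (v : Fin 3 → ℝ) (hv : v ≠ 0) (q r : ℍ[ℝ]) (hq : q * φ v = φ v * q)
    (hr : r * φ v = φ v * r) : q * r = r * q := by
  have a1 := congrArg (fun x : ℍ[ℝ] => x.imI) hq
  have a2 := congrArg (fun x : ℍ[ℝ] => x.imJ) hq
  have a3 := congrArg (fun x : ℍ[ℝ] => x.imK) hq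
  have b1 := congrArg (fun x : ℍ[ℝ] => x.imI) hr
  have b2 := congrArg (fun x : ℍ[ℝ] => x.imJ) hr
  have b3 := congrArg (fun x : ℍ[ℝ] => x.imK) hr
  simp only [Quaternion.imI_mul, Quaternion.imJ_mul, Quaternion.imK_mul] at a1 a2 a3 b1 b2 b3
  simp only [φ] at a1 a2 a3 b1 b2 b3
  have c1 : q.imJ * v 2 - q.imK * v 1 = 0 := by linarith
  have c2 : q.imK * v 0 - q.imI * v 2 = 0 := by linarith
  have c3 : q.imI * v 1 - q.imJ * v 0 = 0 := by linarith
  have d1 : r.imJ * v 2 - r.imK * v 1 = 0 := by linarith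
  have d2 : r.imK * v 0 - r.imI * v 2 = 0 := by linarith
  have d3 : r.imI * v 1 - r.imJ * v 0 = 0 := by linarith
  have key : q.imJ * r.imK - q.imK * r.imJ = 0 ∧ q.imK * r.imI - q.imI * r.imK = 0 ∧
      q.imI * r.imJ - q.imJ * r.imI = 0 := by
    have : v 0 ≠ 0 ∨ v 1 ≠ 0 ∨ v 2 ≠ 0 := by
      by_contra hcon
      push Not at hcon
      apply hv
      funext i
      fin_cases i
      · exact hcon.1
      · exact hcon.2.1
      · exact hcon.2.2
    rcases this with h | h | h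
    · refine ⟨mul_right_cancel₀ h ?_, mul_right_cancel₀ h ?_, mul_right_cancel₀ h ?_⟩
      · linear_combination q.imJ * d2 - q.imK * (-d3) + r.imI * c1
      · linear_combination r.imI * c2 - q.imI * d2
      · linear_combination r.imI * c3 - q.imI * d3
    · refine ⟨mul_right_cancel₀ h ?_, mul_right_cancel₀ h ?_, mul_right_cancel₀ h ?_⟩
      · linear_combination r.imJ * c1 - q.imJ * d1
      · linear_combination q.imK * d3 - q.imI * (-d1) + r.imJ * c2
      · linear_combination r.imJ * c3 - q.imJ * d3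
    · refine ⟨mul_right_cancel₀ h ?_, mul_right_cancel₀ h ?_, mul_right_cancel₀ h ?_⟩
      · linear_combination r.imK * c1 - q.imK * d1
      · linear_combination r.imK * c2 - q.imK * d2
      · linear_combination q.imI * d1 - q.imJ * (-d2) + r.imK * c3
  obtain ⟨k1, k2, k3⟩ := key
  ext <;> simp only [Quaternion.re_mul, Quaternion.imI_mul, Quaternion.imJ_mul, Quaternion.imK_mul]
  · ring
  · linear_combination 2 * k1
  · linear_combination 2 * k2
  · linear_combination 2 * k3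

/-- the three-dimensional representation -/
noncomputable def A : F →* Matrix (Fin 3) (Fin 3) ℝ where
  toFun w := M3 (P w : unitary ℍ[ℝ])
  map_one' := by rw [map_one]; exact M3_one
  map_mul' w w' := by rw [map_mul]; exact M3_mul _ _

theorem A_good : Good (Fin 3) A := by
  refine ⟨fun w => M3_orth _ (normSq_unit _ (P w).2), fun v hv w w' h h' => ?_, fun w h => ?_⟩
  · have h1 := M3_fix _ (P w).2 v 1 (by rw [one_smul]; exact h)
    have h2 := M3_fix _ (P w').2 v 1 (by rw [one_smul]; exact h')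
    rw [one_smul] at h1 h2
    have h3 := comm_comm v hv _ _ h1 h2
    apply P_injective
    rw [map_mul, map_mul]
    exact Subtype.ext h3
  · have hn := normSq_unit _ (P w).2
    have h1 := congrFun (congrFun h 0) 0
    have h2 := congrFun (congrFun h 1) 1
    have h3 := congrFun (congrFun h 2) 2
    simp only [A, MonoidHom.coe_mk, OneHom.coe_mk, M3] at h1 h2 h3
    simp at h1 h2 h3
    apply P_real
    · nlinarith
    · nlinarith
    · nlinarith

theorem A_det (w : F) : (A w).det = 1 := M3_det _ (normSq_unit _ (P w).2)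


/-! ### the twisted three-dimensional representation -/

/-- the sign character, `-1` on the first generator and `1` on the second one -/
def χ : F →* ℤˣ := FreeGroup.lift fun i => if i = 0 then -1 else 1

/-- the twist of `A` by `χ` -/
noncomputable def T : F →* Matrix (Fin 3) (Fin 3) ℝ where
  toFun w := (((χ w : ℤˣ) : ℤ) : ℝ) • A w
  map_one' := by simp
  map_mul' w w' := by
    rw [map_mul, map_mul]
    simp only [Units.val_mul, Int.cast_mul, smul_mul_smul_comm]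

theorem χ_cases (w : F) : (((χ w : ℤˣ) : ℤ) : ℝ) = 1 ∨ (((χ w : ℤˣ) : ℤ) : ℝ) = -1 := by
  rcases Int.units_eq_one_or (χ w) with h | h
  · left; rw [h]; simp
  · right; rw [h]; simp

theorem T_fix (w : F) (v : Fin 3 → ℝ) (hv : v ≠ 0) (h : T w *ᵥ v = v) : A w *ᵥ v = v := by
  have h0 : T w *ᵥ v = (((χ w : ℤˣ) : ℤ) : ℝ) • (A w *ᵥ v) := smul_mulVec _ _ _
  rw [h0] at h
  rcases χ_cases w with h1 | h1
  · rwa [h1, one_smul] at h
  · exfalso
    rw [h1] at h
    have h2 : A w *ᵥ v = (-1 : ℝ) • v := by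
      have := congrArg (fun x => (-1 : ℝ) • x) h
      simpa [smul_smul] using this
    have h3 := M3_fix _ (P w).2 v (-1) h2
    obtain ⟨q, hq⟩ : ∃ q : ℍ[ℝ], q = (P w : unitary ℍ[ℝ]) := ⟨_, rfl⟩
    rw [← hq] at h3
    have hn : q.re ^ 2 + q.imI ^ 2 + q.imJ ^ 2 + q.imK ^ 2 = 1 := by
      rw [hq]; exact normSq_unit _ (P w).2
    have a1 := congrArg (fun x : ℍ[ℝ] => x.imI) h3
    have a2 := congrArg (fun x : ℍ[ℝ] => x.imJ) h3
    have a3 := congrArg (fun x : ℍ[ℝ] => x.imK) h3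
    simp only [Quaternion.imI_smul, Quaternion.imJ_smul, Quaternion.imK_smul,
      Quaternion.imI_mul, Quaternion.imJ_mul, Quaternion.imK_mul, smul_eq_mul] at a1 a2 a3
    simp only [φ] at a1 a2 a3
    have hre : q.re = 0 := by
      have : v 0 ≠ 0 ∨ v 1 ≠ 0 ∨ v 2 ≠ 0 := by
        by_contra hcon
        push Not at hcon
        apply hv
        funext i
        fin_cases i
        · exact hcon.1
        · exact hcon.2.1
        · exact hcon.2.2
      rcases this with h | h | h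
      · exact mul_right_cancel₀ h (by linarith)
      · exact mul_right_cancel₀ h (by linarith)
      · exact mul_right_cancel₀ h (by linarith)
    have hmul : ((P (w * w) : unitary ℍ[ℝ]) : ℍ[ℝ]) = q * q := by
      rw [map_mul, hq]; rfl
    have hww : w * w = 1 := by
      apply P_real <;> rw [hmul] <;>
      simp only [Quaternion.imI_mul, Quaternion.imJ_mul, Quaternion.imK_mul, hre] <;> ring
    rw [hww, map_one] at hmul
    have h4 := congrArg (fun x : ℍ[ℝ] => x.re) hmul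
    simp only [Quaternion.re_mul, hre] at h4
    have h5 : ((1 : unitary ℍ[ℝ]) : ℍ[ℝ]).re = 1 := rfl
    rw [h5] at h4
    rw [hre] at hn
    nlinarith

theorem T_good : Good (Fin 3) T := by
  refine ⟨fun w => ?_, fun v hv w w' h h' => ?_, fun w h => ?_⟩
  · show ((((χ w : ℤˣ) : ℤ) : ℝ) • A w)ᵀ * ((((χ w : ℤˣ) : ℤ) : ℝ) • A w) = 1
    rw [transpose_smul, smul_mul_smul_comm, A_good.orth]
    rcases χ_cases w with h | h <;> rw [h] <;> simp
  · exact A_good.lc v hv w w' (T_fix w v hv h) (T_fix w' v hv h')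
  · apply A_good.inj
    have h1 : ∀ v : Fin 3 → ℝ, v ≠ 0 → A w *ᵥ v = v := by
      intro v hv
      apply T_fix w v hv
      rw [h, one_mulVec]
    ext i j
    have h2 := h1 (Pi.single j 1) (by
      intro h0
      have := congrFun h0 j
      simp at this)
    have h3 := congrFun h2 i
    rw [mulVec_single_one] at h3
    simp only [col_apply] at h3
    rw [h3, one_apply]
    simp [Pi.single_apply]

theorem T_det (w : F) : (T w).det = (((χ w : ℤˣ) : ℤ) : ℝ) := by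
  show ((((χ w : ℤˣ) : ℤ) : ℝ) • A w).det = _
  rw [det_smul, A_det]
  rcases χ_cases w with h | h <;> rw [h] <;> norm_num

theorem A_of : A (FreeGroup.of 0) *ᵥ ![1, 0, 0] = ![1, 0, 0] := by
  show M3 (P (FreeGroup.of 0) : unitary ℍ[ℝ]) *ᵥ ![1, 0, 0] = ![1, 0, 0]
  have h1 : ((P (FreeGroup.of 0) : unitary ℍ[ℝ]) : ℍ[ℝ]) = al (0, true) := P_letter (0, true)
  have hn := normSq_unit _ (P (FreeGroup.of 0)).2
  rw [h1] at hn ⊢
  simp only [al] at hn
  have h5' : √5 * √5 = 5 := Real.mul_self_sqrt (by norm_num)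
  funext i
  fin_cases i
  · simp only [M3, Matrix.mulVec, dotProduct, Fin.sum_univ_three, al]
    simp at hn ⊢
    linarith
  · simp only [M3, Matrix.mulVec, dotProduct, Fin.sum_univ_three, al]
    simp
  · simp only [M3, Matrix.mulVec, dotProduct, Fin.sum_univ_three, al]
    simp

theorem T_neg : Neg (Fin 3) T := by
  refine ⟨![1, 0, 0], fun h => ?_, ?_⟩
  · have := congrFun h 0
    simp at this
  · show ((((χ (FreeGroup.of 0) : ℤˣ) : ℤ) : ℝ) • A (FreeGroup.of 0)) *ᵥ ![1, 0, 0] = _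
    rw [smul_mulVec, A_of]
    have : χ (FreeGroup.of 0) = -1 := by
      unfold χ
      rw [FreeGroup.lift_apply_of]
      rfl
    rw [this]
    simp

/-! ### the four-dimensional representation -/

/-- the matrix of left multiplication by `q` -/
def L4 (q : ℍ[ℝ]) : Matrix (Fin 4) (Fin 4) ℝ :=
  !![q.re, -q.imI, -q.imJ, -q.imK;
    q.imI, q.re, -q.imK, q.imJ;
    q.imJ, q.imK, q.re, -q.imI;
    q.imK, -q.imJ, q.imI, q.re]

/-- the matrix of right multiplication by the conjugate of `q` -/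
def R4 (q : ℍ[ℝ]) : Matrix (Fin 4) (Fin 4) ℝ :=
  !![q.re, q.imI, q.imJ, q.imK;
    -q.imI, q.re, -q.imK, q.imJ;
    -q.imJ, q.imK, q.re, -q.imI;
    -q.imK, -q.imJ, q.imI, q.re]

/-- quaternions as vectors -/
def ψ (v : Fin 4 → ℝ) : ℍ[ℝ] := ⟨v 0, v 1, v 2, v 3⟩

theorem ψ_injective : Function.Injective ψ := by
  intro v w h
  have h0 := congrArg (fun x : ℍ[ℝ] => x.re) h
  have h1 := congrArg (fun x : ℍ[ℝ] => x.imI) h
  have h2 := congrArg (fun x : ℍ[ℝ] => x.imJ) h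
  have h3 := congrArg (fun x : ℍ[ℝ] => x.imK) h
  funext i
  fin_cases i
  · exact h0
  · exact h1
  · exact h2
  · exact h3

theorem ψ_L4 (q : ℍ[ℝ]) (v : Fin 4 → ℝ) : ψ (L4 q *ᵥ v) = q * ψ v := by
  ext <;>
  simp only [Quaternion.re_mul, Quaternion.imI_mul, Quaternion.imJ_mul, Quaternion.imK_mul] <;>
  simp [ψ, L4, Matrix.mulVec, dotProduct, Fin.sum_univ_four] <;> ring

theorem ψ_R4 (q : ℍ[ℝ]) (v : Fin 4 → ℝ) : ψ (R4 q *ᵥ v) = ψ v * star q := by
  ext <;>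
  simp only [Quaternion.re_mul, Quaternion.imI_mul, Quaternion.imJ_mul, Quaternion.imK_mul,
    Quaternion.re_star, Quaternion.imI_star, Quaternion.imJ_star, Quaternion.imK_star] <;>
  simp [ψ, R4, Matrix.mulVec, dotProduct, Fin.sum_univ_four] <;> ring

/-- the matrix of `x ↦ q x r̄` -/
def M4 (q r : ℍ[ℝ]) : Matrix (Fin 4) (Fin 4) ℝ := L4 q * R4 r

theorem ψ_M4 (q r : ℍ[ℝ]) (v : Fin 4 → ℝ) : ψ (M4 q r *ᵥ v) = q * ψ v * star r := by
  unfold M4
  rw [← mulVec_mulVec, ψ_L4, ψ_R4, mul_assoc]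

theorem mat_ext (M N : Matrix (Fin 4) (Fin 4) ℝ) (h : ∀ v, ψ (M *ᵥ v) = ψ (N *ᵥ v)) : M = N := by
  ext i j
  have h1 := congrFun (ψ_injective (h (Pi.single j 1))) i
  rw [mulVec_single_one, mulVec_single_one] at h1
  exact h1

theorem M4_mul (q r q' r' : ℍ[ℝ]) : M4 (q * q') (r * r') = M4 q r * M4 q' r' := by
  apply mat_ext
  intro v
  rw [← mulVec_mulVec, ψ_M4, ψ_M4, ψ_M4, star_mul]
  simp only [mul_assoc]

theorem M4_one : M4 1 1 = 1 := by
  apply mat_ext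
  intro v
  rw [ψ_M4, one_mulVec]
  simp

theorem L4_orth (q : ℍ[ℝ]) (hq : q.re ^ 2 + q.imI ^ 2 + q.imJ ^ 2 + q.imK ^ 2 = 1) :
    (L4 q)ᵀ * L4 q = 1 := by
  have h : (L4 q)ᵀ * L4 q = (q.re ^ 2 + q.imI ^ 2 + q.imJ ^ 2 + q.imK ^ 2) •
      (1 : Matrix (Fin 4) (Fin 4) ℝ) := by
    ext i j
    simp only [L4, Matrix.mul_apply, Fin.sum_univ_four, Matrix.transpose_apply]
    fin_cases i <;> fin_cases j <;> simp <;> ring
  rw [h, hq]
  simp

theorem R4_orth (q : ℍ[ℝ]) (hq : q.re ^ 2 + q.imI ^ 2 + q.imJ ^ 2 + q.imK ^ 2 = 1) :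
    (R4 q)ᵀ * R4 q = 1 := by
  have h : (R4 q)ᵀ * R4 q = (q.re ^ 2 + q.imI ^ 2 + q.imJ ^ 2 + q.imK ^ 2) •
      (1 : Matrix (Fin 4) (Fin 4) ℝ) := by
    ext i j
    simp only [R4, Matrix.mul_apply, Fin.sum_univ_four, Matrix.transpose_apply]
    fin_cases i <;> fin_cases j <;> simp <;> ring
  rw [h, hq]
  simp

theorem L4_det (q : ℍ[ℝ]) (hq : q.re ^ 2 + q.imI ^ 2 + q.imJ ^ 2 + q.imK ^ 2 = 1) :
    (L4 q).det = 1 := by
  have h : (L4 q).det = (q.re ^ 2 + q.imI ^ 2 + q.imJ ^ 2 + q.imK ^ 2) ^ 2 := by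
    rw [det_succ_row_zero]
    simp only [Fin.sum_univ_four, det_fin_three, submatrix_apply, L4]
    simp [Fin.succAbove]
    ring
  rw [h, hq]
  simp

theorem R4_det (q : ℍ[ℝ]) (hq : q.re ^ 2 + q.imI ^ 2 + q.imJ ^ 2 + q.imK ^ 2 = 1) :
    (R4 q).det = 1 := by
  have h : (R4 q).det = (q.re ^ 2 + q.imI ^ 2 + q.imJ ^ 2 + q.imK ^ 2) ^ 2 := by
    rw [det_succ_row_zero]
    simp only [Fin.sum_univ_four, det_fin_three, submatrix_apply, R4]
    simp [Fin.succAbove]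
    ring
  rw [h, hq]
  simp


theorem M4_orth (q r : ℍ[ℝ]) (hq : q.re ^ 2 + q.imI ^ 2 + q.imJ ^ 2 + q.imK ^ 2 = 1)
    (hr : r.re ^ 2 + r.imI ^ 2 + r.imJ ^ 2 + r.imK ^ 2 = 1) : (M4 q r)ᵀ * M4 q r = 1 := by
  unfold M4
  rw [transpose_mul, mul_assoc, ← mul_assoc (L4 q)ᵀ, L4_orth q hq, one_mul, R4_orth r hr]

theorem M4_det (q r : ℍ[ℝ]) (hq : q.re ^ 2 + q.imI ^ 2 + q.imJ ^ 2 + q.imK ^ 2 = 1)
    (hr : r.re ^ 2 + r.imI ^ 2 + r.imJ ^ 2 + r.imK ^ 2 = 1) : (M4 q r).det = 1 := by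
  unfold M4
  rw [det_mul, L4_det q hq, R4_det r hr, one_mul]

/-- the unit quaternion `-(1 + 2i)/√5` -/
noncomputable def z : unitary ℍ[ℝ] := ⟨-al (0, true), by
  have := al_mem 0
  rw [Unitary.mem_iff] at this ⊢
  simpa using this⟩

/-- a homomorphism to the cyclic group generated by `z` -/
noncomputable def Q : F →* unitary ℍ[ℝ] := FreeGroup.lift fun i => if i = 0 then z else 1

theorem Q_mem (w : F) : Q w ∈ Subgroup.zpowers z := by
  have h : Q.range ≤ Subgroup.zpowers z := by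
    unfold Q
    apply FreeGroup.range_lift_le
    rintro _ ⟨i, rfl⟩
    show (if i = 0 then z else 1) ∈ Subgroup.zpowers z
    split_ifs
    · exact Subgroup.mem_zpowers z
    · exact Subgroup.one_mem _
  exact h ⟨w, rfl⟩

theorem Q_comm (w w' : F) : Q w * Q w' = Q w' * Q w := by
  obtain ⟨m, hm⟩ := Q_mem w
  obtain ⟨n, hn⟩ := Q_mem w'
  simp only at hm hn
  rw [← hm, ← hn, ← _root_.zpow_add, ← _root_.zpow_add, add_comm]

/-- the four-dimensional representation -/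
noncomputable def E : F →* Matrix (Fin 4) (Fin 4) ℝ where
  toFun w := M4 (P w : unitary ℍ[ℝ]) (Q w : unitary ℍ[ℝ])
  map_one' := by rw [map_one, map_one]; exact M4_one
  map_mul' w w' := by rw [map_mul, map_mul]; exact M4_mul _ _ _ _

theorem E_fix (w : F) (v : Fin 4 → ℝ) (h : E w *ᵥ v = v) :
    ((P w : unitary ℍ[ℝ]) : ℍ[ℝ]) * ψ v = ψ v * (Q w : unitary ℍ[ℝ]) := by
  have h1 : ψ (E w *ᵥ v) = _ := ψ_M4 _ _ v
  rw [h] at h1
  have h2 := congrArg (fun x => x * ((Q w : unitary ℍ[ℝ]) : ℍ[ℝ])) h1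
  simp only [mul_assoc] at h2
  rw [star_mul_unit _ (Q w).2, mul_one] at h2
  exact h2.symm

theorem E_good : Good (Fin 4) E := by
  have lc : ∀ v : Fin 4 → ℝ, v ≠ 0 → ∀ w w', E w *ᵥ v = v → E w' *ᵥ v = v →
      w * w' = w' * w := by
    intro v hv w w' h h'
    have h1 := E_fix w v h
    have h2 := E_fix w' v h'
    have hψ : ψ v ≠ 0 := by
      intro h0
      apply hv
      apply ψ_injective
      rw [h0]
      rfl
    apply P_injective
    rw [map_mul, map_mul]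
    apply Subtype.ext
    have h3 : (((P w : unitary ℍ[ℝ]) : ℍ[ℝ]) * (P w' : unitary ℍ[ℝ])) * ψ v =
        (((P w' : unitary ℍ[ℝ]) : ℍ[ℝ]) * (P w : unitary ℍ[ℝ])) * ψ v := by
      have h4 : ((Q w : unitary ℍ[ℝ]) : ℍ[ℝ]) * (Q w' : unitary ℍ[ℝ]) =
          (Q w' : unitary ℍ[ℝ]) * (Q w : unitary ℍ[ℝ]) := congrArg Subtype.val (Q_comm w w')
      rw [mul_assoc, h2, ← mul_assoc, h1, mul_assoc, mul_assoc, h1, ← mul_assoc _ (ψ v), h2,
        mul_assoc, h4]
    exact mul_right_cancel₀ hψ h3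
  refine ⟨fun w => M4_orth _ _ (normSq_unit _ (P w).2) (normSq_unit _ (Q w).2), lc, fun w h => ?_⟩
  -- an element acting trivially commutes with everything that fixes a vector
  have h1 : ((P w : unitary ℍ[ℝ]) : ℍ[ℝ]) * ψ (Pi.single 0 1) =
      ψ (Pi.single 0 1) * (Q w : unitary ℍ[ℝ]) := E_fix w _ (by rw [h, one_mulVec])
  have h2 : ((P w : unitary ℍ[ℝ]) : ℍ[ℝ]) * ψ (Pi.single 1 1) =
      ψ (Pi.single 1 1) * (Q w : unitary ℍ[ℝ]) := E_fix w _ (by rw [h, one_mulVec])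
  have h3 : ((P w : unitary ℍ[ℝ]) : ℍ[ℝ]) * ψ (Pi.single 2 1) =
      ψ (Pi.single 2 1) * (Q w : unitary ℍ[ℝ]) := E_fix w _ (by rw [h, one_mulVec])
  obtain ⟨p, hp⟩ : ∃ q : ℍ[ℝ], q = (P w : unitary ℍ[ℝ]) := ⟨_, rfl⟩
  obtain ⟨q, hq⟩ : ∃ q : ℍ[ℝ], q = (Q w : unitary ℍ[ℝ]) := ⟨_, rfl⟩
  rw [← hp, ← hq] at h1 h2 h3
  have e1 := congrArg (fun x : ℍ[ℝ] => (x.re, x.imI, x.imJ, x.imK)) h1
  have e2 := congrArg (fun x : ℍ[ℝ] => (x.re, x.imI, x.imJ, x.imK)) h2
  have e3 := congrArg (fun x : ℍ[ℝ] => (x.re, x.imI, x.imJ, x.imK)) h3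
  simp only [Quaternion.re_mul, Quaternion.imI_mul, Quaternion.imJ_mul, Quaternion.imK_mul,
    Prod.mk.injEq] at e1 e2 e3
  simp only [ψ] at e1 e2 e3
  simp at e1 e2 e3
  apply P_real <;> rw [← hp]
  · linarith [e1.1, e1.2.1, e1.2.2.1, e1.2.2.2, e2.1, e2.2.1, e2.2.2.1, e2.2.2.2, e3.1, e3.2.1,
      e3.2.2.1, e3.2.2.2]
  · linarith [e1.1, e1.2.1, e1.2.2.1, e1.2.2.2, e2.1, e2.2.1, e2.2.2.1, e2.2.2.2, e3.1, e3.2.1,
      e3.2.2.1, e3.2.2.2]
  · linarith [e1.1, e1.2.1, e1.2.2.1, e1.2.2.2, e2.1, e2.2.1, e2.2.2.1, e2.2.2.2, e3.1, e3.2.1,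
      e3.2.2.1, e3.2.2.2]

theorem E_det (w : F) : (E w).det = 1 :=
  M4_det _ _ (normSq_unit _ (P w).2) (normSq_unit _ (Q w).2)

theorem E_neg : Neg (Fin 4) E := by
  refine ⟨Pi.single 0 1, fun h => ?_, ?_⟩
  · have := congrFun h 0
    simp at this
  · apply ψ_injective
    have h1 : ψ (E (FreeGroup.of 0) *ᵥ (Pi.single 0 1)) = _ := ψ_M4 _ _ _
    rw [h1]
    have h2 : ((P (FreeGroup.of 0) : unitary ℍ[ℝ]) : ℍ[ℝ]) = al (0, true) := P_letter (0, true)
    have h3 : Q (FreeGroup.of 0) = z := by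
      unfold Q
      rw [FreeGroup.lift_apply_of]
      simp
    have h4 : ψ (Pi.single 0 1) = 1 := by
      ext <;> simp [ψ]
    have h5 : ψ (-(Pi.single 0 1)) = -1 := by
      ext <;> simp [ψ]
    rw [h2, h3, h4, h5]
    show al (0, true) * 1 * star (-al (0, true)) = -1
    rw [mul_one, star_neg, mul_neg, al_star]
    rw [al_mul 0 true]

/-! ### all dimensions -/

/-- the statement in dimension `n`, for matrices indexed by any finite type with `n` elements -/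
def Ex (n : ℕ) : Prop :=
  ∃ (ι : Type) (_ : Fintype ι) (_ : DecidableEq ι) (ρ : F →* Matrix ι ι ℝ), Fintype.card ι = n ∧
    Good ι ρ ∧ Neg ι ρ ∧ ∀ w, (ρ w).det = 1

theorem ex_four : Ex 4 := ⟨Fin 4, inferInstance, inferInstance, E, rfl, E_good, E_neg, E_det⟩

theorem ex_six : Ex 6 := by
  refine ⟨Fin 3 ⊕ Fin 3, inferInstance, inferInstance, ds T T, rfl, ds_good _ _ T_good T_good,
    ds_neg _ _ T_neg, fun w => ?_⟩
  rw [ds_det, T_det]
  rcases χ_cases w with h | h <;> rw [h] <;> norm_num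

theorem ex_eight : Ex 8 :=
  ⟨Fin 4 ⊕ Fin 4, inferInstance, inferInstance, ds E E, rfl, ds_good _ _ E_good E_good,
    ds_neg _ _ E_neg, fun w => by rw [ds_det, E_det, one_mul]⟩

theorem ex_add (n : ℕ) (h : Ex n) : Ex (n + 3) := by
  obtain ⟨ι, _, _, ρ, h1, h2, h3, h4⟩ := h
  refine ⟨ι ⊕ Fin 3, inferInstance, inferInstance, ds ρ A, by simp [h1], ds_good _ _ h2 A_good,
    ds_neg _ _ h3, fun w => by rw [ds_det, A_det, h4, one_mul]⟩

theorem ex_all (n : ℕ) : Ex (n + 6) := by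
  induction n using Nat.strong_induction_on with
  | _ n ih =>
    match n with
    | 0 => exact ex_six
    | 1 => exact ex_add 4 ex_four
    | 2 => exact ex_eight
    | n + 3 => exact ex_add (n + 6) (ih n (by omega))

end Pool.Agent.X269.Rot
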