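import Mathlib

set_option autoImplicit false

/-!
General lemmas: induction of integral coset equivalence to an overgroup, the regular permutation
embedding makes subgroups core-free, and an invariant of groups (existence of a conjugacy class
with exactly two elements) for subgroups of a permutational wreath product.
-/

namespace Pool.Agent.X269.CoreFree

open Equiv

/-! ### core-free subgroups -/

theorem coreFree_perm {H : Type*} [Group H] [Finite H] (h5 : 5 ≤ Nat.card H) (K : Subgroup H)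
    (N : Subgroup (Perm H)) (hn : N.Normal) (hN : N ≤ K.map (MulAction.toPermHom H H)) :
    N = ⊥ := by
  classical
  have := Fintype.ofFinite H
  rw [eq_bot_iff]
  intro n hnN
  rw [Subgroup.mem_bot]
  by_contra hne
  obtain ⟨k, hk, hkn⟩ := hN hnN
  have happ : ∀ z, n z = k * z := by
    intro z; rw [← hkn]; rfl
  have happ' : ∀ z, n⁻¹ z = k⁻¹ * z := by
    intro z; rw [Perm.inv_eq_iff_eq, happ]; group
  have hk1 : k ≠ 1 := by
    rintro rfl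
    apply hne
    ext z
    rw [happ]; simp
  have hcard : 5 ≤ Fintype.card H := by rwa [← Nat.card_eq_fintype_card]
  obtain ⟨b, hb⟩ : ∃ b : H, b ∉ ({1, k} : Finset H) := by
    by_contra hcon
    push Not at hcon
    have h1 : (Finset.univ : Finset H) ⊆ {1, k} := fun z _ => hcon z
    have h2 := Finset.card_le_card h1
    have h3 : ({1, k} : Finset H).card ≤ 2 := Finset.card_le_two
    rw [Finset.card_univ] at h2
    omega
  obtain ⟨z, hz⟩ : ∃ z : H, z ∉ ({1, b, k, k * b} : Finset H) := by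
    by_contra hcon
    push Not at hcon
    have h1 : (Finset.univ : Finset H) ⊆ {1, b, k, k * b} := fun z _ => hcon z
    have h2 := Finset.card_le_card h1
    have h3 : ({1, b, k, k * b} : Finset H).card ≤ 4 := Finset.card_le_four
    rw [Finset.card_univ] at h2
    omega
  simp only [Finset.mem_insert, Finset.mem_singleton, not_or] at hb hz
  obtain ⟨hb1, hb2⟩ := hb
  obtain ⟨hz1, hz2, hz3, hz4⟩ := hz
  have hm : n * (swap 1 b * n⁻¹ * (swap 1 b)⁻¹) ∈ N :=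
    N.mul_mem hnN (hn.conj_mem _ (N.inv_mem hnN) _)
  obtain ⟨k', hk', hk'n⟩ := hN hm
  have happ2 : ∀ y, (n * (swap 1 b * n⁻¹ * (swap 1 b)⁻¹)) y = k' * y := by
    intro y; rw [← hk'n]; rfl
  have hfix : (n * (swap 1 b * n⁻¹ * (swap 1 b)⁻¹)) z = z := by
    simp only [Perm.mul_apply, swap_inv]
    rw [swap_apply_of_ne_of_ne hz1 hz2, happ', swap_apply_of_ne_of_ne, happ]
    · group
    · intro h
      apply hz3
      rw [inv_mul_eq_one] at h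
      exact h.symm
    · intro h
      apply hz4
      rw [← h]; group
  have hk'1 : k' = 1 := by
    have := happ2 z
    rw [hfix] at this
    exact (mul_eq_right.1 this.symm)
  have h1 := happ2 k
  rw [hk'1, one_mul] at h1
  simp only [Perm.mul_apply, swap_inv] at h1
  rw [swap_apply_of_ne_of_ne hk1 (fun h => hb2 h.symm), happ', inv_mul_cancel,
    swap_apply_left, happ] at h1
  exact hb1 (mul_eq_left.1 h1)

/-! ### induction of coset equivalence -/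

section Induction

variable {Γ : Type*} [Group Γ]

/-- the action of `Γ` on the integral permutation module `ℤ[Γ/K]`, that is, on the free abelian
group on the left cosets of `K`, by left multiplication -/
noncomputable def cosetRep (K : Subgroup Γ) : Representation ℤ Γ ((Γ ⧸ K) →₀ ℤ) where
  toFun g := Finsupp.lmapDomain ℤ ℤ (fun q : Γ ⧸ K => g • q)
  map_one' := by
    ext1 q
    ext1
    simp
  map_mul' g h := by
    ext1 q
    ext1
    simp [mul_smul]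

/-- `K₁` and `K₂` are `ℤ`-coset equivalent: the modules `ℤ[Γ/K₁]` and `ℤ[Γ/K₂]` are isomorphic -/
def CosetEquivalent (K₁ K₂ : Subgroup Γ) : Prop :=
  ∃ e : ((Γ ⧸ K₁) →₀ ℤ) ≃ₗ[ℤ] ((Γ ⧸ K₂) →₀ ℤ),
    ∀ (g : Γ) (v : (Γ ⧸ K₁) →₀ ℤ), e (cosetRep K₁ g v) = cosetRep K₂ g (e v)

theorem cosetRep_single (K : Subgroup Γ) (g : Γ) (q : Γ ⧸ K) (r : ℤ) :
    cosetRep K g (Finsupp.single q r) = Finsupp.single (g • q) r :=
  Finsupp.mapDomain_single

/-- the map out of a permutation module given by an invariant vector -/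
theorem exists_lift {M : Type*} [AddCommGroup M] (ρ : Representation ℤ Γ M) (K : Subgroup Γ)
    (v : M) (hv : ∀ k ∈ K, ρ k v = v) :
    ∃ L : ((Γ ⧸ K) →₀ ℤ) →ₗ[ℤ] M,
      (∀ (g : Γ) w, L (cosetRep K g w) = ρ g (L w)) ∧
      ∀ g : Γ, L (Finsupp.single (g : Γ ⧸ K) 1) = ρ g v := by
  have hwd : ∀ g : Γ, ρ (Quotient.out (g : Γ ⧸ K)) v = ρ g v := by
    intro g
    obtain ⟨k, hk⟩ := QuotientGroup.mk_out_eq_mul K g
    have : (Quotient.out (g : Γ ⧸ K)) = g * k := hk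
    rw [this, map_mul, Module.End.mul_apply, hv _ k.2]
  have hs : ∀ g : Γ, Finsupp.linearCombination ℤ (fun q : Γ ⧸ K => ρ (Quotient.out q) v)
      (Finsupp.single (g : Γ ⧸ K) 1) = ρ g v := by
    intro g
    rw [Finsupp.linearCombination_single, one_smul, hwd]
  refine ⟨Finsupp.linearCombination ℤ (fun q : Γ ⧸ K => ρ (Quotient.out q) v), ?_, hs⟩
  intro g w
  induction w using Finsupp.induction_linear with
  | zero => simp
  | add f h hf hh => simp only [map_add, hf, hh]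
  | single q r =>
    obtain ⟨γ, rfl⟩ := QuotientGroup.mk_surjective q
    have e1 : Finsupp.single (γ : Γ ⧸ K) r = r • Finsupp.single (γ : Γ ⧸ K) (1 : ℤ) := by
      simp
    rw [e1]
    simp only [map_smul]
    rw [cosetRep_single, hs]
    have : g • (γ : Γ ⧸ K) = ((g * γ : Γ) : Γ ⧸ K) := rfl
    rw [this, hs, map_mul]
    rfl

variable {H : Type*} [Group H] {X Y : Type*}

/-- the stabiliser of a point -/
def st (ρ : H →* Perm X) (x₀ : X) : Subgroup H :=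
  (MulAction.stabilizer (Perm X) x₀).comap ρ

theorem mem_st (ρ : H →* Perm X) (x₀ : X) (h : H) : h ∈ st ρ x₀ ↔ ρ h x₀ = x₀ := Iff.rfl

/-- the embedding of `X` into the cosets -/
noncomputable def emb (ρ : H →* Perm X) (x₀ : X) (tr : ∀ x, ∃ h, ρ h x₀ = x) (j : H →* Γ) (x : X) :
    Γ ⧸ (st ρ x₀).map j := (j (tr x).choose : Γ)

theorem emb_eq (ρ : H →* Perm X) (x₀ : X) (tr : ∀ x, ∃ h, ρ h x₀ = x) (j : H →* Γ) (x : X)
    (h : H) (hx : ρ h x₀ = x) : emb ρ x₀ tr j x = ((j h : Γ) : Γ ⧸ (st ρ x₀).map j) := by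
  unfold emb
  rw [QuotientGroup.eq]
  refine ⟨(tr x).choose⁻¹ * h, ?_, by simp⟩
  show ρ _ x₀ = x₀
  rw [map_mul, map_inv, Perm.mul_apply, hx, Perm.inv_eq_iff_eq, (tr x).choose_spec]

theorem smul_emb (ρ : H →* Perm X) (x₀ : X) (tr : ∀ x, ∃ h, ρ h x₀ = x) (j : H →* Γ) (x : X)
    (h : H) : j h • emb ρ x₀ tr j x = emb ρ x₀ tr j (ρ h x) := by
  obtain ⟨a, ha⟩ := tr x
  rw [emb_eq ρ x₀ tr j x a ha, emb_eq ρ x₀ tr j (ρ h x) (h * a)
    (by rw [map_mul, Perm.mul_apply, ha]), map_mul]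
  rfl

theorem half [Fintype X] [Fintype Y] (ρ₁ : H →* Perm X) (ρ₂ : H →* Perm Y) (x₀ : X) (y₀ : Y)
    (tr₁ : ∀ x, ∃ h, ρ₁ h x₀ = x) (tr₂ : ∀ y, ∃ h, ρ₂ h y₀ = y) (j : H →* Γ)
    (t : X → Y → ℤ) (ht : ∀ h x y, t (ρ₁ h x) (ρ₂ h y) = t x y) :
    ∃ L : ((Γ ⧸ (st ρ₁ x₀).map j) →₀ ℤ) →ₗ[ℤ] ((Γ ⧸ (st ρ₂ y₀).map j) →₀ ℤ),
      (∀ (g : Γ) w, L (cosetRep _ g w) = cosetRep _ g (L w)) ∧
      ∀ x, L (Finsupp.single (emb ρ₁ x₀ tr₁ j x) 1) =
        ∑ y, Finsupp.single (emb ρ₂ y₀ tr₂ j y) (t x y) := by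
  have key : ∀ (h : H) (x : X), cosetRep ((st ρ₂ y₀).map j) (j h)
      (∑ y, Finsupp.single (emb ρ₂ y₀ tr₂ j y) (t x y)) =
      ∑ y, Finsupp.single (emb ρ₂ y₀ tr₂ j y) (t (ρ₁ h x) y) := by
    intro h x
    rw [map_sum]
    rw [← Equiv.sum_comp (ρ₂ h) (fun y => Finsupp.single (emb ρ₂ y₀ tr₂ j y) (t (ρ₁ h x) y))]
    refine Finset.sum_congr rfl fun y _ => ?_
    rw [cosetRep_single, smul_emb, ht]
  obtain ⟨L, h1, h2⟩ := exists_lift (cosetRep ((st ρ₂ y₀).map j)) ((st ρ₁ x₀).map j)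
    (∑ y, Finsupp.single (emb ρ₂ y₀ tr₂ j y) (t x₀ y)) (by
      rintro _ ⟨k, hk, rfl⟩
      rw [key k x₀]
      have : ρ₁ k x₀ = x₀ := hk
      rw [this])
  refine ⟨L, h1, fun x => ?_⟩
  obtain ⟨a, ha⟩ := tr₁ x
  rw [emb_eq ρ₁ x₀ tr₁ j x a ha, h2, key, ha]

theorem comp_eq_id [Fintype X] [Fintype Y] [DecidableEq X]
    (ρ₁ : H →* Perm X) (ρ₂ : H →* Perm Y) (x₀ : X) (y₀ : Y)
    (tr₁ : ∀ x, ∃ h, ρ₁ h x₀ = x) (tr₂ : ∀ y, ∃ h, ρ₂ h y₀ = y) (j : H →* Γ)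
    (t : X → Y → ℤ) (s : Y → X → ℤ)
    (hts : ∀ x, ∑ y, t x₀ y * s y x = if x = x₀ then 1 else 0)
    (L : ((Γ ⧸ (st ρ₁ x₀).map j) →₀ ℤ) →ₗ[ℤ] ((Γ ⧸ (st ρ₂ y₀).map j) →₀ ℤ))
    (R : ((Γ ⧸ (st ρ₂ y₀).map j) →₀ ℤ) →ₗ[ℤ] ((Γ ⧸ (st ρ₁ x₀).map j) →₀ ℤ))
    (hL1 : ∀ (g : Γ) w, L (cosetRep _ g w) = cosetRep _ g (L w))
    (hR1 : ∀ (g : Γ) w, R (cosetRep _ g w) = cosetRep _ g (R w))
    (hL2 : ∀ x, L (Finsupp.single (emb ρ₁ x₀ tr₁ j x) 1) =
      ∑ y, Finsupp.single (emb ρ₂ y₀ tr₂ j y) (t x y))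
    (hR2 : ∀ y, R (Finsupp.single (emb ρ₂ y₀ tr₂ j y) 1) =
      ∑ x, Finsupp.single (emb ρ₁ x₀ tr₁ j x) (s y x)) (w) : R (L w) = w := by
  have h0 : R (L (Finsupp.single (emb ρ₁ x₀ tr₁ j x₀) 1)) =
      Finsupp.single (emb ρ₁ x₀ tr₁ j x₀) 1 := by
    rw [hL2, map_sum]
    have h3 : ∀ y, R (Finsupp.single (emb ρ₂ y₀ tr₂ j y) (t x₀ y)) =
        ∑ x, Finsupp.single (emb ρ₁ x₀ tr₁ j x) (t x₀ y * s y x) := by
      intro y
      have e1 : Finsupp.single (emb ρ₂ y₀ tr₂ j y) (t x₀ y) =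
        t x₀ y • Finsupp.single (emb ρ₂ y₀ tr₂ j y) (1 : ℤ) := by simp
      rw [e1, map_smul, hR2, Finset.smul_sum]
      simp
    rw [Finset.sum_congr rfl fun y _ => h3 y, Finset.sum_comm]
    have h4 : ∀ x, ∑ y, Finsupp.single (emb ρ₁ x₀ tr₁ j x) (t x₀ y * s y x) =
        Finsupp.single (emb ρ₁ x₀ tr₁ j x) (if x = x₀ then 1 else 0) := by
      intro x
      rw [← hts x, ← Finsupp.single_finsetSum]
    rw [Finset.sum_congr rfl fun x _ => h4 x, Finset.sum_eq_single x₀]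
    · rw [if_pos rfl]
    · intro b _ hb
      rw [if_neg hb, Finsupp.single_zero]
    · intro h
      exact absurd (Finset.mem_univ _) h
  have h1 : emb ρ₁ x₀ tr₁ j x₀ = ((1 : Γ) : Γ ⧸ (st ρ₁ x₀).map j) := by
    rw [emb_eq ρ₁ x₀ tr₁ j x₀ 1 (by simp), map_one]
  rw [h1] at h0
  induction w using Finsupp.induction_linear with
  | zero => simp
  | add f h hf hh => simp only [map_add, hf, hh]
  | single q r =>
    obtain ⟨γ, rfl⟩ := QuotientGroup.mk_surjective q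
    have h2 : Finsupp.single ((γ : Γ) : Γ ⧸ (st ρ₁ x₀).map j) (r : ℤ) =
        r • cosetRep _ γ (Finsupp.single ((1 : Γ) : Γ ⧸ (st ρ₁ x₀).map j) 1) := by
      rw [cosetRep_single]
      have : γ • ((1 : Γ) : Γ ⧸ (st ρ₁ x₀).map j) = ((γ * 1 : Γ) : Γ ⧸ (st ρ₁ x₀).map j) := rfl
      rw [this, mul_one]
      simp
    rw [h2, map_smul, map_smul, hL1, hR1, h0]

/-- coset equivalence is inherited by overgroups -/
theorem cosetEquivalent_of_matrix [Fintype X] [Fintype Y] [DecidableEq X] [DecidableEq Y]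
    (ρ₁ : H →* Perm X) (ρ₂ : H →* Perm Y) (x₀ : X) (y₀ : Y)
    (tr₁ : ∀ x, ∃ h, ρ₁ h x₀ = x) (tr₂ : ∀ y, ∃ h, ρ₂ h y₀ = y) (j : H →* Γ)
    (t : X → Y → ℤ) (ht : ∀ h x y, t (ρ₁ h x) (ρ₂ h y) = t x y)
    (s : Y → X → ℤ) (hs : ∀ h y x, s (ρ₂ h y) (ρ₁ h x) = s y x)
    (hts : ∀ x, ∑ y, t x₀ y * s y x = if x = x₀ then 1 else 0)
    (hst : ∀ y, ∑ x, s y₀ x * t x y = if y = y₀ then 1 else 0) :
    CosetEquivalent ((st ρ₁ x₀).map j) ((st ρ₂ y₀).map j) := by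
  obtain ⟨L, hL1, hL2⟩ := half ρ₁ ρ₂ x₀ y₀ tr₁ tr₂ j t ht
  obtain ⟨R, hR1, hR2⟩ := half ρ₂ ρ₁ y₀ x₀ tr₂ tr₁ j s hs
  have e1 := comp_eq_id ρ₁ ρ₂ x₀ y₀ tr₁ tr₂ j t s hts L R hL1 hR1 hL2 hR2
  have e2 := comp_eq_id ρ₂ ρ₁ y₀ x₀ tr₂ tr₁ j s t hst R L hR1 hL1 hR2 hL2
  exact ⟨LinearEquiv.ofLinearMap L R (LinearMap.ext e2) (LinearMap.ext e1), fun g v => hL1 g v⟩

end Induction

end Pool.Agent.X269.CoreFree
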