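import Mathlib

set_option autoImplicit false

/-!
Conjugacy classes with exactly two elements in permutational wreath products with `S₃`.
-/

namespace Pool.Agent.X269.TwoClass

open Equiv

/-- the group has a conjugacy class with exactly two elements -/
def HasTwoClass (K : Type*) [Group K] : Prop :=
  ∃ a b : K, a ≠ b ∧ IsConj a b ∧ ∀ c, IsConj a c → c = a ∨ c = b

theorem HasTwoClass.congr {K L : Type*} [Group K] [Group L] (e : K ≃* L) (h : HasTwoClass K) :
    HasTwoClass L := by
  obtain ⟨a, b, hab, h1, h2⟩ := h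
  refine ⟨e a, e b, e.injective.ne hab, ?_, ?_⟩
  · exact (MonoidHom.map_isConj e.toMonoidHom h1)
  · intro c hc
    have h3 : IsConj a (e.symm c) := by
      have := MonoidHom.map_isConj e.symm.toMonoidHom hc
      simpa using this
    rcases h2 _ h3 with h | h
    · left; rw [← h]; simp
    · right; rw [← h]; simp

/-- the symmetric group `S₃` -/
abbrev A : Type := Perm (Fin 3)

theorem A_conj : ∀ p : A, p * c[0, 1, 2] * p⁻¹ = c[0, 1, 2] ∨
    p * c[0, 1, 2] * p⁻¹ = (c[0, 1, 2])⁻¹ := by decide

theorem A_conj' : ∃ p : A, p * c[0, 1, 2] * p⁻¹ = (c[0, 1, 2])⁻¹ := by decide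

theorem A_ne : (c[0, 1, 2] : A) ≠ (c[0, 1, 2])⁻¹ := by decide

theorem A_center : ∀ f : A, f ≠ 1 → ∃ p : A, p * f * p⁻¹ ≠ f := by decide

theorem A_three : ∃ p q : A, p ≠ 1 ∧ q ≠ 1 ∧ p ≠ q := by decide

variable {X : Type*} [DecidableEq X] {G : Type*} [Group G]

/-- the action on the base group -/
def phi (π : G →* Perm X) : G →* MulAut (X → A) :=
  (mulAutArrow (G := Perm X) (A := X) (M := A)).comp π

omit [DecidableEq X] in
theorem phi_apply (π : G →* Perm X) (g : G) (u : X → A) (x : X) :
    phi π g u x = u ((π g)⁻¹ x) := rfl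

/-- the permutational wreath product -/
abbrev W (π : G →* Perm X) : Type _ := (X → A) ⋊[phi π] G

/-- preimages of subgroups of `G` -/
def pre (π : G →* Perm X) (S : Subgroup G) : Subgroup (W π) :=
  S.comap SemidirectProduct.rightHom

omit [DecidableEq X] in
theorem mem_pre (π : G →* Perm X) (S : Subgroup G) (w : W π) : w ∈ pre π S ↔ w.right ∈ S :=
  Iff.rfl

theorem hasTwoClass_of_fix (π : G →* Perm X) (S : Subgroup G) (x₀ : X)
    (hS : ∀ g ∈ S, π g x₀ = x₀) : HasTwoClass (pre π S) := by
  have hmem : ∀ u : X → A, (SemidirectProduct.inl u : W π) ∈ pre π S := by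
    intro u
    rw [mem_pre]
    exact S.one_mem
  have hms : ∀ (u : X → A) (g : G) (_ : g ∈ S) (σ : A),
      (⟨u, g⟩ : W π) * SemidirectProduct.inl (Pi.mulSingle x₀ σ) * (⟨u, g⟩ : W π)⁻¹ =
      SemidirectProduct.inl (Pi.mulSingle x₀ (u x₀ * σ * (u x₀)⁻¹)) := by
    intro u g hg σ
    have hinv : (π g)⁻¹ x₀ = x₀ := by rw [Perm.inv_eq_iff_eq, hS g hg]
    rw [mul_inv_eq_iff_eq_mul]
    ext1
    · ext1 x
      simp only [SemidirectProduct.mul_left, SemidirectProduct.left_inl,
        SemidirectProduct.right_inl, Pi.mul_apply, phi_apply, map_one]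
      by_cases hx : x = x₀
      · subst hx
        rw [hinv, Pi.mulSingle_eq_same, Pi.mulSingle_eq_same]
        simp
      · have : (π g)⁻¹ x ≠ x₀ := by
          intro h
          apply hx
          rw [Perm.inv_eq_iff_eq] at h
          rw [h, hS g hg]
        rw [Pi.mulSingle_eq_of_ne this, Pi.mulSingle_eq_of_ne hx]
        simp
    · simp
  refine ⟨⟨SemidirectProduct.inl (Pi.mulSingle x₀ c[0, 1, 2]), hmem _⟩,
    ⟨SemidirectProduct.inl (Pi.mulSingle x₀ (c[0, 1, 2])⁻¹), hmem _⟩, ?_, ?_, ?_⟩
  · intro h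
    have h1 := SemidirectProduct.inl_injective (congrArg Subtype.val h)
    have h2 := congrFun h1 x₀
    rw [Pi.mulSingle_eq_same, Pi.mulSingle_eq_same] at h2
    exact A_ne h2
  · obtain ⟨p, hp⟩ := A_conj'
    rw [isConj_iff]
    refine ⟨⟨SemidirectProduct.inl (Pi.mulSingle x₀ p), hmem _⟩, ?_⟩
    apply Subtype.ext
    have := hms (Pi.mulSingle x₀ p) 1 S.one_mem c[0, 1, 2]
    rw [Pi.mulSingle_eq_same, hp] at this
    exact this
  · intro c hc
    rw [isConj_iff] at hc
    obtain ⟨⟨⟨u, g⟩, hg⟩, rfl⟩ := hc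
    have := hms u g hg c[0, 1, 2]
    rcases A_conj (u x₀) with h | h
    · left
      apply Subtype.ext
      rw [h] at this
      exact this
    · right
      apply Subtype.ext
      rw [h] at this
      exact this

theorem not_hasTwoClass (π : G →* Perm X) (S : Subgroup G) (hπ : Function.Injective π)
    (hS : ∀ x, ∃ g ∈ S, π g x ≠ x) : ¬ HasTwoClass (pre π S) := by
  rintro ⟨⟨⟨f, g⟩, ha⟩, ⟨b, hb⟩, hab, hconj, hall⟩
  have hmem : ∀ u : X → A, (SemidirectProduct.inl u : W π) ∈ pre π S := by
    intro u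
    rw [mem_pre]
    exact S.one_mem
  -- conjugates by elements of the base group
  have hu : ∀ u : X → A, (⟨u * f * (phi π g u)⁻¹, g⟩ : W π) = ⟨f, g⟩ ∨
      (⟨u * f * (phi π g u)⁻¹, g⟩ : W π) = b := by
    intro u
    have h1 : IsConj (⟨⟨f, g⟩, ha⟩ : pre π S) (⟨SemidirectProduct.inl u, hmem u⟩ *
        ⟨⟨f, g⟩, ha⟩ * (⟨SemidirectProduct.inl u, hmem u⟩)⁻¹) := isConj_iff.2 ⟨_, rfl⟩
    have h2 : (SemidirectProduct.inl u : W π) * ⟨f, g⟩ * (SemidirectProduct.inl u : W π)⁻¹ =
        ⟨u * f * (phi π g u)⁻¹, g⟩ := by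
      rw [mul_inv_eq_iff_eq_mul]
      ext1
      · ext1 x
        simp [phi_apply]
      · simp
    rcases hall _ h1 with h | h
    · left
      rw [← h2]
      exact congrArg Subtype.val h
    · right
      rw [← h2]
      exact congrArg Subtype.val h
  -- values of conjugates by elements supported at a point
  have hval : ∀ (x : X) (p : A), π g x ≠ x →
      ((Pi.mulSingle x p : X → A) * f * (phi π g (Pi.mulSingle x p))⁻¹) x = p * f x := by
    intro x p hx
    simp only [Pi.mul_apply, Pi.inv_apply, phi_apply, Pi.mulSingle_eq_same]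
    rw [Pi.mulSingle_eq_of_ne]
    · simp
    · intro h
      rw [Perm.inv_eq_iff_eq] at h
      exact hx h.symm
  by_cases hg : g = 1
  · subst hg
    have hval2 : ∀ (x : X) (p : A) (z : X),
        ((Pi.mulSingle x p : X → A) * f * (phi π 1 (Pi.mulSingle x p))⁻¹) z =
        if z = x then p * f x * p⁻¹ else f z := by
      intro x p z
      simp only [Pi.mul_apply, Pi.inv_apply, map_one, MulAut.one_apply]
      split_ifs with h
      · subst h
        simp
      · rw [Pi.mulSingle_eq_of_ne h]
        simp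
    have hf : f ≠ 1 := by
      rintro rfl
      apply hab
      have h1 : (⟨⟨1, 1⟩, ha⟩ : pre π S) = 1 := rfl
      rw [h1] at hconj ⊢
      exact (isConj_one_right.1 hconj).symm
    obtain ⟨x, hx⟩ : ∃ x, f x ≠ 1 := by
      by_contra hcon
      push Not at hcon
      exact hf (funext hcon)
    have hne : ∀ z, f z ≠ 1 → ∃ p : A, p * f z * p⁻¹ ≠ f z ∧
        b = ⟨(Pi.mulSingle z p : X → A) * f * (phi π 1 (Pi.mulSingle z p))⁻¹, 1⟩ := by
      intro z hz
      obtain ⟨p, hp⟩ := A_center (f z) hz
      refine ⟨p, hp, ?_⟩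
      rcases hu (Pi.mulSingle z p) with h | h
      · exfalso
        apply hp
        have h1 := congrFun (congrArg SemidirectProduct.left h) z
        simp only at h1
        rw [hval2, if_pos rfl] at h1
        exact h1
      · exact h.symm
    obtain ⟨p, hp, hbp⟩ := hne x hx
    have hone : ∀ z, z ≠ x → f z = 1 := by
      intro z hzx
      by_contra hz
      obtain ⟨q, hq, hbq⟩ := hne z hz
      rw [hbp] at hbq
      have h1 := congrFun (congrArg SemidirectProduct.left hbq) x
      simp only at h1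
      rw [hval2, hval2, if_pos rfl, if_neg hzx.symm] at h1
      exact hp h1
    obtain ⟨g', hg', hgx⟩ := hS x
    have hmem' : (SemidirectProduct.inr g' : W π) ∈ pre π S := hg'
    have h1 : IsConj (⟨⟨f, 1⟩, ha⟩ : pre π S) (⟨SemidirectProduct.inr g', hmem'⟩ *
        ⟨⟨f, 1⟩, ha⟩ * (⟨SemidirectProduct.inr g', hmem'⟩)⁻¹) := isConj_iff.2 ⟨_, rfl⟩
    have h2 : ((SemidirectProduct.inr g' : W π) * ⟨f, 1⟩ *
        (SemidirectProduct.inr g' : W π)⁻¹).left (π g' x) = f x := by
      simp [phi_apply]
    rcases hall _ h1 with h | h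
    · have h3 : (SemidirectProduct.inr g' : W π) * ⟨f, 1⟩ *
        (SemidirectProduct.inr g' : W π)⁻¹ = ⟨f, 1⟩ := congrArg Subtype.val h
      rw [h3] at h2
      simp only at h2
      rw [hone _ hgx] at h2
      exact hx h2.symm
    · have h3 : (SemidirectProduct.inr g' : W π) * ⟨f, 1⟩ *
        (SemidirectProduct.inr g' : W π)⁻¹ = b := congrArg Subtype.val h
      rw [h3, hbp] at h2
      simp only at h2
      rw [hval2, if_neg hgx, hone _ hgx] at h2
      exact hx h2.symm
  · obtain ⟨x, hx⟩ : ∃ x, π g x ≠ x := by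
      by_contra hcon
      push Not at hcon
      apply hg
      apply hπ
      rw [map_one]
      ext1 x
      exact hcon x
    obtain ⟨p, q, hp, hq, hpq⟩ := A_three
    have hne : ∀ p : A, p ≠ 1 → b =
        ⟨(Pi.mulSingle x p : X → A) * f * (phi π g (Pi.mulSingle x p))⁻¹, g⟩ := by
      intro p hp
      rcases hu (Pi.mulSingle x p) with h | h
      · exfalso
        apply hp
        have h1 := congrFun (congrArg SemidirectProduct.left h) x
        simp only at h1
        rw [hval x p hx] at h1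
        exact mul_eq_right.1 h1
      · exact h.symm
    have h1 := hne p hp
    rw [hne q hq] at h1
    have h2 := congrFun (congrArg SemidirectProduct.left h1) x
    simp only at h2
    rw [hval x p hx, hval x q hx] at h2
    exact hpq (mul_right_cancel h2).symm

end Pool.Agent.X269.TwoClass
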