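import Mathlib
import Pool.Agent.X269.Scott
import Pool.Agent.X269.CoreFree
import Pool.Agent.X269.TwoClass

set_option autoImplicit false

/-!
The group `PSL(2, 29)` with its two actions of degree 203 (L. Scott's example), its wreath product
with `S₃`, and the regular embedding of that group.
-/

namespace Pool.Agent.X269.ScottGroup

open Equiv Pool.Agent.X269.Scott Pool.Agent.X269.CoreFree Pool.Agent.X269.TwoClass

theorem ais {α : Type*} (σ : Perm α) (x : α) : σ (σ⁻¹ x) = x := σ.apply_symm_apply x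

/-- the point set -/
abbrev P : Type := Fin 203

theorem w1_lt (x : P) : w1 x < 203 := by
  have := allB_spec _ _ chk_w1 x x.2
  simp only [Bool.and_eq_true, Nat.ble_eq] at this
  omega

theorem w1_w1 (x : P) : w1 (w1 x) = x := by
  have := allB_spec _ _ chk_w1 x x.2
  simp only [Bool.and_eq_true, Nat.ble_eq] at this
  exact Nat.eq_of_beq_eq_true this.2

theorem w2_lt (x : P) : w2 x < 203 := by
  have := allB_spec _ _ chk_w2 x x.2
  simp only [Bool.and_eq_true, Nat.ble_eq] at this
  omega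

theorem w2_w2 (x : P) : w2 (w2 x) = x := by
  have := allB_spec _ _ chk_w2 x x.2
  simp only [Bool.and_eq_true, Nat.ble_eq] at this
  exact Nat.eq_of_beq_eq_true this.2

theorem cc_facts (x : P) : cc x < 203 ∧ ci x < 203 ∧ cc (ci x) = x ∧ ci (cc x) = x := by
  have := allB_spec _ _ chk_cc x x.2
  simp only [Bool.and_eq_true, Nat.ble_eq] at this
  exact ⟨by omega, by omega, Nat.eq_of_beq_eq_true this.2.2.1, Nat.eq_of_beq_eq_true this.2.2.2⟩

/-- the first permutation of order 2 -/
def f1 : Perm P where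
  toFun x := ⟨w1 x, w1_lt x⟩
  invFun x := ⟨w1 x, w1_lt x⟩
  left_inv x := Fin.ext (w1_w1 x)
  right_inv x := Fin.ext (w1_w1 x)

/-- the second permutation of order 2 -/
def f2 : Perm P where
  toFun x := ⟨w2 x, w2_lt x⟩
  invFun x := ⟨w2 x, w2_lt x⟩
  left_inv x := Fin.ext (w2_w2 x)
  right_inv x := Fin.ext (w2_w2 x)

/-- the permutation of order 29 -/
def fc : Perm P where
  toFun x := ⟨cc x, (cc_facts x).1⟩
  invFun x := ⟨ci x, (cc_facts x).2.1⟩
  left_inv x := Fin.ext (cc_facts x).2.2.2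
  right_inv x := Fin.ext (cc_facts x).2.2.1

/-- the intertwining matrix -/
def t (x y : P) : ℤ := dec (te x y)

/-- its inverse -/
def s (y x : P) : ℤ := dec (se y x)

theorem t_f (x y : P) : t (f1 x) (f2 y) = t x y := by
  have h1 := allB_spec _ _ (allB_spec _ _ chk_t1 x x.2) y y.2
  have h2 := Nat.eq_of_beq_eq_true h1
  exact congrArg dec h2

theorem t_c (x y : P) : t (fc x) (fc y) = t x y := by
  have h1 := allB_spec _ _ (allB_spec _ _ chk_t2 x x.2) y y.2
  have h2 := Nat.eq_of_beq_eq_true h1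
  exact congrArg dec h2

theorem s_f (y x : P) : s (f2 y) (f1 x) = s y x := by
  have h1 := allB_spec _ _ (allB_spec _ _ chk_s1 y y.2) x x.2
  have h2 := Nat.eq_of_beq_eq_true h1
  exact congrArg dec h2

theorem s_c (y x : P) : s (fc y) (fc x) = s y x := by
  have h1 := allB_spec _ _ (allB_spec _ _ chk_s2 y y.2) x x.2
  have h2 := Nat.eq_of_beq_eq_true h1
  exact congrArg dec h2

theorem ts (x : P) : ∑ y, t 0 y * s y x = if x = 0 then 1 else 0 := by
  have h1 := of_decide_eq_true (allB_spec _ _ chk_inv x x.2)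
  rw [sumZ_eq, Finset.sum_range] at h1
  have h2 : (∑ y : P, t 0 y * s y x) = ∑ i : Fin 203, dec (te 0 i) * dec (se i x) := rfl
  rw [h2, h1]
  by_cases h : x = 0
  · rw [if_pos h, h]; rfl
  · rw [if_neg h]
    have h3 : Nat.beq x 0 = false := by
      rw [← Bool.not_eq_true]
      intro h4
      exact h (Fin.ext (Nat.eq_of_beq_eq_true h4))
    rw [h3]
    rfl

theorem stt (x : P) : ∑ y, s 0 y * t y x = if x = 0 then 1 else 0 := by
  have h1 := of_decide_eq_true (allB_spec _ _ chk_inv2 x x.2)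
  rw [sumZ_eq, Finset.sum_range] at h1
  have h2 : (∑ y : P, s 0 y * t y x) = ∑ i : Fin 203, dec (se 0 i) * dec (te i x) := rfl
  rw [h2, h1]
  by_cases h : x = 0
  · rw [if_pos h, h]; rfl
  · rw [if_neg h]
    have h3 : Nat.beq x 0 = false := by
      rw [← Bool.not_eq_true]
      intro h4
      exact h (Fin.ext (Nat.eq_of_beq_eq_true h4))
    rw [h3]
    rfl

/-- the group: pairs of permutations generated by `(f1, f2)` and `(fc, fc)` -/
def G : Subgroup (Perm P × Perm P) := Subgroup.closure {(f1, f2), (fc, fc)}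

theorem gf : (f1, f2) ∈ G := Subgroup.subset_closure (by simp)

theorem gc : (fc, fc) ∈ G := Subgroup.subset_closure (by simp)

/-- first action -/
def π₁ : G →* Perm P := (MonoidHom.fst _ _).comp G.subtype

/-- second action -/
def π₂ : G →* Perm P := (MonoidHom.snd _ _).comp G.subtype

theorem t_inv (g : Perm P × Perm P) (hg : g ∈ G) : ∀ x y, t (g.1 x) (g.2 y) = t x y := by
  induction hg using Subgroup.closure_induction with
  | mem x hx =>
    rcases hx with rfl | hx
    · exact t_f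
    · rw [Set.mem_singleton_iff] at hx
      subst hx
      exact t_c
  | one => intro x y; rfl
  | mul a b _ _ ha hb =>
    intro x y
    show t (a.1 (b.1 x)) (a.2 (b.2 y)) = _
    rw [ha, hb]
  | inv a _ ha =>
    intro x y
    have := ha (a.1⁻¹ x) (a.2⁻¹ y)
    rw [ais, ais] at this
    exact this.symm

theorem s_inv (g : Perm P × Perm P) (hg : g ∈ G) : ∀ y x, s (g.2 y) (g.1 x) = s y x := by
  induction hg using Subgroup.closure_induction with
  | mem x hx =>
    rcases hx with rfl | hx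
    · exact s_f
    · rw [Set.mem_singleton_iff] at hx
      subst hx
      exact s_c
  | one => intro x y; rfl
  | mul a b _ _ ha hb =>
    intro x y
    show s (a.2 (b.2 x)) (a.1 (b.1 y)) = _
    rw [ha, hb]
  | inv a _ ha =>
    intro x y
    have := ha (a.2⁻¹ x) (a.1⁻¹ y)
    rw [ais, ais] at this
    exact this.symm

theorem tr_aux (x : ℕ) : ∀ hx : x < 203, (∃ g ∈ G, g.1 0 = (⟨x, hx⟩ : P)) ∧
    (∃ g ∈ G, g.2 0 = (⟨x, hx⟩ : P)) := by
  induction x using Nat.strong_induction_on with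
  | _ x ih =>
    intro hx
    have h1 := allB_spec _ _ chk_tr x hx
    simp only [Bool.or_eq_true, Bool.and_eq_true] at h1
    rcases h1 with h1 | h1 | ⟨h1, h2⟩
    · have h0 : x = 0 := Nat.eq_of_beq_eq_true h1
      subst h0
      exact ⟨⟨1, G.one_mem, rfl⟩, ⟨1, G.one_mem, rfl⟩⟩
    · have h0 : cc (x.pred) = x := Nat.eq_of_beq_eq_true h1
      rcases Nat.eq_zero_or_pos x with h | h
      · subst h
        exact ⟨⟨1, G.one_mem, rfl⟩, ⟨1, G.one_mem, rfl⟩⟩
      · have hlt : x.pred < x := Nat.pred_lt (by omega)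
        obtain ⟨⟨g, hg, hg1⟩, ⟨g', hg', hg1'⟩⟩ := ih x.pred hlt (by omega)
        refine ⟨⟨(fc, fc) * g, G.mul_mem gc hg, ?_⟩, ⟨(fc, fc) * g', G.mul_mem gc hg', ?_⟩⟩
        · show fc (g.1 0) = _
          rw [hg1]
          exact Fin.ext h0
        · show fc (g'.2 0) = _
          rw [hg1']
          exact Fin.ext h0
    · have h1' : w1 x < x := Nat.le_of_ble_eq_true h1
      have h2' : w2 x < x := Nat.le_of_ble_eq_true h2
      obtain ⟨g, hg, hg1⟩ := (ih (w1 x) h1' (by omega)).1
      obtain ⟨g', hg', hg1'⟩ := (ih (w2 x) h2' (by omega)).2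
      refine ⟨⟨(f1, f2) * g, G.mul_mem gf hg, ?_⟩, ⟨(f1, f2) * g', G.mul_mem gf hg', ?_⟩⟩
      · show f1 (g.1 0) = _
        rw [hg1]
        exact Fin.ext (w1_w1 ⟨x, hx⟩)
      · show f2 (g'.2 0) = _
        rw [hg1']
        exact Fin.ext (w2_w2 ⟨x, hx⟩)

theorem tr1 (x : P) : ∃ g : G, π₁ g 0 = x := by
  obtain ⟨g, hg, h⟩ := (tr_aux x x.2).1
  exact ⟨⟨g, hg⟩, h⟩

theorem tr2 (x : P) : ∃ g : G, π₂ g 0 = x := by
  obtain ⟨g, hg, h⟩ := (tr_aux x x.2).2
  exact ⟨⟨g, hg⟩, h⟩

theorem st_all (z y : P) : ∑ x, s z x * t x y = if y = z then 1 else 0 := by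
  obtain ⟨g, rfl⟩ := tr2 z
  have h1 : ∑ x, s (π₂ g 0) x * t x y = ∑ x, s 0 x * t x ((π₂ g)⁻¹ y) := by
    rw [← Equiv.sum_comp (π₁ g) (fun x => s (π₂ g 0) x * t x y)]
    refine Finset.sum_congr rfl fun x _ => ?_
    have e1 : s (π₂ g 0) (π₁ g x) = s 0 x := s_inv g g.2 0 x
    have e2 : t (π₁ g x) (π₂ g ((π₂ g)⁻¹ y)) = t x ((π₂ g)⁻¹ y) := t_inv g g.2 x _
    rw [ais] at e2
    rw [e1, e2]
  rw [h1, stt]
  congr 1
  rw [Perm.inv_eq_iff_eq]

theorem π₁_injective : Function.Injective π₁ := by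
  rw [injective_iff_map_eq_one]
  intro g hg
  have hg1 : (g : Perm P × Perm P).1 = 1 := hg
  have h2 : (g : Perm P × Perm P).2 = 1 := by
    ext1 y
    have h3 := st_all ((g : Perm P × Perm P).2 y) ((g : Perm P × Perm P).2 y)
    have h4 := st_all ((g : Perm P × Perm P).2 y) y
    have h5 : ∀ x, t x ((g : Perm P × Perm P).2 y) = t x y := by
      intro x
      have := t_inv g g.2 x y
      rw [hg1] at this
      exact this
    rw [if_pos rfl] at h3
    simp only [h5] at h3
    rw [h3] at h4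
    by_contra hne
    rw [if_neg (fun h => hne h.symm)] at h4
    exact one_ne_zero h4
  apply Subtype.ext
  exact Prod.ext hg1 h2

theorem fc_pow (k : ℕ) (x : P) : (((fc ^ k) x : P) : ℕ) = itc k x := by
  induction k with
  | zero => rfl
  | succ k ih =>
    rw [pow_succ', Perm.mul_apply]
    show cc ((fc ^ k) x : P) = cc (itc k x)
    rw [ih]

theorem word_mem (a b : ℕ) : (f1, f2) * ((fc, fc) ^ a * ((f1, f2) * (fc, fc) ^ b)) ∈ G :=
  G.mul_mem gf (G.mul_mem (G.pow_mem gc _) (G.mul_mem gf (G.pow_mem gc _)))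

theorem word_fst (a b : ℕ) (x : P) :
    (((((f1, f2) * ((fc, fc) ^ a * ((f1, f2) * (fc, fc) ^ b)) : Perm P × Perm P).1) x : P) : ℕ) =
    w1 (itc a (w1 (itc b x))) := by
  show w1 (((fc ^ a) (f1 ((fc ^ b) x)) : P) : ℕ) = _
  rw [fc_pow]
  show w1 (itc a (w1 ((fc ^ b) x : P))) = _
  rw [fc_pow]

theorem word_snd (a b : ℕ) (x : P) :
    (((((f1, f2) * ((fc, fc) ^ a * ((f1, f2) * (fc, fc) ^ b)) : Perm P × Perm P).2) x : P) : ℕ) =
    w2 (itc a (w2 (itc b x))) := by
  show w2 (((fc ^ a) (f2 ((fc ^ b) x)) : P) : ℕ) = _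
  rw [fc_pow]
  show w2 (itc a (w2 ((fc ^ b) x : P))) = _
  rw [fc_pow]

theorem moves (x : P) : ∃ g ∈ st π₂ 0, π₁ g x ≠ x := by
  have h1 := allB_spec _ _ chk_words x x.2
  simp only [Bool.or_eq_true, Bool.not_eq_true'] at h1
  rcases h1 with h1 | h1
  · refine ⟨⟨_, word_mem 9 10⟩, Fin.ext ((word_snd 9 10 0).trans chk_word1), fun h => ?_⟩
    have h2 := congrArg Fin.val h
    have h3 := word_fst 9 10 x
    have h4 : w1 (itc 9 (w1 (itc 10 x))) = x := h3.symm.trans h2
    rw [h4, Nat.beq_refl] at h1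
    exact Bool.noConfusion h1
  · refine ⟨⟨_, word_mem 10 6⟩, Fin.ext ((word_snd 10 6 0).trans chk_word2), fun h => ?_⟩
    have h2 := congrArg Fin.val h
    have h3 := word_fst 10 6 x
    have h4 : w1 (itc 10 (w1 (itc 6 x))) = x := h3.symm.trans h2
    rw [h4, Nat.beq_refl] at h1
    exact Bool.noConfusion h1

/-- the wreath product -/
abbrev H : Type := W π₁

/-- first action of the wreath product -/
def ρ₁ : H →* Perm P := π₁.comp SemidirectProduct.rightHom

/-- second action of the wreath product -/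
def ρ₂ : H →* Perm P := π₂.comp SemidirectProduct.rightHom

instance : Finite H :=
  Finite.of_injective (fun h : H => (h.left, h.right)) (by
    intro a b hab
    simp only [Prod.mk.injEq] at hab
    exact SemidirectProduct.ext hab.1 hab.2)

theorem card_H : 5 ≤ Nat.card H := by
  have h1 : Function.Injective (fun x : Fin 5 =>
      (SemidirectProduct.inl (Pi.mulSingle (⟨x, by omega⟩ : P) (c[0, 1, 2] : A)) : H)) := by
    intro x y hxy
    have h2 := SemidirectProduct.inl_injective hxy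
    by_contra hne
    have h3 := congrFun h2 (⟨x, by omega⟩ : P)
    rw [Pi.mulSingle_eq_same, Pi.mulSingle_eq_of_ne] at h3
    · revert h3; decide
    · intro h
      apply hne
      have := congrArg Fin.val h
      exact Fin.ext this
  have := Nat.card_le_card_of_injective _ h1
  simpa using this

/-- the regular representation -/
def j : H →* Perm H := MulAction.toPermHom H H

theorem j_injective : Function.Injective j := MulAction.toPerm_injective

theorem coset_equiv : CosetEquivalent ((st ρ₁ 0).map j) ((st ρ₂ 0).map j) := by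
  refine cosetEquivalent_of_matrix ρ₁ ρ₂ 0 0 ?_ ?_ j t ?_ s ?_ ts stt
  · intro x
    obtain ⟨g, hg⟩ := tr1 x
    exact ⟨SemidirectProduct.inr g, hg⟩
  · intro x
    obtain ⟨g, hg⟩ := tr2 x
    exact ⟨SemidirectProduct.inr g, hg⟩
  · intro h x y
    exact t_inv _ h.right.2 x y
  · intro h y x
    exact s_inv _ h.right.2 y x

theorem not_iso : ¬ Nonempty ((st ρ₁ 0).map j ≃* (st ρ₂ 0).map j) := by
  rintro ⟨e⟩
  have e1 : st ρ₁ (0 : P) ≃* st ρ₂ (0 : P) :=
    ((Subgroup.equivMapOfInjective (st ρ₁ 0) j j_injective).trans e).trans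
      (Subgroup.equivMapOfInjective (st ρ₂ 0) j j_injective).symm
  have h1 : HasTwoClass (st ρ₁ (0 : P)) := hasTwoClass_of_fix π₁ (st π₁ 0) 0 (fun g hg => hg)
  have h2 : ¬ HasTwoClass (st ρ₂ (0 : P)) := not_hasTwoClass π₁ (st π₂ 0) π₁_injective moves
  exact h2 (h1.congr e1)

end Pool.Agent.X269.ScottGroup
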