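import Mathlib
import Pool.Agent.Helper180.FreeMetric

set_option autoImplicit false

/-!
Fixed closures of finitely generated subgroups of `ℤ^m × F_n`, `m ≥ 1`, `n ≥ 2`.
-/

namespace Pool.Agent.X269.FixClosure

open scoped commutatorElement

open Pool.Agent.Helper180.FreeMetric

section free

variable {n : ℕ}

abbrev F (n : ℕ) := FreeGroup (Fin n)

/-- the generator number `0` -/
def x0 (hn : 2 ≤ n) : F n := FreeGroup.of ⟨0, by omega⟩
/-- the generator number `1` -/
def x1 (hn : 2 ≤ n) : F n := FreeGroup.of ⟨1, by omega⟩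
/-- the commutator of the first two generators -/
def c (hn : 2 ≤ n) : F n := x0 hn * x1 hn * (x0 hn)⁻¹ * (x1 hn)⁻¹

/-- a homomorphism to `S₄` -/
def toS4 (n : ℕ) : F n →* Equiv.Perm (Fin 4) :=
  FreeGroup.lift (fun i => if i.1 = 1 then c[0, 1, 2, 3] else c[1, 2, 3])

theorem toS4_c (hn : 2 ≤ n) : toS4 n (c hn) = c[0, 1, 2] := by
  simp only [c, x0, x1, toS4, map_mul, map_inv, FreeGroup.lift_apply_of, zero_ne_one, if_true,
    if_false]
  decide

theorem not_comm (hn : 2 ≤ n) (i : Fin n) :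
    (c hn) * (FreeGroup.of i * c hn * (FreeGroup.of i)⁻¹) ≠
      (FreeGroup.of i * c hn * (FreeGroup.of i)⁻¹) * c hn := by
  intro h
  have h2 := congrArg (toS4 n) h
  simp only [map_mul, map_inv, toS4_c] at h2
  simp only [toS4, FreeGroup.lift_apply_of] at h2
  by_cases h3 : i.1 = 1
  · rw [if_pos h3] at h2
    revert h2
    decide
  · rw [if_neg h3] at h2
    revert h2
    decide

/-- generators of the subgroup -/
def gens (hn : 2 ≤ n) : Set (F n) :=
  {c hn} ∪ Set.range (fun i : Fin n => FreeGroup.of i * c hn * (FreeGroup.of i)⁻¹) ∪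
    Set.range (fun i : Fin n => FreeGroup.of i * (FreeGroup.of i * c hn * (FreeGroup.of i)⁻¹)
      * (FreeGroup.of i)⁻¹)

theorem gens_finite (hn : 2 ≤ n) : (gens hn).Finite := by
  unfold gens
  exact ((Set.finite_singleton _).union (Set.finite_range _)).union (Set.finite_range _)

/-- an endomorphism fixing the generators is the identity -/
theorem rigid (hn : 2 ≤ n) (φ : F n →* F n) (hφ : ∀ h ∈ gens hn, φ h = h) : φ = MonoidHom.id _ := by
  have hc : φ (c hn) = c hn := hφ _ (Or.inl (Or.inl rfl))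
  apply FreeGroup.ext_hom
  intro i
  have h1 := hφ (FreeGroup.of i * c hn * (FreeGroup.of i)⁻¹) (Or.inl (Or.inr ⟨i, rfl⟩))
  have h2 := hφ (FreeGroup.of i * (FreeGroup.of i * c hn * (FreeGroup.of i)⁻¹)
      * (FreeGroup.of i)⁻¹) (Or.inr ⟨i, rfl⟩)
  simp only [map_mul, map_inv, hc] at h1 h2
  set x := (FreeGroup.of i : F n) with hx
  set y := φ x with hy
  set C := c hn with hC
  obtain ⟨u, hu⟩ : ∃ u, y = x * u := ⟨x⁻¹ * y, by group⟩
  rw [hu] at h1 h2
  -- `u` commutes with `C`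
  have k1 : u * C = C * u := by
    have : x * (u * C * u⁻¹) * x⁻¹ = x * C * x⁻¹ := by
      rw [← h1]; group
    have := mul_left_cancel (mul_right_cancel this)
    calc u * C = (u * C * u⁻¹) * u := by group
      _ = C * u := by rw [this]
  -- `u` commutes with `x C x⁻¹`
  have k2 : u * (x * C * x⁻¹) = (x * C * x⁻¹) * u := by
    have e1 : x * (u * (x * C * x⁻¹) * u⁻¹) * x⁻¹ = x * (x * C * x⁻¹) * x⁻¹ := by
      rw [← h2]
      have : u * C * u⁻¹ = C := by rw [k1]; group
      calc x * (u * (x * C * x⁻¹) * u⁻¹) * x⁻¹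
          = x * (u * (x * (u * C * u⁻¹) * x⁻¹) * u⁻¹) * x⁻¹ := by rw [this]
        _ = x * u * (x * u * C * (x * u)⁻¹) * (x * u)⁻¹ := by group
    have := mul_left_cancel (mul_right_cancel e1)
    calc u * (x * C * x⁻¹) = (u * (x * C * x⁻¹) * u⁻¹) * u := by group
      _ = (x * C * x⁻¹) * u := by rw [this]
  show φ x = x
  rw [← hy, hu]
  by_contra hne
  have hu1 : u ≠ 1 := by
    rintro rfl
    exact hne (mul_one x)
  exact not_comm hn i (comm_trans hu1 k1.symm k2.symm)

theorem x0_x1 (hn : 2 ≤ n) : x0 hn * x1 hn ≠ x1 hn * x0 hn := by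
  intro h
  have h2 := congrArg (toS4 n) h
  simp only [x0, x1, toS4, map_mul, FreeGroup.lift_apply_of, zero_ne_one, if_true,
    if_false] at h2
  revert h2
  decide

theorem central_eq_one (hn : 2 ≤ n) (w : F n) (hw : ∀ z, w * z = z * w) : w = 1 := by
  by_contra h
  exact x0_x1 hn (comm_trans h (hw _).symm (hw _).symm)

theorem gens_sub (hn : 2 ≤ n) : gens hn ⊆ (commutator (F n) : Set (F n)) := by
  have hc : c hn ∈ commutator (F n) := by
    have : c hn = ⁅x0 hn, x1 hn⁆ := rfl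
    rw [this]
    exact Subgroup.commutator_mem_commutator (Subgroup.mem_top _) (Subgroup.mem_top _)
  have hN : (commutator (F n)).Normal := inferInstance
  rintro z ((hz | ⟨i, rfl⟩) | ⟨i, rfl⟩)
  · rw [Set.mem_singleton_iff.1 hz]; exact hc
  · exact hN.conj_mem _ hc _
  · exact hN.conj_mem _ (hN.conj_mem _ hc _) _

end free

/-! ### The commutator subgroup of a free group of rank at least two is not finitely generated -/

section notfg

/-- permutations of `ℤ × ℤ` of the form `(k, v) ↦ (k + s, v + f k)`, `f` of finite support -/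
def IsAff (σ : Equiv.Perm (ℤ × ℤ)) (s : ℤ) (f : ℤ → ℤ) : Prop :=
  ∀ k v, σ (k, v) = (k + s, v + f k)

theorem IsAff.mul {σ τ : Equiv.Perm (ℤ × ℤ)} {s t : ℤ} {f g : ℤ → ℤ} (h1 : IsAff σ s f)
    (h2 : IsAff τ t g) : IsAff (σ * τ) (t + s) (fun k => g k + f (k + t)) := by
  intro k v
  rw [Equiv.Perm.mul_apply, h2, h1]
  ext <;> simp <;> ring

theorem IsAff.inv {σ : Equiv.Perm (ℤ × ℤ)} {s : ℤ} {f : ℤ → ℤ} (h1 : IsAff σ s f) :
    IsAff σ⁻¹ (-s) (fun k => - f (k - s)) := by
  intro k v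
  rw [Equiv.Perm.inv_eq_iff_eq, h1]
  ext <;> simp [sub_eq_add_neg]

/-- the permutations `(k, v) ↦ (k, v + f k)` with `f` supported in `[-K, K]` -/
def T (K : ℕ) : Subgroup (Equiv.Perm (ℤ × ℤ)) where
  carrier := {σ | ∃ f : ℤ → ℤ, (∀ k, (K : ℤ) < |k| → f k = 0) ∧ IsAff σ 0 f}
  mul_mem' := by
    rintro σ τ ⟨f, hf, h1⟩ ⟨g, hg, h2⟩
    refine ⟨fun k => g k + f (k + 0), ?_, by simpa using h1.mul h2⟩
    intro k hk
    simp [hf k hk, hg k hk]
  one_mem' := ⟨fun _ => 0, fun _ _ => rfl, fun k v => by simp⟩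
  inv_mem' := by
    rintro σ ⟨f, hf, h1⟩
    refine ⟨fun k => - f (k - 0), ?_, by simpa using h1.inv⟩
    intro k hk
    simp [hf k hk]

theorem T_mono {K L : ℕ} (h : K ≤ L) : T K ≤ T L := by
  rintro σ ⟨f, hf, h1⟩
  exact ⟨f, fun k hk => hf k (lt_of_le_of_lt (by exact_mod_cast h) hk), h1⟩

/-- the affine permutations with finitely supported translation parts -/
def M : Subgroup (Equiv.Perm (ℤ × ℤ)) where
  carrier := {σ | ∃ (s : ℤ) (f : ℤ → ℤ) (K : ℕ), (∀ k, (K : ℤ) < |k| → f k = 0) ∧ IsAff σ s f}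
  mul_mem' := by
    rintro σ τ ⟨s, f, K, hf, h1⟩ ⟨t, g, L, hg, h2⟩
    refine ⟨_, _, K + L + t.natAbs, ?_, h1.mul h2⟩
    intro k hk
    have e1 : |k| ≤ |k + t| + |t| := by
      have := abs_add_le (k + t) (-t)
      simpa using this
    have e2 : ((t.natAbs : ℕ) : ℤ) = |t| := Int.natCast_natAbs t
    push_cast at hk
    rw [hg k (by omega), hf (k + t) (by omega)]
    rfl
  one_mem' := ⟨0, fun _ => 0, 0, fun _ _ => rfl, fun k v => by simp⟩
  inv_mem' := by
    rintro σ ⟨s, f, K, hf, h1⟩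
    refine ⟨_, _, K + s.natAbs, ?_, h1.inv⟩
    intro k hk
    have e1 : |k| ≤ |k - s| + |s| := by
      have := abs_add_le (k - s) s
      simpa using this
    have e2 : ((s.natAbs : ℕ) : ℤ) = |s| := Int.natCast_natAbs s
    push_cast at hk
    rw [hf (k - s) (by omega)]
    rfl

/-- the shift of the first coordinate -/
def shiftP : Equiv.Perm (ℤ × ℤ) where
  toFun p := (p.1 + 1, p.2)
  invFun p := (p.1 - 1, p.2)
  left_inv p := by simp
  right_inv p := by simp

/-- translation by one in the fibre over `0` -/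
def lampP : Equiv.Perm (ℤ × ℤ) where
  toFun p := (p.1, p.2 + if p.1 = 0 then 1 else 0)
  invFun p := (p.1, p.2 - if p.1 = 0 then 1 else 0)
  left_inv p := by simp
  right_inv p := by simp

theorem shift_aff : IsAff shiftP 1 (fun _ => 0) := fun k v => by simp [shiftP]
theorem lamp_aff : IsAff lampP 0 (fun k => if k = 0 then 1 else 0) := fun k v => by simp [lampP]

/-- `x₀ ↦` shift, `x₁ ↦` lamp, all other generators to `1` -/
def θ (n : ℕ) : FreeGroup (Fin n) →* Equiv.Perm (ℤ × ℤ) :=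
  FreeGroup.lift (fun i => if i.1 = 0 then shiftP else if i.1 = 1 then lampP else 1)

theorem θ_mem (n : ℕ) (w : FreeGroup (Fin n)) : θ n w ∈ M := by
  have : (θ n).range ≤ M := by
    rw [θ, FreeGroup.range_lift_eq_closure, Subgroup.closure_le]
    rintro _ ⟨i, rfl⟩
    dsimp only
    split_ifs
    · exact ⟨1, _, 0, fun _ _ => rfl, shift_aff⟩
    · refine ⟨0, _, 0, ?_, lamp_aff⟩
      intro k hk
      have : k ≠ 0 := by
        rintro rfl
        simp at hk
      simp [this]
    · exact M.one_mem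
  exact this ⟨w, rfl⟩

theorem comm_aff {σ τ : Equiv.Perm (ℤ × ℤ)} (hσ : σ ∈ M) (hτ : τ ∈ M) : ∃ K, ⁅σ, τ⁆ ∈ T K := by
  obtain ⟨s, f, K, hf, h1⟩ := hσ
  obtain ⟨t, g, L, hg, h2⟩ := hτ
  have hm : ⁅σ, τ⁆ ∈ M := by
    rw [commutatorElement_def]
    exact M.mul_mem (M.mul_mem (M.mul_mem ⟨s, f, K, hf, h1⟩ ⟨t, g, L, hg, h2⟩)
      (M.inv_mem ⟨s, f, K, hf, h1⟩)) (M.inv_mem ⟨t, g, L, hg, h2⟩)
  obtain ⟨r, q, N, hq, h3⟩ := hm
  have h4 := ((h1.mul h2).mul h1.inv).mul h2.inv
  rw [← commutatorElement_def] at h4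
  have hr : r = 0 := by
    have a := h3 0 0
    have b := h4 0 0
    rw [a] at b
    have := congrArg Prod.fst b
    simp only at this
    linarith
  subst hr
  exact ⟨N, q, hq, h3⟩

theorem θ_comm (n : ℕ) (w : FreeGroup (Fin n)) (hw : w ∈ commutator (FreeGroup (Fin n))) :
    ∃ K, θ n w ∈ T K := by
  let TT : Subgroup (Equiv.Perm (ℤ × ℤ)) :=
    { carrier := {σ | ∃ K, σ ∈ T K}
      mul_mem' := by
        rintro a b ⟨K, hK⟩ ⟨L, hL⟩
        exact ⟨max K L, (T _).mul_mem (T_mono (le_max_left _ _) hK) (T_mono (le_max_right _ _) hL)⟩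
      one_mem' := ⟨0, (T 0).one_mem⟩
      inv_mem' := by
        rintro a ⟨K, hK⟩
        exact ⟨K, (T K).inv_mem hK⟩ }
  have : commutator (FreeGroup (Fin n)) ≤ TT.comap (θ n) := by
    rw [commutator_def, Subgroup.commutator_le]
    intro a _ b _
    rw [Subgroup.mem_comap, map_commutatorElement]
    exact comm_aff (θ_mem n a) (θ_mem n b)
  exact this hw

theorem shift_pow (N : ℕ) : IsAff (shiftP ^ N) N (fun _ => 0) := by
  induction N with
  | zero => intro k v; simp
  | succ N ih =>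
    rw [pow_succ]
    have := ih.mul shift_aff
    intro k v
    rw [this k v]
    ext <;> simp <;> ring

/-- exponent sum of the generator `x₀`, as the coordinate number `i` of a vector -/
def p0 (n m : ℕ) (i : Fin m) : FreeGroup (Fin n) →* Multiplicative (Fin m → ℤ) :=
  FreeGroup.lift (fun j => if j.1 = 0 then Multiplicative.ofAdd (Pi.single i 1) else 1)

theorem θ_aff (n m : ℕ) (i : Fin m) (w : FreeGroup (Fin n)) :
    ∃ (f : ℤ → ℤ) (K : ℕ), (∀ k, (K : ℤ) < |k| → f k = 0) ∧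
      IsAff (θ n w) ((p0 n m i w).toAdd i) f := by
  have key : ∀ w : FreeGroup (Fin n), ∃ f : ℤ → ℤ, IsAff (θ n w) ((p0 n m i w).toAdd i) f := by
    intro w
    induction w using FreeGroup.induction_on with
    | C1 => exact ⟨fun _ => 0, fun k v => by simp⟩
    | of j =>
      by_cases h0 : j.1 = 0
      · refine ⟨fun _ => 0, ?_⟩
        simpa [θ, p0, h0] using shift_aff
      · by_cases h1 : j.1 = 1
        · refine ⟨fun k => if k = 0 then 1 else 0, ?_⟩
          simpa [θ, p0, h0, h1] using lamp_aff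
        · refine ⟨fun _ => 0, ?_⟩
          intro k v
          simp [θ, p0, h0, h1]
    | inv_of j ih =>
      obtain ⟨f, hf⟩ := ih
      refine ⟨fun k => - f (k - (p0 n m i (FreeGroup.of j)).toAdd i), ?_⟩
      have := hf.inv
      rw [map_inv, map_inv]
      exact this
    | mul x y hx hy =>
      obtain ⟨f, hf⟩ := hx
      obtain ⟨g, hg⟩ := hy
      refine ⟨fun k => g k + f (k + (p0 n m i y).toAdd i), ?_⟩
      have := hf.mul hg
      rw [map_mul, map_mul, toAdd_mul, Pi.add_apply, add_comm]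
      exact this
  obtain ⟨s, f, K, hf, h1⟩ := θ_mem n w
  obtain ⟨g, hg⟩ := key w
  refine ⟨f, K, hf, ?_⟩
  have hs : s = (p0 n m i w).toAdd i := by
    have a := h1 0 0
    have b := hg 0 0
    rw [a] at b
    have := congrArg Prod.fst b
    simpa using this
  rw [← hs]
  exact h1

/-- No subgroup between the commutator subgroup and the kernel of the exponent sum of `x₀` is
finitely generated. -/
theorem not_fg {n m : ℕ} (hn : 2 ≤ n) (i : Fin m) (D : Subgroup (FreeGroup (Fin n)))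
    (hD : commutator (FreeGroup (Fin n)) ≤ D) (hD' : ∀ w ∈ D, p0 n m i w = 1) : ¬ D.FG := by
  rintro ⟨S, hS⟩
  have h1 : ∀ s ∈ S, ∃ K, θ n s ∈ T K := by
    intro s hs
    obtain ⟨f, K, hf, h⟩ := θ_aff n m i s
    rw [hD' s (by rw [← hS]; exact Subgroup.subset_closure hs)] at h
    exact ⟨K, f, hf, h⟩
  choose! κ hκ using h1
  set K := S.sup κ with hK
  have h2 : D ≤ (T K).comap (θ n) := by
    rw [← hS, Subgroup.closure_le]
    intro s hs
    exact T_mono (Finset.le_sup hs) (hκ s hs)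
  have h3 : ⁅(x0 hn) ^ (K + 1), x1 hn⁆ ∈ D :=
    hD (Subgroup.commutator_mem_commutator (Subgroup.mem_top _) (Subgroup.mem_top _))
  have h4 := h2 h3
  rw [Subgroup.mem_comap, map_commutatorElement, map_pow] at h4
  have e0 : θ n (x0 hn) = shiftP := by simp [θ, x0]
  have e1 : θ n (x1 hn) = lampP := by simp [θ, x1]
  rw [e0, e1, commutatorElement_def] at h4
  obtain ⟨f, hf, h5⟩ := h4
  have h6 := (((shift_pow (K + 1)).mul lamp_aff).mul (shift_pow (K + 1)).inv).mul lamp_aff.inv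
  have a := h5 (K + 1) 0
  have b := h6 (K + 1) 0
  rw [a, hf] at b
  · have := congrArg Prod.snd b
    simp at this
    omega
  · rw [abs_of_nonneg (by positivity)]
    linarith

end notfg

/-! ### Endomorphisms of `ℤ^m × F_n` -/

section prod

variable {n m : ℕ}

/-- the ambient group -/
abbrev G (m n : ℕ) := Multiplicative (Fin m → ℤ) × FreeGroup (Fin n)

/-- the finitely generated subgroup -/
def Hsub (m : ℕ) (hn : 2 ≤ n) : Subgroup (G m n) :=
  (Subgroup.closure (gens hn)).map (MonoidHom.inr (Multiplicative (Fin m → ℤ)) (FreeGroup (Fin n)))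

theorem fg_map {A B : Type} [Group A] [Group B] (f : A →* B) (P : Subgroup A) (h : P.FG) :
    (P.map f).FG := by
  rw [Subgroup.fg_iff_submonoid_fg] at h ⊢
  exact h.map f

theorem Hsub_fg (hn : 2 ≤ n) : (Hsub m hn).FG := by
  apply fg_map
  exact (Subgroup.fg_iff _).2 ⟨_, rfl, gens_finite hn⟩

/-- any endomorphism fixing the subgroup fixes the commutator subgroup of `F_n` -/
theorem fixes (hn : 2 ≤ n) (Ψ : G m n →* G m n) (hΨ : ∀ h ∈ Hsub m hn, Ψ h = h)
    (w : FreeGroup (Fin n)) (hw : w ∈ commutator (FreeGroup (Fin n))) :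
    Ψ (1, w) = (1, w) := by
  let φ : FreeGroup (Fin n) →* FreeGroup (Fin n) :=
    (MonoidHom.snd _ _).comp (Ψ.comp (MonoidHom.inr _ _))
  let p : FreeGroup (Fin n) →* Multiplicative (Fin m → ℤ) :=
    (MonoidHom.fst _ _).comp (Ψ.comp (MonoidHom.inr _ _))
  have hφ : φ = MonoidHom.id _ := by
    apply rigid hn
    intro h hh
    have := hΨ (1, h) ⟨h, Subgroup.subset_closure hh, rfl⟩
    exact congrArg Prod.snd this
  have hp : p w = 1 := by
    have : commutator (FreeGroup (Fin n)) ≤ p.ker := Abelianization.commutator_subset_ker p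
    exact this hw
  have e1 : Ψ (1, w) = (p w, φ w) := rfl
  rw [e1, hp, hφ]
  rfl

/-- the automorphism `(a, w) ↦ (a p(w), w)` -/
def transv (p : FreeGroup (Fin n) →* Multiplicative (Fin m → ℤ)) : G m n ≃* G m n where
  toFun g := (g.1 * p g.2, g.2)
  invFun g := (g.1 * (p g.2)⁻¹, g.2)
  left_inv g := by simp
  right_inv g := by simp
  map_mul' g h := by
    ext1
    · simp only [Prod.fst_mul, Prod.snd_mul, map_mul]
      exact mul_mul_mul_comm _ _ _ _
    · rfl

theorem Hsub_le (hn : 2 ≤ n) (h : G m n) (hh : h ∈ Hsub m hn) :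
    h.1 = 1 ∧ h.2 ∈ commutator (FreeGroup (Fin n)) := by
  obtain ⟨w, hw, rfl⟩ := hh
  refine ⟨rfl, ?_⟩
  have : Subgroup.closure (gens hn) ≤ commutator (FreeGroup (Fin n)) := by
    rw [Subgroup.closure_le]
    exact gens_sub hn
  exact this hw

theorem transv_fix (hn : 2 ≤ n) (p : FreeGroup (Fin n) →* Multiplicative (Fin m → ℤ))
    (h : G m n) (hh : h ∈ Hsub m hn) : transv p h = h := by
  obtain ⟨h1, h2⟩ := Hsub_le hn h hh
  have hp : p h.2 = 1 := by
    have : commutator (FreeGroup (Fin n)) ≤ p.ker := Abelianization.commutator_subset_ker p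
    exact this h2
  ext1
  · show h.1 * p h.2 = h.1
    rw [hp, mul_one]
  · rfl

/-- A subgroup of `ℤ^m × F_n` which contains `1 × [F_n, F_n]` and whose elements are fixed by all
transvections is not finitely generated. -/
theorem closure_not_fg (hm : 1 ≤ m) (hn : 2 ≤ n) (C : Subgroup (G m n))
    (h1 : ∀ w ∈ commutator (FreeGroup (Fin n)), ((1, w) : G m n) ∈ C)
    (h2 : ∀ g ∈ C, ∀ p, transv p g = g) : ¬ C.FG := by
  intro hC
  have h3 : (C.map (MonoidHom.snd (Multiplicative (Fin m → ℤ)) (FreeGroup (Fin n)))).FG :=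
    fg_map _ _ hC
  refine not_fg hn (⟨0, hm⟩ : Fin m) _ ?_ ?_ h3
  · intro w hw
    exact ⟨(1, w), h1 w hw, rfl⟩
  · rintro _ ⟨g, hg, rfl⟩
    have := congrArg Prod.fst (h2 g hg (p0 n m ⟨0, hm⟩))
    have e : g.1 * p0 n m ⟨0, hm⟩ g.2 = g.1 := this
    exact mul_eq_left.1 e

end prod

end Pool.Agent.X269.FixClosure
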