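import Mathlib

set_option autoImplicit false

/-!
The circle as a double cover of itself, and piecewise isometries of the circle.
-/

namespace Pool.Agent.X269.Circle

open Equiv Topology

/-- the circle `ℝ/ℤ` -/
abbrev S : Type := AddCircle (1 : ℝ)

/-- the point `1/2` -/
noncomputable def hp : S := ((1 / 2 : ℝ) : S)

/-- the representative in `[0, 1)` -/
noncomputable def rep (x : S) : ℝ := (AddCircle.equivIco 1 0 x : ℝ)

theorem rep_mem (x : S) : 0 ≤ rep x ∧ rep x < 1 := by
  have := (AddCircle.equivIco (1 : ℝ) 0 x).2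
  simpa [rep] using this

theorem coe_rep (x : S) : ((rep x : ℝ) : S) = x := AddCircle.coe_equivIco

theorem rep_coe (r : ℝ) (h : 0 ≤ r ∧ r < 1) : rep (r : S) = r := by
  unfold rep
  rw [AddCircle.equivIco_coe_of_mem]
  simpa using h

/-- the half of the circle a point lies in -/
noncomputable def hf (x : S) : ZMod 2 := if rep x < 1 / 2 then 0 else 1

theorem coe_eq_iff (r s : ℝ) : ((r : ℝ) : S) = (s : S) ↔ ∃ n : ℤ, (n : ℝ) = r - s := by
  rw [← sub_eq_zero, ← AddCircle.coe_sub, AddCircle.coe_eq_zero_iff]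
  simp

theorem hp_add_hp : hp + hp = 0 := by
  unfold hp
  rw [← AddCircle.coe_add]
  norm_num

theorem hf_add_hp (x : S) : hf (x + hp) = hf x + 1 := by
  obtain ⟨h0, h1⟩ := rep_mem x
  have hx := coe_rep x
  unfold hf
  by_cases h : rep x < 1 / 2
  · have h2 : rep (x + hp) = rep x + 1 / 2 := by
      conv_lhs => rw [← hx]
      unfold hp
      rw [← AddCircle.coe_add]
      exact rep_coe _ ⟨by linarith, by linarith⟩
    rw [h2, if_pos h, if_neg (by linarith)]
    rfl
  · have h2 : rep (x + hp) = rep x - 1 / 2 := by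
      conv_lhs => rw [← hx]
      unfold hp
      rw [← AddCircle.coe_add]
      have : ((rep x + 1 / 2 : ℝ) : S) = ((rep x - 1 / 2 : ℝ) : S) := by
        rw [coe_eq_iff]
        exact ⟨1, by push_cast; ring⟩
      rw [this]
      exact rep_coe _ ⟨by linarith, by linarith⟩
    rw [h2, if_neg h, if_pos (by linarith)]
    decide

/-- the double cover with a trivialisation -/
noncomputable def ef (x : S) : S × ZMod 2 := (x + x, hf x)

theorem ef_injective : Function.Injective ef := by
  intro x y h
  unfold ef at h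
  rw [Prod.mk.injEq] at h
  obtain ⟨h1, h2⟩ := h
  obtain ⟨a0, a1⟩ := rep_mem x
  obtain ⟨b0, b1⟩ := rep_mem y
  rw [← coe_rep x, ← coe_rep y, ← AddCircle.coe_add, ← AddCircle.coe_add, coe_eq_iff] at h1
  obtain ⟨n, hn⟩ := h1
  have hlt : -1 < (n : ℝ) ∧ (n : ℝ) < 1 := by
    unfold hf at h2
    split_ifs at h2 with c1 c2
    · constructor <;> linarith
    · exact absurd h2 (by decide)
    · exact absurd h2 (by decide)
    · constructor <;> linarith
  have hn0 : n = 0 := by
    have h3 : -1 < n := by exact_mod_cast hlt.1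
    have h4 : n < 1 := by exact_mod_cast hlt.2
    omega
  rw [hn0] at hn
  rw [← coe_rep x, ← coe_rep y]
  congr 1
  push_cast at hn
  linarith

theorem ef_surjective : Function.Surjective ef := by
  rintro ⟨y, i⟩
  obtain ⟨h0, h1⟩ := rep_mem y
  have key : ∀ j : ZMod 2, j = 0 ∨ j = 1 := by decide
  rcases key i with rfl | rfl
  · refine ⟨((rep y / 2 : ℝ) : S), ?_⟩
    unfold ef hf
    rw [rep_coe _ ⟨by linarith, by linarith⟩, if_pos (by linarith), ← AddCircle.coe_add]
    congr 1
    rw [add_halves, coe_rep]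
  · refine ⟨((rep y / 2 + 1 / 2 : ℝ) : S), ?_⟩
    unfold ef hf
    rw [rep_coe _ ⟨by linarith, by linarith⟩, if_neg (by linarith), ← AddCircle.coe_add]
    congr 1
    have h2 := coe_rep y
    conv_rhs => rw [← h2]
    rw [coe_eq_iff]
    exact ⟨1, by push_cast; ring⟩

/-- the bijection between the circle and two circles -/
noncomputable def e : S ≃ S × ZMod 2 := Equiv.ofBijective ef ⟨ef_injective, ef_surjective⟩

theorem e_apply (x : S) : e x = (x + x, hf x) := rfl

theorem hf_locConst (x : S) (h0 : x ≠ 0) (h1 : x ≠ hp) : ∀ᶠ y in 𝓝 x, hf y = hf x := by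
  have hc : ContinuousAt rep x := by
    have := AddCircle.continuousAt_equivIco (1 : ℝ) 0 (x := x) (by simpa using h0)
    exact continuous_subtype_val.continuousAt.comp this
  have hne : rep x ≠ 1 / 2 := by
    intro h
    apply h1
    rw [← coe_rep x, h]
    rfl
  rcases lt_or_gt_of_ne hne with h | h
  · have h2 := hc.eventually_lt continuousAt_const h
    filter_upwards [h2] with y hy
    unfold hf
    rw [if_pos hy, if_pos h]
  · have h2 := continuousAt_const.eventually_lt hc h
    filter_upwards [h2] with y hy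
    unfold hf
    rw [if_neg (not_lt.2 hy.le), if_neg (not_lt.2 h.le)]

theorem exists_half (d : S) : ∃ c : S, c + c = d := by
  refine ⟨((rep d / 2 : ℝ) : S), ?_⟩
  rw [← AddCircle.coe_add, add_halves, coe_rep]

theorem dbl_preimage (U : Set S) (hU : U.Finite) : {x : S | x + x ∈ U}.Finite := by
  have h1 : (e.symm '' (U ×ˢ (Set.univ : Set (ZMod 2)))).Finite :=
    (hU.prod Set.finite_univ).image _
  refine h1.subset ?_
  intro x hx
  refine ⟨e x, ⟨hx, trivial⟩, by simp⟩

/-! ### piecewise isometries -/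

/-- off a finite set the map is locally of the form `x ↦ x + c` or `x ↦ -x + c` -/
def PI (f : S → S) : Prop :=
  ∃ E : Set S, E.Finite ∧ ∀ x ∉ E, ∃ c : S,
    (∀ᶠ y in 𝓝 x, f y = y + c) ∨ (∀ᶠ y in 𝓝 x, f y = -y + c)

theorem PI.continuous {f : S → S} (h : PI f) : {x | ¬ ContinuousAt f x}.Finite := by
  obtain ⟨E, hE, h⟩ := h
  refine hE.subset ?_
  intro x hx
  by_contra hxE
  apply hx
  obtain ⟨c, h | h⟩ := h x hxE
  · exact ContinuousAt.congr (by fun_prop) (Filter.EventuallyEq.symm h)
  · exact ContinuousAt.congr (by fun_prop) (Filter.EventuallyEq.symm h)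

theorem PI.comp {f g : S → S} (hf : PI f) (hg : PI g) (hinj : Function.Injective g) :
    PI (f ∘ g) := by
  have hgc := hg.continuous
  obtain ⟨E, hE, hf⟩ := hf
  obtain ⟨D, hD, hg⟩ := hg
  refine ⟨D ∪ {x | ¬ ContinuousAt g x} ∪ g ⁻¹' E, (hD.union hgc).union
    (hE.preimage hinj.injOn), ?_⟩
  intro x hx
  simp only [Set.mem_union, Set.mem_ofPred_eq, Set.mem_preimage, not_or, not_not] at hx
  obtain ⟨⟨hxD, hxc⟩, hxE⟩ := hx
  obtain ⟨c, hc⟩ := hf (g x) hxE
  obtain ⟨d, hd⟩ := hg x hxD
  rcases hc with hc | hc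
  · have hc' := hxc.eventually hc
    rcases hd with hd | hd
    · refine ⟨d + c, Or.inl ?_⟩
      filter_upwards [hc', hd] with y h1 h2
      rw [Function.comp_apply, h1, h2, add_assoc]
    · refine ⟨d + c, Or.inr ?_⟩
      filter_upwards [hc', hd] with y h1 h2
      rw [Function.comp_apply, h1, h2, add_assoc]
  · have hc' := hxc.eventually hc
    rcases hd with hd | hd
    · refine ⟨-d + c, Or.inr ?_⟩
      filter_upwards [hc', hd] with y h1 h2
      rw [Function.comp_apply, h1, h2, neg_add, add_assoc]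
    · refine ⟨-d + c, Or.inl ?_⟩
      filter_upwards [hc', hd] with y h1 h2
      rw [Function.comp_apply, h1, h2, neg_add, neg_neg, add_assoc]

theorem PI.id : PI (fun x => x) := ⟨∅, Set.finite_empty, fun _ _ => ⟨0, Or.inl (by simp)⟩⟩

/-- the points of order two -/
noncomputable def ιo (i : ZMod 2) : S := if i = 0 then 0 else hp

theorem ι_facts (i : ZMod 2) : ιo i + ιo i = 0 ∧ ∀ x, hf (x + ιo i) = hf x + i := by
  have key : ∀ j : ZMod 2, j = 0 ∨ j = 1 := by decide
  rcases key i with rfl | rfl
  · simp [ιo]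
  · constructor
    · simp [ιo, hp_add_hp]
    · intro x
      have : ιo 1 = hp := by
        unfold ιo
        rw [if_neg (by decide)]
      rw [this, hf_add_hp]

theorem zz (i : ZMod 2) : i + i = 0 := by revert i; decide

/-- skew maps over `x ↦ ± x + d` are piecewise isometries of the circle -/
theorem PI_of_skew (f : S → S) (ε : ℤ) (hε : ε = 1 ∨ ε = -1) (d : S) (u : S → ZMod 2) (U : Set S)
    (hU : U.Finite) (hu : ∀ y ∉ U, ∀ᶠ y' in 𝓝 y, u y' = u y)
    (h : ∀ x, e (f x) = (ε • (x + x) + d, hf x + u (x + x))) : PI f := by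
  obtain ⟨c, hc⟩ := exists_half d
  have hform : ∀ x, f x = ε • x + c + ιo (hf x + u (x + x) + hf (ε • x + c)) := by
    intro x
    apply e.injective
    rw [h x, e_apply]
    have h1 := (ι_facts (hf x + u (x + x) + hf (ε • x + c))).1
    have h2 := (ι_facts (hf x + u (x + x) + hf (ε • x + c))).2 (ε • x + c)
    rw [h2]
    ext1
    · simp only
      have : ∀ a b g : S, g + g = 0 → a + b + g + (a + b + g) = (a + a) + (b + b) := by
        intro a b g hg
        calc a + b + g + (a + b + g) = (a + a) + (b + b) + (g + g) := by abel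
          _ = _ := by rw [hg, add_zero]
      rw [this _ _ _ h1, hc, smul_add]
    · simp only
      have h3 := zz (hf (ε • x + c))
      calc hf x + u (x + x) = hf x + u (x + x) + (hf (ε • x + c) + hf (ε • x + c)) := by
            rw [h3, add_zero]
        _ = _ := by ring
  have hinj : Function.Injective fun x : S => ε • x + c := by
    intro x y hxy
    rcases hε with rfl | rfl
    · simpa using hxy
    · simpa using hxy
  have hcont : Continuous fun x : S => ε • x + c := by
    rcases hε with rfl | rfl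
    · simp only [one_smul]; fun_prop
    · simp only [neg_smul, one_smul]; fun_prop
  have hfin2 : ({0, hp} : Set S).Finite := by simp
  refine ⟨{0, hp} ∪ {x | x + x ∈ U} ∪ (fun x : S => ε • x + c) ⁻¹' {0, hp},
    ((hfin2.union (dbl_preimage U hU)).union (hfin2.preimage hinj.injOn)), ?_⟩
  intro x hx
  simp only [Set.mem_union, Set.mem_insert_iff, Set.mem_singleton_iff, Set.mem_ofPred_eq,
    Set.mem_preimage, not_or] at hx
  obtain ⟨⟨⟨a1, a2⟩, a3⟩, a4, a5⟩ := hx
  have b1 := hf_locConst x a1 a2
  have b2 : ∀ᶠ y in 𝓝 x, u (y + y) = u (x + x) := by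
    have hc2 : ContinuousAt (fun y : S => y + y) x := by fun_prop
    exact hc2.eventually (hu (x + x) a3)
  have b3 : ∀ᶠ y in 𝓝 x, hf (ε • y + c) = hf (ε • x + c) :=
    hcont.continuousAt.eventually (hf_locConst _ a4 a5)
  refine ⟨c + ιo (hf x + u (x + x) + hf (ε • x + c)), ?_⟩
  rcases hε with rfl | rfl
  · left
    filter_upwards [b1, b2, b3] with y c1 c2 c3
    rw [hform y, c1, c2, c3, one_smul, add_assoc]
  · right
    filter_upwards [b1, b2, b3] with y c1 c2 c3
    rw [hform y, c1, c2, c3, neg_smul, one_smul, add_assoc]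

end Pool.Agent.X269.Circle
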