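import Mathlib

set_option autoImplicit false

/-!
Rigidity of near actions of `ℤ²` that agree, off finite sets, with a free action.
-/

namespace Pool.Agent.X269.NearRigid

open Equiv

/-- a function on `ℤ²` which changes its value along finitely many edges only is constant off a
finite set -/
theorem one_end {X : Type*} (k : ℤ × ℤ → X) (h1 : {p : ℤ × ℤ | k (p.1 + 1, p.2) ≠ k p}.Finite)
    (h2 : {p : ℤ × ℤ | k (p.1, p.2 + 1) ≠ k p}.Finite) : ∃ x, {p | k p ≠ x}.Finite := by
  obtain ⟨u, hu⟩ := (h1.union h2).bddAbove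
  obtain ⟨l, hl⟩ := (h1.union h2).bddBelow
  obtain ⟨N, hN⟩ : ∃ N : ℤ, ∀ p : ℤ × ℤ, (k (p.1 + 1, p.2) ≠ k p ∨ k (p.1, p.2 + 1) ≠ k p) →
      (-N ≤ p.1 ∧ p.1 ≤ N) ∧ (-N ≤ p.2 ∧ p.2 ≤ N) := by
    refine ⟨|u.1| + |u.2| + |l.1| + |l.2|, fun p hp => ?_⟩
    have a1 := (hu hp).1
    have a2 := (hu hp).2
    have a3 := (hl hp).1
    have a4 := (hl hp).2
    have b1 := abs_nonneg u.1
    have b2 := abs_nonneg u.2
    have b3 := abs_nonneg l.1
    have b4 := abs_nonneg l.2
    have c1 := le_abs_self u.1
    have c2 := le_abs_self u.2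
    have c3 := neg_abs_le l.1
    have c4 := neg_abs_le l.2
    refine ⟨⟨by omega, by omega⟩, ⟨by omega, by omega⟩⟩
  have row : ∀ n : ℤ, (n < -N ∨ N < n) → ∀ m : ℤ, k (m, n) = k (0, n) := by
    intro n hn m
    have step : ∀ m : ℤ, k (m + 1, n) = k (m, n) := by
      intro m
      by_contra hcon
      have := (hN (m, n) (Or.inl hcon)).2
      simp only at this
      omega
    induction m using Int.induction_on with
    | zero => rfl
    | succ i ih => rw [step, ih]
    | pred i ih =>
      rw [← ih, ← step (-(i : ℤ) - 1)]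
      congr 2
      ring
  have col : ∀ m : ℤ, (m < -N ∨ N < m) → ∀ n : ℤ, k (m, n) = k (m, 0) := by
    intro m hm n
    have step : ∀ n : ℤ, k (m, n + 1) = k (m, n) := by
      intro n
      by_contra hcon
      have := (hN (m, n) (Or.inr hcon)).1
      simp only at this
      omega
    induction n using Int.induction_on with
    | zero => rfl
    | succ i ih => rw [step, ih]
    | pred i ih =>
      rw [← ih, ← step (-(i : ℤ) - 1)]
      congr 2
      ring
  have r1 : ∀ n : ℤ, (n < -N ∨ N < n) → ∀ m : ℤ, k (m, n) = k (N + 1, 0) := by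
    intro n hn m
    rw [row n hn m, ← row n hn (N + 1), col (N + 1) (Or.inr (by omega)) n]
  have r2 : ∀ m : ℤ, (m < -N ∨ N < m) → ∀ n : ℤ, k (m, n) = k (N + 1, 0) := by
    intro m hm n
    rw [col m hm n, ← col m hm (N + 1), r1 (N + 1) (Or.inr (by omega)) m]
  refine ⟨k (N + 1, 0), (Set.finite_Icc ((-N, -N) : ℤ × ℤ) (N, N)).subset ?_⟩
  rintro ⟨m, n⟩ hp
  simp only [Set.mem_ofPred_eq] at hp
  have c1 : ¬ (m < -N ∨ N < m) := fun h => hp (r2 m h n)
  have c2 : ¬ (n < -N ∨ N < n) := fun h => hp (r1 n h m)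
  refine ⟨⟨?_, ?_⟩, ⟨?_, ?_⟩⟩ <;> simp only <;> omega

/-- the element `a^m b^n` -/
def ac {X : Type*} (a b : Perm X) (p : ℤ × ℤ) : Perm X := a ^ p.1 * b ^ p.2

theorem ac_add {X : Type*} (a b : Perm X) (h : Commute a b) (p q : ℤ × ℤ) :
    ac a b (p + q) = ac a b p * ac a b q := by
  unfold ac
  have h1 : Commute (b ^ p.2) (a ^ q.1) := (h.symm.zpow_zpow _ _)
  rw [Prod.fst_add, Prod.snd_add, zpow_add, zpow_add, mul_assoc, mul_assoc, ← mul_assoc (a ^ q.1),
    ← h1.eq, mul_assoc]

theorem ac_zero {X : Type*} (a b : Perm X) : ac a b 0 = 1 := by simp [ac]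

section

variable {X : Type*} (a b A B : Perm X) (hab : Commute a b) (hAB : Commute A B)
  (hA : {x | A x ≠ a x}.Finite) (hB : {x | B x ≠ b x}.Finite)
  (free : ∀ (p : ℤ × ℤ) (x : X), ac a b p x = x → p = 0)

include hab free in
theorem orb_inj (y : X) : Function.Injective fun p => ac a b p y := by
  intro p q hpq
  have h1 : ac a b (p - q) y = y := by
    have h2 : ac a b (p - q) = (ac a b q)⁻¹ * ac a b p := by
      have h3 : ac a b p = ac a b q * ac a b (p - q) := by
        rw [← ac_add a b hab]
        congr 1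
        abel
      rw [h3]
      group
    rw [h2, Perm.mul_apply, Perm.inv_eq_iff_eq]
    exact hpq
  exact sub_eq_zero.1 (free _ _ h1)

include hab hAB hA hB free in
theorem exists_pt (y : X) : ∃ x, {p | ac A B p x ≠ ac a b p y}.Finite := by
  have hinj := orb_inj a b hab free y
  obtain ⟨x, hx⟩ := one_end (fun p => (ac A B p)⁻¹ (ac a b p y)) (by
    refine (hA.preimage (f := fun p => ac a b p y) hinj.injOn).subset ?_
    intro p hp
    simp only [Set.mem_ofPred_eq, Set.mem_preimage] at hp ⊢
    intro h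
    apply hp
    have e1 : ((p.1 + 1, p.2) : ℤ × ℤ) = (1, 0) + p := by
      ext <;> simp [add_comm]
    have e2 : ∀ a b : Perm X, ac a b (1, 0) = a := by intro a b; simp [ac]
    rw [e1, ac_add a b hab, ac_add A B hAB, e2, e2, mul_inv_rev, Perm.mul_apply, Perm.mul_apply,
      ← h]
    congr 1
    rw [Perm.inv_eq_iff_eq]) (by
    refine (hB.preimage (f := fun p => ac a b p y) hinj.injOn).subset ?_
    intro p hp
    simp only [Set.mem_ofPred_eq, Set.mem_preimage] at hp ⊢
    intro h
    apply hp
    have e1 : ((p.1, p.2 + 1) : ℤ × ℤ) = (0, 1) + p := by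
      ext <;> simp [add_comm]
    have e2 : ∀ a b : Perm X, ac a b (0, 1) = b := by intro a b; simp [ac]
    rw [e1, ac_add a b hab, ac_add A B hAB, e2, e2, mul_inv_rev, Perm.mul_apply, Perm.mul_apply,
      ← h]
    congr 1
    rw [Perm.inv_eq_iff_eq])
  refine ⟨x, hx.subset ?_⟩
  intro p hp
  simp only [Set.mem_ofPred_eq] at hp ⊢
  intro h
  apply hp
  rw [Perm.inv_eq_iff_eq] at h
  exact h.symm

/-- two cofinite subsets of `ℤ²` meet -/
theorem meet (s t : Set (ℤ × ℤ)) (hs : s.Finite) (ht : t.Finite) : ∃ p, p ∉ s ∧ p ∉ t := by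
  obtain ⟨p, hp⟩ := (hs.union ht).exists_notMem
  exact ⟨p, fun h => hp (Or.inl h), fun h => hp (Or.inr h)⟩

include hab hAB hA hB free in
/-- rigidity -/
theorem rigid : ∃ g : X → X, Function.Bijective g ∧
    ∀ y, {p | ac A B p (g y) ≠ ac a b p y}.Finite := by
  choose g hg using exists_pt a b A B hab hAB hA hB free
  have uniq : ∀ y x, {p | ac A B p x ≠ ac a b p y}.Finite → x = g y := by
    intro y x hx
    obtain ⟨p, h1, h2⟩ := meet _ _ hx (hg y)
    simp only [Set.mem_ofPred_eq, not_not] at h1 h2
    exact (ac A B p).injective (h1.trans h2.symm)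
  have inj : Function.Injective g := by
    intro y y' hyy
    obtain ⟨p, h1, h2⟩ := meet _ _ (hg y) (hg y')
    simp only [Set.mem_ofPred_eq, not_not] at h1 h2
    rw [hyy] at h1
    exact (ac a b p).injective (h1.symm.trans h2)
  have equi : ∀ (q : ℤ × ℤ) y, g (ac a b q y) = ac A B q (g y) := by
    intro q y
    symm
    apply uniq
    refine ((hg y).preimage (f := fun p => p + q) (add_left_injective q).injOn).subset ?_
    intro p hp
    simp only [Set.mem_ofPred_eq, Set.mem_preimage] at hp ⊢
    rw [ac_add a b hab, ac_add A B hAB]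
    exact hp
  have hD : {y | g y ≠ y}.Finite := by
    have hBad : ({x | A x ≠ a x} ∪ {x | B x ≠ b x}).Finite := hA.union hB
    refine (hBad.biUnion (t := fun z => (fun q => ac a b q z) ''
      {q | ac A B q (g z) ≠ ac a b q z}) (fun z _ => (hg z).image _)).subset ?_
    intro y hy
    simp only [Set.mem_ofPred_eq] at hy
    -- some point of the orbit is bad
    obtain ⟨p, hp⟩ : ∃ p, ac a b p y ∈ ({x | A x ≠ a x} ∪ {x | B x ≠ b x}) := by
      by_contra hcon
      push Not at hcon
      apply hy
      symm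
      apply uniq
      have hall : ∀ p, ac A B p y = ac a b p y := by
        have hA' : ∀ p, A (ac a b p y) = a (ac a b p y) := by
          intro p
          by_contra h
          exact hcon p (Or.inl h)
        have hB' : ∀ p, B (ac a b p y) = b (ac a b p y) := by
          intro p
          by_contra h
          exact hcon p (Or.inr h)
        have e1 : ∀ (a b : Perm X), Commute a b → ∀ p : ℤ × ℤ,
            ac a b (p.1 + 1, p.2) = a * ac a b p := by
          intro a b h p
          have e1 : ((p.1 + 1, p.2) : ℤ × ℤ) = (1, 0) + p := by ext <;> simp [add_comm]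
          rw [e1, ac_add a b h]
          simp [ac]
        have e2 : ∀ (a b : Perm X), Commute a b → ∀ p : ℤ × ℤ,
            ac a b (p.1, p.2 + 1) = b * ac a b p := by
          intro a b h p
          have e1 : ((p.1, p.2 + 1) : ℤ × ℤ) = (0, 1) + p := by ext <;> simp [add_comm]
          rw [e1, ac_add a b h]
          simp [ac]
        have s1 : ∀ p : ℤ × ℤ, ac A B (p.1 + 1, p.2) y = ac a b (p.1 + 1, p.2) y ↔
            ac A B p y = ac a b p y := by
          intro p
          rw [e1 A B hAB, e1 a b hab, Perm.mul_apply, Perm.mul_apply, ← hA' p]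
          exact A.injective.eq_iff
        have s2 : ∀ p : ℤ × ℤ, ac A B (p.1, p.2 + 1) y = ac a b (p.1, p.2 + 1) y ↔
            ac A B p y = ac a b p y := by
          intro p
          rw [e2 A B hAB, e2 a b hab, Perm.mul_apply, Perm.mul_apply, ← hB' p]
          exact B.injective.eq_iff
        have c1 : ∀ n : ℤ, ac A B (0, n) y = ac a b (0, n) y := by
          intro n
          induction n using Int.induction_on with
          | zero =>
            have : ((0, 0) : ℤ × ℤ) = 0 := rfl
            rw [this, ac_zero, ac_zero]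
          | succ i ih => exact (s2 (0, (i : ℤ))).2 ih
          | pred i ih =>
            apply (s2 (0, -(i : ℤ) - 1)).1
            simpa using ih
        have c2 : ∀ (m n : ℤ), ac A B (m, n) y = ac a b (m, n) y := by
          intro m n
          induction m using Int.induction_on with
          | zero => exact c1 n
          | succ i ih => exact (s1 ((i : ℤ), n)).2 ih
          | pred i ih =>
            apply (s1 (-(i : ℤ) - 1, n)).1
            simpa using ih
        exact fun p => c2 p.1 p.2
      have : {p | ac A B p y ≠ ac a b p y} = ∅ := by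
        ext p
        simp [hall p]
      rw [this]
      exact Set.finite_empty
    have hback : ac a b (-p) (ac a b p y) = y := by
      rw [← Perm.mul_apply, ← ac_add a b hab, neg_add_cancel, ac_zero, Perm.one_apply]
    refine Set.mem_biUnion hp ⟨-p, ?_, hback⟩
    simp only [Set.mem_ofPred_eq]
    rw [← equi, hback]
    exact hy
  refine ⟨g, ⟨inj, ?_⟩, hg⟩
  intro y
  by_contra hy
  push Not at hy
  have hmaps : Set.MapsTo g {y | g y ≠ y} {y | g y ≠ y} := by
    intro t ht h
    exact ht (inj h)
  have hyD : y ∈ {y | g y ≠ y} := fun h => hy y h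
  have hbij := (Set.Finite.injOn_iff_bijOn_of_mapsTo hD hmaps).1 inj.injOn
  obtain ⟨t, _, ht⟩ := hbij.surjOn hyD
  exact hy t ht

include hab in
/-- elements normalising the action are carried along -/
theorem carry (g : X → X) (hg : ∀ y, {p | ac A B p (g y) ≠ ac a b p y}.Finite)
    (free : ∀ (p : ℤ × ℤ) (x : X), ac a b p x = x → p = 0)
    (C c : Perm X) (hC : {x | C x ≠ c x}.Finite) (e : (ℤ × ℤ) ≃ (ℤ × ℤ))
    (h1 : ∀ q, C * ac A B q = ac A B (e q) * C) (h2 : ∀ q, c * ac a b q = ac a b (e q) * c) (y : X) :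
    C (g y) = g (c y) := by
  have hinj := orb_inj a b hab free y
  have hfin : {q | ac A B (e q) (C (g y)) ≠ ac a b (e q) (c y)}.Finite := by
    refine ((hg y).union (hC.preimage (f := fun p => ac a b p y) hinj.injOn)).subset ?_
    intro q hq
    simp only [Set.mem_ofPred_eq, Set.mem_preimage, Set.mem_union] at hq ⊢
    by_contra hcon
    push Not at hcon
    apply hq
    rw [← Perm.mul_apply, ← h1, ← Perm.mul_apply, ← h2, Perm.mul_apply, Perm.mul_apply, hcon.1,
      hcon.2]
  have hfin2 : {p | ac A B p (C (g y)) ≠ ac a b p (c y)}.Finite := by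
    refine (hfin.image e).subset ?_
    intro p hp
    refine ⟨e.symm p, ?_, by simp⟩
    simp only [Set.mem_ofPred_eq, Equiv.apply_symm_apply]
    exact hp
  obtain ⟨p, h3, h4⟩ := meet _ _ hfin2 (hg (c y))
  simp only [Set.mem_ofPred_eq, not_not] at h3 h4
  exact (ac A B p).injective (h3.trans h4.symm)

end

end Pool.Agent.X269.NearRigid
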