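import Mathlib
import Pool.Agent.X269.Circle
import Pool.Agent.X269.NearRigid

set_option autoImplicit false

/-!
Skew permutations of two circles.
-/

namespace Pool.Agent.X269.Skew

open Equiv Topology Pool.Agent.X269.Circle Pool.Agent.X269.NearRigid

/-- two circles -/
abbrev X : Type := S × ZMod 2

/-- skew permutations over `y ↦ ± y + d` -/
def IsSk (g : Perm X) (ε : ℤ) (d : S) (u : S → ZMod 2) : Prop :=
  (ε = 1 ∨ ε = -1) ∧ ∀ y i, g (y, i) = (ε • y + d, i + u y)

theorem IsSk.mul {g h : Perm X} {ε ε' : ℤ} {d d' : S} {u u' : S → ZMod 2} (hg : IsSk g ε d u)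
    (hh : IsSk h ε' d' u') :
    IsSk (g * h) (ε * ε') (ε • d' + d) (fun y => u' y + u (ε' • y + d')) := by
  refine ⟨?_, fun y i => ?_⟩
  · rcases hg.1 with h1 | h1 <;> rcases hh.1 with h2 | h2 <;> simp [h1, h2]
  · rw [Perm.mul_apply, hh.2, hg.2]
    ext1
    · simp only
      rw [smul_add, mul_smul, add_assoc]
    · simp only
      rw [add_assoc]

theorem sq_one {ε : ℤ} (h : ε = 1 ∨ ε = -1) : ε * ε = 1 := by
  rcases h with rfl | rfl <;> rfl

theorem IsSk.inv {g : Perm X} {ε : ℤ} {d : S} {u : S → ZMod 2} (hg : IsSk g ε d u) :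
    IsSk g⁻¹ ε (-(ε • d)) (fun y => u (ε • y + -(ε • d))) := by
  refine ⟨hg.1, fun y i => ?_⟩
  rw [Perm.inv_eq_iff_eq, hg.2]
  ext1
  · simp only
    rw [smul_add, smul_neg, ← mul_smul, ← mul_smul, sq_one hg.1]
    simp
  · simp only
    rw [add_assoc, zz, add_zero]

/-- all skew permutations -/
def W0 : Subgroup (Perm X) where
  carrier := {g | ∃ ε d u, IsSk g ε d u}
  mul_mem' := by
    rintro g h ⟨ε, d, u, h1⟩ ⟨ε', d', u', h2⟩
    exact ⟨_, _, _, h1.mul h2⟩
  one_mem' := ⟨1, 0, 0, Or.inl rfl, fun y i => by simp⟩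
  inv_mem' := by
    rintro g ⟨ε, d, u, h1⟩
    exact ⟨_, _, _, h1.inv⟩

/-- skew permutations over translations -/
def W1 : Subgroup (Perm X) where
  carrier := {g | ∃ d u, IsSk g 1 d u}
  mul_mem' := by
    rintro g h ⟨d, u, h1⟩ ⟨d', u', h2⟩
    have := h1.mul h2
    exact ⟨_, _, this⟩
  one_mem' := ⟨0, 0, Or.inl rfl, fun y i => by simp⟩
  inv_mem' := by
    rintro g ⟨d, u, h1⟩
    exact ⟨_, _, h1.inv⟩

/-- skew permutations over the identity -/
def W2 : Subgroup (Perm X) where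
  carrier := {g | ∃ u, IsSk g 1 0 u}
  mul_mem' := by
    rintro g h ⟨u, h1⟩ ⟨u', h2⟩
    have := h1.mul h2
    rw [smul_zero, add_zero] at this
    exact ⟨_, this⟩
  one_mem' := ⟨0, Or.inl rfl, fun y i => by simp⟩
  inv_mem' := by
    rintro g ⟨u, h1⟩
    have := h1.inv
    rw [smul_zero, neg_zero] at this
    exact ⟨_, this⟩

open scoped commutatorElement

theorem comm01 (g h : Perm X) (hg : g ∈ W0) (hh : h ∈ W0) : ⁅g, h⁆ ∈ W1 := by
  obtain ⟨ε, d, u, h1⟩ := hg
  obtain ⟨ε', d', u', h2⟩ := hh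
  have h3 := ((h1.mul h2).mul h1.inv).mul h2.inv
  have h4 : ε * ε' * ε * ε' = 1 := by
    have a := sq_one h1.1
    have b := sq_one h2.1
    calc ε * ε' * ε * ε' = (ε * ε) * (ε' * ε') := by ring
      _ = 1 := by rw [a, b]; rfl
  rw [h4] at h3
  exact ⟨_, _, h3⟩

theorem comm12 (g h : Perm X) (hg : g ∈ W1) (hh : h ∈ W1) : ⁅g, h⁆ ∈ W2 := by
  obtain ⟨d, u, h1⟩ := hg
  obtain ⟨d', u', h2⟩ := hh
  have h3 := ((h1.mul h2).mul h1.inv).mul h2.inv
  simp only [mul_one, one_smul] at h3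
  have h4 : -d' + (-d + (d' + d)) = 0 := by abel
  rw [h4] at h3
  exact ⟨_, h3⟩

theorem comm23 (g h : Perm X) (hg : g ∈ W2) (hh : h ∈ W2) : ⁅g, h⁆ = 1 := by
  obtain ⟨u, h1⟩ := hg
  obtain ⟨u', h2⟩ := hh
  rw [commutatorElement_eq_one_iff_mul_comm]
  ext1 ⟨y, i⟩
  rw [Perm.mul_apply, Perm.mul_apply, h1.2, h2.2, h1.2, h2.2]
  ext1
  · simp
  · simp only [one_smul, add_zero]
    ring

theorem W0_solvable : Group.IsSolvable W0 := by
  rw [Group.isSolvable_def]
  refine ⟨3, ?_⟩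
  have d1 : derivedSeries W0 1 ≤ W1.subgroupOf W0 := by
    rw [derivedSeries_succ, derivedSeries_zero, Subgroup.commutator_le]
    intro g _ h _
    exact comm01 g h g.2 h.2
  have d2 : derivedSeries W0 2 ≤ W2.subgroupOf W0 := by
    rw [derivedSeries_succ, Subgroup.commutator_le]
    intro g hg h hh
    exact comm12 g h (d1 hg) (d1 hh)
  rw [eq_bot_iff, derivedSeries_succ, Subgroup.commutator_le]
  intro g hg h hh
  exact Subtype.ext (comm23 g h (d2 hg) (d2 hh))

/-! ### the generators -/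

/-- translation of both circles -/
def τ (d : S) : Perm X where
  toFun x := (x.1 + d, x.2)
  invFun x := (x.1 - d, x.2)
  left_inv x := by simp
  right_inv x := by simp

/-- reflection of both circles -/
def ν : Perm X where
  toFun x := (-x.1, x.2)
  invFun x := (-x.1, x.2)
  left_inv x := by simp
  right_inv x := by simp

/-- exchange of the two circles -/
def ζ : Perm X where
  toFun x := (x.1, x.2 + 1)
  invFun x := (x.1, x.2 - 1)
  left_inv x := by simp
  right_inv x := by simp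

/-- exchange of the two circles over one half -/
noncomputable def κ : Perm X where
  toFun x := (x.1, x.2 + hf x.1)
  invFun x := (x.1, x.2 - hf x.1)
  left_inv x := by simp
  right_inv x := by simp

theorem sk_τ (d : S) : IsSk (τ d) 1 d 0 := ⟨Or.inl rfl, fun y i => by simp [τ]⟩

theorem sk_ν : IsSk ν (-1) 0 0 := ⟨Or.inr rfl, fun y i => by simp [ν]⟩

theorem sk_ζ : IsSk ζ 1 0 1 := ⟨Or.inl rfl, fun y i => by simp [ζ]⟩

theorem sk_κ : IsSk κ 1 0 hf := ⟨Or.inl rfl, fun y i => by simp [κ]⟩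

/-- transport to the circle -/
noncomputable def tr : Perm X ≃* Perm S := e.symm.permCongrHom

theorem tr_apply (g : Perm X) (x : S) : tr g x = e.symm (g (e x)) := rfl

theorem e_tr (g : Perm X) (x : S) : e (tr g x) = g (e x) := by
  rw [tr_apply, Equiv.apply_symm_apply]

theorem PI_tr (g : Perm X) (ε : ℤ) (d : S) (u : S → ZMod 2) (hg : IsSk g ε d u) (U : Set S)
    (hU : U.Finite) (hu : ∀ y ∉ U, ∀ᶠ y' in 𝓝 y, u y' = u y) : PI (tr g) :=
  PI_of_skew _ ε hg.1 d u U hU hu fun x => by rw [e_tr, e_apply, hg.2]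

/-- piecewise isometric together with the inverse -/
def PI2 (f : Perm S) : Prop := PI f ∧ PI (f⁻¹ : Perm S)

theorem PI2_τ (d : S) : PI2 (tr (τ d)) := by
  refine ⟨PI_tr _ _ _ _ (sk_τ d) ∅ Set.finite_empty (fun y _ => by simp), ?_⟩
  rw [← map_inv]
  exact PI_tr _ _ _ _ (sk_τ d).inv ∅ Set.finite_empty (fun y _ => by simp)

theorem PI2_ν : PI2 (tr ν) := by
  refine ⟨PI_tr _ _ _ _ sk_ν ∅ Set.finite_empty (fun y _ => by simp), ?_⟩
  rw [← map_inv]
  exact PI_tr _ _ _ _ sk_ν.inv ∅ Set.finite_empty (fun y _ => by simp)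

theorem PI2_ζ : PI2 (tr ζ) := by
  refine ⟨PI_tr _ _ _ _ sk_ζ ∅ Set.finite_empty (fun y _ => by simp), ?_⟩
  rw [← map_inv]
  exact PI_tr _ _ _ _ sk_ζ.inv ∅ Set.finite_empty (fun y _ => by simp)

theorem PI2_κ : PI2 (tr κ) := by
  have h : ∀ y ∉ ({0, hp} : Set S), ∀ᶠ y' in 𝓝 y, hf y' = hf y := by
    intro y hy
    simp only [Set.mem_insert_iff, Set.mem_singleton_iff, not_or] at hy
    exact hf_locConst y hy.1 hy.2
  refine ⟨PI_tr _ _ _ _ sk_κ {0, hp} (by simp) h, ?_⟩
  rw [← map_inv]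
  refine PI_tr _ _ _ _ sk_κ.inv {0, hp} (by simp) ?_
  simpa using h

/-! ### relations -/

theorem ac_τ (a b : S) (p : ℤ × ℤ) (x : X) :
    ac (τ a) (τ b) p x = (x.1 + (p.1 • a + p.2 • b), x.2) := by
  have h : ∀ (a : S) (n : ℤ) (x : X), (τ a ^ n) x = (x.1 + n • a, x.2) := by
    intro a n
    induction n using Int.induction_on with
    | zero => intro x; simp
    | succ i ih =>
      intro x
      rw [zpow_add_one, Perm.mul_apply, ih]
      simp only [τ, Equiv.coe_fn_mk, add_smul, one_smul]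
      ext1
      · simp only; abel
      · rfl
    | pred i ih =>
      intro x
      rw [zpow_sub_one, Perm.mul_apply, ih]
      have : (τ a)⁻¹ x = (x.1 - a, x.2) := rfl
      rw [this]
      simp only [sub_smul, one_smul]
      ext1
      · simp only; abel
      · rfl
  unfold ac
  rw [Perm.mul_apply, h, h]
  ext1
  · simp only; abel
  · rfl

theorem hf_neg (y : S) (h0 : y ≠ 0) (h1 : y ≠ hp) : hf y + hf (-y) = 1 := by
  obtain ⟨a0, a1⟩ := rep_mem y
  have hy := coe_rep y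
  have h0' : rep y ≠ 0 := by
    intro h
    apply h0
    rw [← hy, h]
    rfl
  have h1' : rep y ≠ 1 / 2 := by
    intro h
    apply h1
    rw [← hy, h]
    rfl
  have hr : rep (-y) = 1 - rep y := by
    conv_lhs => rw [← hy]
    rw [← AddCircle.coe_neg]
    have : ((-rep y : ℝ) : S) = ((1 - rep y : ℝ) : S) := by
      rw [coe_eq_iff]
      exact ⟨-1, by push_cast; ring⟩
    rw [this]
    have h2 : 0 < rep y := lt_of_le_of_ne a0 (Ne.symm h0')
    exact rep_coe _ ⟨by linarith, by linarith⟩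
  unfold hf
  rw [hr]
  rcases lt_or_gt_of_ne h1' with h | h
  · rw [if_pos h, if_neg (by linarith)]
    rfl
  · rw [if_neg (by linarith), if_pos (by linarith)]
    rfl

theorem rel_fin : {x : X | (ν⁻¹ * κ * ν * κ⁻¹) x ≠ ζ x}.Finite := by
  have hfin : (({0, hp} : Set S) ×ˢ (Set.univ : Set (ZMod 2))).Finite :=
    Set.Finite.prod (by simp) Set.finite_univ
  refine hfin.subset ?_
  rintro ⟨y, i⟩ hx
  simp only [Set.mem_ofPred_eq] at hx
  by_contra hcon
  apply hx
  simp only [Set.mem_prod, Set.mem_insert_iff, Set.mem_singleton_iff, Set.mem_univ, and_true,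
    not_or] at hcon
  have h1 := hf_neg y hcon.1 hcon.2
  have h2 : (ν⁻¹ * κ * ν * κ⁻¹) (y, i) = (- -y, i - hf y + hf (-y)) := rfl
  have h3 : ζ (y, i) = (y, i + 1) := rfl
  rw [h2, h3, neg_neg]
  ext1
  · rfl
  · simp only
    rw [← h1, sub_eq_add_neg, ZMod.neg_eq_self_mod_two]
    ring

theorem νζ_free (x : X) : (ν * ζ) x ≠ x := by
  obtain ⟨y, i⟩ := x
  have h : (ν * ζ) (y, i) = (-y, i + 1) := rfl
  rw [h]
  intro h1
  have h2 := congrArg Prod.snd h1
  simp at h2

theorem ντ (d : S) : ν * τ d = (τ d)⁻¹ * ν := by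
  ext1 ⟨y, i⟩
  have h1 : (ν * τ d) (y, i) = (-(y + d), i) := rfl
  have h2 : ((τ d)⁻¹ * ν) (y, i) = (-y - d, i) := rfl
  rw [h1, h2]
  ext1
  · simp only; abel
  · rfl

theorem ζτ (d : S) : ζ * τ d = τ d * ζ := rfl

theorem ττ (d d' : S) : τ d * τ d' = τ d' * τ d := by
  ext1 ⟨y, i⟩
  have h1 : (τ d * τ d') (y, i) = (y + d' + d, i) := rfl
  have h2 : (τ d' * τ d) (y, i) = (y + d + d', i) := rfl
  rw [h1, h2]
  ext1
  · simp only; abel
  · rfl

/-- two rationally independent rotations -/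
theorem indep (p : ℤ × ℤ) (h : p.1 • ((√2 : ℝ) : S) + p.2 • ((√3 : ℝ) : S) = 0) : p = 0 := by
  obtain ⟨m, n⟩ := p
  simp only at h
  rw [← AddCircle.coe_zsmul, ← AddCircle.coe_zsmul, ← AddCircle.coe_add,
    AddCircle.coe_eq_zero_iff] at h
  obtain ⟨k, hk⟩ := h
  simp only [zsmul_eq_mul, mul_one] at hk
  have h2 : √2 * √2 = 2 := Real.mul_self_sqrt (by norm_num)
  have h3 : √3 * √3 = 3 := Real.mul_self_sqrt (by norm_num)
  have h6 : √2 * √3 = √6 := by
    rw [← Real.sqrt_mul (by norm_num)]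
    norm_num
  have i2 : Irrational √2 := irrational_sqrt_two
  have i3 : Irrational √3 := by
    have := Nat.Prime.irrational_sqrt Nat.prime_three
    simpa using this
  have i6 : Irrational √6 := by
    rw [irrational_sqrt_ofNat_iff]
    rintro ⟨r, hr⟩
    have : r ≤ 2 := by nlinarith
    interval_cases r <;> omega
  have hmn : m * n = 0 := by
    by_contra hne
    have e1 : (k : ℝ) ^ 2 = 2 * m ^ 2 + 3 * n ^ 2 + 2 * (m * n) * √6 := by
      rw [hk, ← h6]
      calc (↑m * √2 + ↑n * √3) ^ 2 = m ^ 2 * (√2 * √2) + n ^ 2 * (√3 * √3) +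
          2 * (m * n) * (√2 * √3) := by ring
        _ = _ := by rw [h2, h3]; ring
    have hne' : (2 * ((m * n : ℤ) : ℝ)) ≠ 0 := by
      have : ((m * n : ℤ) : ℝ) ≠ 0 := by exact_mod_cast hne
      positivity
    apply i6
    refine ⟨(k ^ 2 - 2 * m ^ 2 - 3 * n ^ 2 : ℚ) / (2 * ((m * n : ℤ) : ℚ)), ?_⟩
    push_cast at hne' ⊢
    rw [div_eq_iff hne']
    linarith
  rcases mul_eq_zero.1 hmn with h0 | h0
  · subst h0
    by_cases hn : n = 0
    · rw [hn]; rfl
    · exfalso
      apply i3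
      have hn' : (n : ℝ) ≠ 0 := by exact_mod_cast hn
      refine ⟨(k : ℚ) / n, ?_⟩
      push_cast
      rw [div_eq_iff hn', hk]
      push_cast
      ring
  · subst h0
    by_cases hm : m = 0
    · rw [hm]; rfl
    · exfalso
      apply i2
      have hm' : (m : ℝ) ≠ 0 := by exact_mod_cast hm
      refine ⟨(k : ℚ) / m, ?_⟩
      push_cast
      rw [div_eq_iff hm', hk]
      push_cast
      ring

end Pool.Agent.X269.Skew
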