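import Mathlib

set_option autoImplicit false

/-!
Free abelian subgroups of cactus groups.
-/

namespace Pool.Agent.X269.Cactus

/-- The index set of the generators `s_{p,q}`, `1 ≤ p < q ≤ n`. -/
structure Gen (n : ℕ) where
  p : ℕ
  q : ℕ
  one_le : 1 ≤ p
  lt : p < q
  le : q ≤ n

/-- The defining relators of the cactus group `J_n`: `s_a² = 1`; `s_a s_b = s_b s_a` if the
intervals of `a` and `b` are disjoint; `s_a s_b = s_c s_a` if the interval of `b` is contained in the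
one of `a` and `c` is the mirror image of `b` in `a`. -/
def rels (n : ℕ) : Set (FreeGroup (Gen n)) :=
  {r | ∃ a : Gen n, r = FreeGroup.of a * FreeGroup.of a} ∪
  {r | ∃ a b : Gen n, (a.q < b.p ∨ b.q < a.p) ∧
    r = (FreeGroup.of a * FreeGroup.of b) * (FreeGroup.of b * FreeGroup.of a)⁻¹} ∪
  {r | ∃ a b c : Gen n, a.p ≤ b.p ∧ b.q ≤ a.q ∧ c.p + b.q = a.p + a.q ∧ c.q + b.p = a.p + a.q ∧
    r = (FreeGroup.of a * FreeGroup.of b) * (FreeGroup.of c * FreeGroup.of a)⁻¹}

/-- The cactus group `J_n`. -/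
abbrev J (n : ℕ) : Type := PresentedGroup (rels n)

/-! ### An action on `ℤ³ × ℤ` -/

/-- reversal of the interval `[p, q]` -/
def rv (p q x : ℤ) : ℤ := if p ≤ x ∧ x ≤ q then p + q - x else x

/-- the action on the last coordinate -/
def ph (p q x y z t : ℤ) : ℤ :=
  if (p ≤ x ∧ x ≤ q) ∧ (p ≤ y ∧ y ≤ q) ∧ (p ≤ z ∧ z ≤ q) then 1 - t
  else if ((p ≤ x ∧ x ≤ q) ∧ (p ≤ y ∧ y ≤ q)) ∨ ((p ≤ x ∧ x ≤ q) ∧ (p ≤ z ∧ z ≤ q)) ∨
      ((p ≤ y ∧ y ≤ q) ∧ (p ≤ z ∧ z ≤ q)) then
    (if q < x ∨ q < y ∨ q < z then -t else 2 - t)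
  else t

theorem rv_rv (p q x : ℤ) : rv p q (rv p q x) = x := by
  unfold rv
  split_ifs <;> omega

theorem rv_mem (p q x : ℤ) : (p ≤ rv p q x ∧ rv p q x ≤ q) ↔ (p ≤ x ∧ x ≤ q) := by
  unfold rv
  split_ifs <;> omega

theorem rv_gt (p q x : ℤ) : (q < rv p q x) ↔ (q < x) := by
  unfold rv
  split_ifs <;> omega

/-- the map given by a generator -/
def fn (p q : ℤ) (s : ℤ × ℤ × ℤ × ℤ) : ℤ × ℤ × ℤ × ℤ :=
  (rv p q s.1, rv p q s.2.1, rv p q s.2.2.1, ph p q s.1 s.2.1 s.2.2.1 s.2.2.2)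

theorem fn_fn (p q : ℤ) (s : ℤ × ℤ × ℤ × ℤ) : fn p q (fn p q s) = s := by
  obtain ⟨x, y, z, t⟩ := s
  have : ph p q (rv p q x) (rv p q y) (rv p q z) (ph p q x y z t) = t := by
    unfold ph
    simp only [rv_mem, rv_gt]
    split_ifs <;> ring
  simp only [fn, rv_rv, this]

/-- the permutation given by a generator -/
def act (p q : ℤ) : Equiv.Perm (ℤ × ℤ × ℤ × ℤ) where
  toFun := fn p q
  invFun := fn p q
  left_inv := fn_fn p q
  right_inv := fn_fn p q

theorem act_sq (p q : ℤ) : act p q * act p q = 1 := by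
  ext1 s
  exact fn_fn p q s

theorem act_comm (p q m r : ℤ) (h : q < m) (_ : p ≤ q) (h2 : m ≤ r) :
    act p q * act m r = act m r * act p q := by
  have hrv : ∀ u, rv p q (rv m r u) = rv m r (rv p q u) := by
    intro u
    unfold rv
    split_ifs <;> omega
  have e1 : ∀ u, (p ≤ rv m r u ∧ rv m r u ≤ q) ↔ (p ≤ u ∧ u ≤ q) := by
    intro u
    unfold rv
    split_ifs <;> omega
  have e2 : ∀ u, (q < rv m r u) ↔ (q < u) := by
    intro u
    unfold rv
    split_ifs <;> omega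
  have e3 : ∀ u, (m ≤ rv p q u ∧ rv p q u ≤ r) ↔ (m ≤ u ∧ u ≤ r) := by
    intro u
    unfold rv
    split_ifs <;> omega
  have e4 : ∀ u, (r < rv p q u) ↔ (r < u) := by
    intro u
    unfold rv
    split_ifs <;> omega
  ext1 s
  obtain ⟨x, y, z, t⟩ := s
  show fn p q (fn m r (x, y, z, t)) = fn m r (fn p q (x, y, z, t))
  simp only [fn, hrv, Prod.mk.injEq, true_and]
  unfold ph
  simp only [e1, e2, e3, e4]
  split_ifs <;> omega

theorem act_nested (p q m r m' r' : ℤ) (h1 : p ≤ m) (h2 : m ≤ r) (h3 : r ≤ q)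
    (h4 : m' + r = p + q) (h5 : r' + m = p + q) :
    act p q * act m r = act m' r' * act p q := by
  obtain rfl : m' = p + q - r := by omega
  obtain rfl : r' = p + q - m := by omega
  have hrv : ∀ u, rv p q (rv m r u) = rv (p + q - r) (p + q - m) (rv p q u) := by
    intro u
    unfold rv
    split_ifs <;> omega
  have e1 : ∀ u, (p ≤ rv m r u ∧ rv m r u ≤ q) ↔ (p ≤ u ∧ u ≤ q) := by
    intro u
    unfold rv
    split_ifs <;> omega
  have e2 : ∀ u, (q < rv m r u) ↔ (q < u) := by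
    intro u
    unfold rv
    split_ifs <;> omega
  have e3 : ∀ u, (p + q - r ≤ rv p q u ∧ rv p q u ≤ p + q - m) ↔ (m ≤ u ∧ u ≤ r) := by
    intro u
    unfold rv
    split_ifs <;> omega
  have e4 : ∀ u, (p + q - m < rv p q u) ↔ (q < u ∨ (p ≤ u ∧ u < m)) := by
    intro u
    unfold rv
    split_ifs <;> omega
  ext1 s
  obtain ⟨x, y, z, t⟩ := s
  show fn p q (fn m r (x, y, z, t)) = fn (p + q - r) (p + q - m) (fn p q (x, y, z, t))
  simp only [fn, hrv, Prod.mk.injEq, true_and]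
  unfold ph
  simp only [e1, e2, e3, e4]
  split_ifs <;> omega


/-- the action of the cactus group -/
def Phi (n : ℕ) : J n →* Equiv.Perm (ℤ × ℤ × ℤ × ℤ) :=
  PresentedGroup.toGroup (rels := rels n) (f := fun a : Gen n => act a.p a.q) (by
    rintro r ((⟨a, rfl⟩ | ⟨a, b, h, rfl⟩) | ⟨a, b, c, h1, h2, h3, h4, rfl⟩)
    · simp only [map_mul, FreeGroup.lift_apply_of]
      exact act_sq _ _
    · simp only [map_mul, map_inv, FreeGroup.lift_apply_of]
      have ha := a.lt
      have hb := b.lt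
      rw [mul_inv_eq_one]
      rcases h with h | h
      · exact act_comm _ _ _ _ (by omega) (by omega) (by omega)
      · exact (act_comm _ _ _ _ (by omega) (by omega) (by omega)).symm
    · simp only [map_mul, map_inv, FreeGroup.lift_apply_of]
      have ha := a.lt
      have hb := b.lt
      have hc := c.lt
      rw [mul_inv_eq_one]
      exact act_nested _ _ _ _ _ _ (by omega) (by omega) (by omega) (by omega) (by omega))

/-- the generator `s_{p,q}`, with the value `1` outside the range `1 ≤ p < q ≤ n` -/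
def S (n p q : ℕ) : J n :=
  if h : 1 ≤ p ∧ p < q ∧ q ≤ n then PresentedGroup.of ⟨p, q, h.1, h.2.1, h.2.2⟩ else 1

theorem Phi_S (n p q : ℕ) (h : 1 ≤ p ∧ p < q ∧ q ≤ n) : Phi n (S n p q) = act p q := by
  unfold S Phi
  rw [dif_pos h]
  exact PresentedGroup.toGroup.of _

theorem rel_eq (n : ℕ) (u v : FreeGroup (Gen n)) (h : u * v⁻¹ ∈ rels n) :
    (PresentedGroup.mk (rels n) u) = PresentedGroup.mk (rels n) v := by
  have : PresentedGroup.mk (rels n) (u * v⁻¹) = 1 :=
    PresentedGroup.one_of_mem h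
  rw [map_mul, map_inv, mul_inv_eq_one] at this
  exact this

theorem S_comm (n p q m r : ℕ) (h : q < m) : S n p q * S n m r = S n m r * S n p q := by
  unfold S
  split_ifs with h1 h2 h2
  · refine rel_eq n (FreeGroup.of _ * FreeGroup.of _) (FreeGroup.of _ * FreeGroup.of _) ?_
    exact Or.inl (Or.inr ⟨_, _, Or.inl h, rfl⟩)
  · simp
  · simp
  · simp

theorem S_nested (n p q m r m' r' : ℕ) (h0 : 1 ≤ p) (h1 : p ≤ m) (h2 : m < r) (h3 : r ≤ q)
    (h4 : q ≤ n) (h5 : m' + r = p + q) (h6 : r' + m = p + q) :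
    S n p q * S n m r = S n m' r' * S n p q := by
  unfold S
  rw [dif_pos ⟨h0, by omega, h4⟩, dif_pos ⟨by omega, h2, by omega⟩,
    dif_pos (⟨by omega, by omega, by omega⟩ : 1 ≤ m' ∧ m' < r' ∧ r' ≤ n)]
  refine rel_eq n (FreeGroup.of _ * FreeGroup.of _) (FreeGroup.of _ * FreeGroup.of _) ?_
  exact Or.inr ⟨_, _, _, h1, h3, h5, h6, rfl⟩

/-- the elements `y_b` -/
def Y (n b : ℕ) : J n :=
  S n (b + 1) (b + 2) * (S n 1 (b + 1) * (S n 1 (b + 2) * (S n 1 (b + 1) * S n 1 b)))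

theorem Y_comm_S (n b p q : ℕ) (hb : b + 2 ≤ n) (h0 : 1 ≤ p) (h1 : p < q) (h2 : q ≤ b) :
    Commute (Y n b) (S n p q) := by
  have e1 := S_nested n 1 b p q (b + 1 - q) (b + 1 - p) le_rfl (by omega) h1 h2 (by omega)
    (by omega) (by omega)
  have e2 := S_nested n 1 (b + 1) (b + 1 - q) (b + 1 - p) (p + 1) (q + 1) le_rfl (by omega)
    (by omega) (by omega) (by omega) (by omega) (by omega)
  have e3 := S_nested n 1 (b + 2) (p + 1) (q + 1) (b + 2 - q) (b + 2 - p) le_rfl (by omega)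
    (by omega) (by omega) (by omega) (by omega) (by omega)
  have e4 := S_nested n 1 (b + 1) (b + 2 - q) (b + 2 - p) p q le_rfl (by omega)
    (by omega) (by omega) (by omega) (by omega) (by omega)
  have e5 := S_comm n p q (b + 1) (b + 2) (by omega)
  show Y n b * S n p q = S n p q * Y n b
  unfold Y
  calc _ = S n (b + 1) (b + 2) * (S n 1 (b + 1) * (S n 1 (b + 2) * (S n 1 (b + 1) *
      (S n 1 b * S n p q)))) := by simp only [mul_assoc]
    _ = S n (b + 1) (b + 2) * (S n 1 (b + 1) * (S n 1 (b + 2) * ((S n 1 (b + 1) *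
      S n (b + 1 - q) (b + 1 - p)) * S n 1 b))) := by rw [e1]; simp only [mul_assoc]
    _ = S n (b + 1) (b + 2) * (S n 1 (b + 1) * ((S n 1 (b + 2) * S n (p + 1) (q + 1)) *
      (S n 1 (b + 1) * S n 1 b))) := by rw [e2]; simp only [mul_assoc]
    _ = S n (b + 1) (b + 2) * ((S n 1 (b + 1) * S n (b + 2 - q) (b + 2 - p)) * (S n 1 (b + 2) *
      (S n 1 (b + 1) * S n 1 b))) := by rw [e3]; simp only [mul_assoc]
    _ = (S n (b + 1) (b + 2) * S n p q) * (S n 1 (b + 1) * (S n 1 (b + 2) *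
      (S n 1 (b + 1) * S n 1 b))) := by rw [e4]; simp only [mul_assoc]
    _ = _ := by rw [← e5]; simp only [mul_assoc]

theorem Y_comm_S' (n b p q : ℕ) (hb : b + 2 ≤ n) (h2 : q ≤ b) :
    Commute (Y n b) (S n p q) := by
  by_cases h : 1 ≤ p ∧ p < q ∧ q ≤ n
  · exact Y_comm_S n b p q hb h.1 h.2.1 h2
  · unfold S
    rw [dif_neg h]
    exact Commute.one_right _

theorem Y_comm (n b c : ℕ) (hb : b + 2 ≤ n) (h : c + 2 ≤ b) : Commute (Y n b) (Y n c) := by
  have e := fun p q (h : q ≤ b) => Y_comm_S' n b p q hb h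
  refine (e _ _ (by omega)).mul_right ((e _ _ (by omega)).mul_right ((e _ _ (by omega)).mul_right
    ((e _ _ (by omega)).mul_right (e _ _ (by omega)))))

/-- the state at `b` -/
def st (b : ℕ) (t : ℤ) : ℤ × ℤ × ℤ × ℤ := (1, b + 1, b + 2, t)


/-- one step, with all the values given -/
theorem act_step (n p q : ℕ) (h : 1 ≤ p ∧ p < q ∧ q ≤ n) (x y z t x' y' z' t' : ℤ)
    (hx : rv p q x = x') (hy : rv p q y = y') (hz : rv p q z = z') (ht : ph p q x y z t = t') :
    Phi n (S n p q) (x, y, z, t) = (x', y', z', t') := by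
  rw [Phi_S n p q h]
  show fn p q (x, y, z, t) = _
  simp only [fn, hx, hy, hz, ht]

theorem rv_in {p q x x' : ℤ} (h1 : p ≤ x) (h2 : x ≤ q) (h3 : x + x' = p + q) :
    rv p q x = x' := by
  unfold rv
  rw [if_pos ⟨h1, h2⟩]
  omega

theorem rv_out {p q x : ℤ} (h : ¬ (p ≤ x ∧ x ≤ q)) : rv p q x = x := by
  unfold rv
  rw [if_neg h]

theorem ph3 {p q x y z t t' : ℤ} (h : (p ≤ x ∧ x ≤ q) ∧ (p ≤ y ∧ y ≤ q) ∧ (p ≤ z ∧ z ≤ q))
    (ht : 1 - t = t') : ph p q x y z t = t' := by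
  unfold ph
  rw [if_pos h, ht]

theorem ph2gt {p q x y z t t' : ℤ} (h0 : ¬ ((p ≤ x ∧ x ≤ q) ∧ (p ≤ y ∧ y ≤ q) ∧ (p ≤ z ∧ z ≤ q)))
    (h : ((p ≤ x ∧ x ≤ q) ∧ (p ≤ y ∧ y ≤ q)) ∨ ((p ≤ x ∧ x ≤ q) ∧ (p ≤ z ∧ z ≤ q)) ∨
      ((p ≤ y ∧ y ≤ q) ∧ (p ≤ z ∧ z ≤ q))) (h1 : q < x ∨ q < y ∨ q < z)
    (ht : - t = t') : ph p q x y z t = t' := by
  unfold ph
  rw [if_neg h0, if_pos h, if_pos h1, ht]

theorem ph2lt {p q x y z t t' : ℤ} (h0 : ¬ ((p ≤ x ∧ x ≤ q) ∧ (p ≤ y ∧ y ≤ q) ∧ (p ≤ z ∧ z ≤ q)))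
    (h : ((p ≤ x ∧ x ≤ q) ∧ (p ≤ y ∧ y ≤ q)) ∨ ((p ≤ x ∧ x ≤ q) ∧ (p ≤ z ∧ z ≤ q)) ∨
      ((p ≤ y ∧ y ≤ q) ∧ (p ≤ z ∧ z ≤ q))) (h1 : ¬ (q < x ∨ q < y ∨ q < z))
    (ht : 2 - t = t') : ph p q x y z t = t' := by
  unfold ph
  rw [if_neg h0, if_pos h, if_neg h1, ht]

theorem ph0 {p q x y z t : ℤ}
    (h0 : ¬ ((p ≤ x ∧ x ≤ q) ∧ (p ≤ y ∧ y ≤ q) ∧ (p ≤ z ∧ z ≤ q)))
    (h : ¬ (((p ≤ x ∧ x ≤ q) ∧ (p ≤ y ∧ y ≤ q)) ∨ ((p ≤ x ∧ x ≤ q) ∧ (p ≤ z ∧ z ≤ q)) ∨
      ((p ≤ y ∧ y ≤ q) ∧ (p ≤ z ∧ z ≤ q)))) : ph p q x y z t = t := by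
  unfold ph
  rw [if_neg h0, if_neg h]

theorem step1 (n b : ℕ) (hb : 1 ≤ b) (hn : b + 2 ≤ n) (t : ℤ) :
    Phi n (S n 1 b) (1, b + 1, b + 2, t) = ((b : ℤ), (b : ℤ) + 1, (b : ℤ) + 2, t) := by
  rcases Nat.lt_or_ge 1 b with h | h
  · refine act_step n 1 b ⟨le_rfl, h, by omega⟩ _ _ _ _ _ _ _ _ ?_ ?_ ?_ ?_
    · exact rv_in (by omega) (by omega) (by omega)
    · exact rv_out (by omega)
    · exact rv_out (by omega)
    · unfold ph
      rw [if_neg (by omega), if_neg (by omega)]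
  · obtain rfl : b = 1 := by omega
    unfold S
    rw [dif_neg (by omega)]
    simp

theorem Phi_Y_self (n b : ℕ) (hb : 1 ≤ b) (hn : b + 2 ≤ n) (t : ℤ) :
    Phi n (Y n b) (st b t) = st b (t + 3) := by
  unfold Y st
  simp only [map_mul, Equiv.Perm.mul_apply]
  rw [step1 n b hb hn]
  rw [act_step n 1 (b + 1) ⟨le_rfl, by omega, by omega⟩ b (b + 1) (b + 2) t 2 1 (b + 2) (-t)
    (rv_in (by omega) (by omega) (by omega))
    (rv_in (by omega) (by omega) (by omega))
    (rv_out (by omega))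
    (ph2gt (by omega) (by omega) (by omega) (by ring))]
  rw [act_step n 1 (b + 2) ⟨le_rfl, by omega, by omega⟩ 2 1 (b + 2) (-t) (b + 1) (b + 2) 1 (1 + t)
    (rv_in (by omega) (by omega) (by omega))
    (rv_in (by omega) (by omega) (by omega))
    (rv_in (by omega) (by omega) (by omega))
    (ph3 (by omega) (by ring))]
  rw [act_step n 1 (b + 1) ⟨le_rfl, by omega, by omega⟩ (b + 1) (b + 2) 1 (1 + t) 1 (b + 2) (b + 1)
    (-(1 + t))
    (rv_in (by omega) (by omega) (by omega))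
    (rv_out (by omega))
    (rv_in (by omega) (by omega) (by omega))
    (ph2gt (by omega) (by omega) (by omega) (by ring))]
  rw [act_step n (b + 1) (b + 2) ⟨by omega, by omega, by omega⟩ 1 (b + 2) (b + 1)
    (-(1 + t)) 1 (b + 1) (b + 2) (t + 3)
    (rv_out (by omega))
    (rv_in (by omega) (by omega) (by omega))
    (rv_in (by omega) (by omega) (by omega))
    (ph2lt (by omega) (by omega) (by omega) (by ring))]

theorem Phi_Y_gt (n b c : ℕ) (hb : 1 ≤ b) (hc : b + 2 ≤ c) (hn : c + 2 ≤ n) (t : ℤ) :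
    Phi n (Y n c) (st b t) = st b t := by
  unfold Y st
  simp only [map_mul, Equiv.Perm.mul_apply]
  rw [act_step n 1 c ⟨le_rfl, by omega, by omega⟩ 1 (b + 1) (b + 2) t c (c - b) (c - b - 1) (1 - t)
    (rv_in (by omega) (by omega) (by omega))
    (rv_in (by omega) (by omega) (by omega))
    (rv_in (by omega) (by omega) (by omega))
    (ph3 (by omega) (by ring))]
  rw [act_step n 1 (c + 1) ⟨le_rfl, by omega, by omega⟩ c (c - b) (c - b - 1) (1 - t)
    2 (b + 2) (b + 3) t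
    (rv_in (by omega) (by omega) (by omega))
    (rv_in (by omega) (by omega) (by omega))
    (rv_in (by omega) (by omega) (by omega))
    (ph3 (by omega) (by ring))]
  rw [act_step n 1 (c + 2) ⟨le_rfl, by omega, by omega⟩ 2 (b + 2) (b + 3) t
    (c + 1) (c + 1 - b) (c - b) (1 - t)
    (rv_in (by omega) (by omega) (by omega))
    (rv_in (by omega) (by omega) (by omega))
    (rv_in (by omega) (by omega) (by omega))
    (ph3 (by omega) (by ring))]
  rw [act_step n 1 (c + 1) ⟨le_rfl, by omega, by omega⟩ (c + 1) (c + 1 - b) (c - b) (1 - t)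
    1 (b + 1) (b + 2) t
    (rv_in (by omega) (by omega) (by omega))
    (rv_in (by omega) (by omega) (by omega))
    (rv_in (by omega) (by omega) (by omega))
    (ph3 (by omega) (by ring))]
  rw [act_step n (c + 1) (c + 2) ⟨by omega, by omega, by omega⟩ 1 (b + 1) (b + 2) t
    1 (b + 1) (b + 2) t
    (rv_out (by omega))
    (rv_out (by omega))
    (rv_out (by omega))
    (ph0 (by omega) (by omega))]

theorem Phi_Y_lt (n b c : ℕ) (hc : 1 ≤ c) (hb : c + 2 ≤ b) (hn : b + 2 ≤ n) (t : ℤ) :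
    Phi n (Y n c) (st b t) = st b t := by
  have h1 : Phi n (S n 1 c) (1, b + 1, b + 2, t) = ((c : ℤ), (b : ℤ) + 1, (b : ℤ) + 2, t) := by
    rcases Nat.lt_or_ge 1 c with h | h
    · refine act_step n 1 c ⟨le_rfl, h, by omega⟩ _ _ _ _ _ _ _ _ ?_ ?_ ?_ ?_
      · exact rv_in (by omega) (by omega) (by omega)
      · exact rv_out (by omega)
      · exact rv_out (by omega)
      · unfold ph
        rw [if_neg (by omega), if_neg (by omega)]
    · obtain rfl : c = 1 := by omega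
      unfold S
      rw [dif_neg (by omega)]
      simp
  unfold Y st
  simp only [map_mul, Equiv.Perm.mul_apply]
  rw [h1]
  rw [act_step n 1 (c + 1) ⟨le_rfl, by omega, by omega⟩ c (b + 1) (b + 2) t
    2 (b + 1) (b + 2) t
    (rv_in (by omega) (by omega) (by omega))
    (rv_out (by omega))
    (rv_out (by omega))
    (ph0 (by omega) (by omega))]
  rw [act_step n 1 (c + 2) ⟨le_rfl, by omega, by omega⟩ 2 (b + 1) (b + 2) t
    (c + 1) (b + 1) (b + 2) t
    (rv_in (by omega) (by omega) (by omega))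
    (rv_out (by omega))
    (rv_out (by omega))
    (ph0 (by omega) (by omega))]
  rw [act_step n 1 (c + 1) ⟨le_rfl, by omega, by omega⟩ (c + 1) (b + 1) (b + 2) t
    1 (b + 1) (b + 2) t
    (rv_in (by omega) (by omega) (by omega))
    (rv_out (by omega))
    (rv_out (by omega))
    (ph0 (by omega) (by omega))]
  rw [act_step n (c + 1) (c + 2) ⟨by omega, by omega, by omega⟩ 1 (b + 1) (b + 2) t
    1 (b + 1) (b + 2) t
    (rv_out (by omega))
    (rv_out (by omega))
    (rv_out (by omega))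
    (ph0 (by omega) (by omega))]

theorem perm_zpow {X : Type*} (σ : Equiv.Perm X) (s : ℤ → X) (c : ℤ)
    (h : ∀ t, σ (s t) = s (t + c)) (m : ℤ) : ∀ t, (σ ^ m) (s t) = s (t + c * m) := by
  have hinv : ∀ t, σ⁻¹ (s t) = s (t - c) := by
    intro t
    rw [Equiv.Perm.inv_eq_iff_eq, h]
    congr 1
    ring
  induction m using Int.induction_on with
  | zero => intro t; simp
  | succ i ih =>
    intro t
    rw [zpow_add_one, Equiv.Perm.mul_apply, h, ih]
    congr 1
    ring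
  | pred i ih =>
    intro t
    rw [zpow_sub_one, Equiv.Perm.mul_apply, hinv, ih]
    congr 1
    ring

/-- the homomorphism from the free abelian group -/
theorem exists_hom (n k : ℕ) (hk : 2 * k + 1 ≤ n) :
    ∃ F : (Fin k → Multiplicative ℤ) →* J n, Function.Injective F := by
  classical
  have hcomm : Pairwise fun i j : Fin k => ∀ (x y : Multiplicative ℤ),
      Commute (zpowersHom (J n) (Y n (2 * i + 1)) x) (zpowersHom (J n) (Y n (2 * j + 1)) y) := by
    intro i j hij x y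
    simp only [zpowersHom_apply]
    refine Commute.zpow_zpow ?_ _ _
    have hi := i.2
    have hj := j.2
    rcases lt_or_gt_of_ne hij with h | h
    · have : (i : ℕ) < j := h
      exact (Y_comm n (2 * j + 1) (2 * i + 1) (by omega) (by omega)).symm
    · have : (j : ℕ) < i := h
      exact Y_comm n (2 * i + 1) (2 * j + 1) (by omega) (by omega)
  let F := MonoidHom.noncommPiCoprod (N := fun _ : Fin k => Multiplicative ℤ)
    (fun i : Fin k => zpowersHom (J n) (Y n (2 * i + 1))) hcomm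
  have hF : ∀ (i : Fin k) (x : Multiplicative ℤ),
      F (Pi.mulSingle i x) = (Y n (2 * i + 1)) ^ (Multiplicative.toAdd x) := by
    intro i x
    simp only [F, MonoidHom.noncommPiCoprod_mulSingle, zpowersHom_apply]
  refine ⟨F, ?_⟩
  have key : ∀ (i : Fin k) (e : Fin k → Multiplicative ℤ) (t : ℤ),
      Phi n (F e) (st (2 * i + 1) t) = st (2 * i + 1) (t + 3 * Multiplicative.toAdd (e i)) := by
    intro i e
    have hi := i.2
    let K : Subgroup (Fin k → Multiplicative ℤ) :=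
      { carrier := {e | ∀ t : ℤ, Phi n (F e) (st (2 * i + 1) t) =
          st (2 * i + 1) (t + 3 * Multiplicative.toAdd (e i))}
        mul_mem' := by
          intro a b ha hb t
          rw [map_mul, map_mul, Equiv.Perm.mul_apply, hb, ha, Pi.mul_apply, toAdd_mul]
          congr 1
          ring
        one_mem' := by
          intro t
          simp
        inv_mem' := by
          intro a ha t
          rw [map_inv, map_inv, Equiv.Perm.inv_eq_iff_eq, ha, Pi.inv_apply, toAdd_inv]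
          congr 1
          ring }
    have : e ∈ K := by
      apply Subgroup.pi_mem_of_mulSingle_mem
      intro j
      show ∀ t : ℤ, _
      intro t
      rw [hF, map_zpow]
      have hj := j.2
      rcases lt_trichotomy i j with h | h | h
      · have h' : (i : ℕ) < j := h
        rw [perm_zpow _ (fun t => st (2 * i + 1) t) 0 (fun t => by
          rw [Phi_Y_gt n _ _ (by omega) (by omega) (by omega), add_zero])]
        rw [Pi.mulSingle_eq_of_ne h.ne]
        simp
      · subst h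
        rw [perm_zpow _ (fun t => st (2 * i + 1) t) 3 (fun t => by
          rw [Phi_Y_self n _ (by omega) (by omega)])]
        rw [Pi.mulSingle_eq_same]
      · have h' : (j : ℕ) < i := h
        rw [perm_zpow _ (fun t => st (2 * i + 1) t) 0 (fun t => by
          rw [Phi_Y_lt n _ _ (by omega) (by omega) (by omega), add_zero])]
        rw [Pi.mulSingle_eq_of_ne h.ne']
        simp
    exact this
  rw [injective_iff_map_eq_one]
  intro e he
  ext1 i
  have := key i e 0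
  rw [he, map_one] at this
  simp only [Equiv.Perm.coe_one, id_eq, st, Prod.mk.injEq, true_and] at this
  have h3 : Multiplicative.toAdd (e i) = 0 := by omega
  exact Multiplicative.toAdd.injective h3

end Pool.Agent.X269.Cactus
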